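import Pool.Agent.DiamSqrt.LawDef

/-! The mean and the second moment of the distance function. -/

namespace DiamSqrt

open Finset DiamEven

private lemma sum_card_add {α : Type*} [DecidableEq α] (S : Finset α) :
    ∀ c : ℝ, ∑ X ∈ S.powerset, ((X.card : ℝ) + c) = 2 ^ S.card * ((S.card : ℝ) / 2 + c) := by
  induction S using Finset.induction_on with
  | empty => intro c; simp
  | insert a S ha ih =>
    intro c
    rw [Finset.sum_powerset_insert ha, ih c]
    have h1 : ∑ X ∈ S.powerset, (((insert a X).card : ℝ) + c) =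
        ∑ X ∈ S.powerset, ((X.card : ℝ) + (c + 1)) := by
      apply Finset.sum_congr rfl
      intro X hX
      rw [mem_powerset] at hX
      rw [card_insert_of_notMem (fun h => ha (hX h))]
      push_cast
      ring
    rw [h1, ih (c + 1), card_insert_of_notMem ha]
    push_cast
    ring

private lemma sum_card_add_sq {α : Type*} [DecidableEq α] (S : Finset α) :
    ∀ c : ℝ, ∑ X ∈ S.powerset, ((X.card : ℝ) + c) ^ 2 =
      2 ^ S.card * (((S.card : ℝ) / 2 + c) ^ 2 + (S.card : ℝ) / 4) := by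
  induction S using Finset.induction_on with
  | empty => intro c; simp
  | insert a S ha ih =>
    intro c
    rw [Finset.sum_powerset_insert ha, ih c]
    have h1 : ∑ X ∈ S.powerset, (((insert a X).card : ℝ) + c) ^ 2 =
        ∑ X ∈ S.powerset, ((X.card : ℝ) + (c + 1)) ^ 2 := by
      apply Finset.sum_congr rfl
      intro X hX
      rw [mem_powerset] at hX
      rw [card_insert_of_notMem (fun h => ha (hX h))]
      push_cast
      ring
    rw [h1, ih (c + 1), card_insert_of_notMem ha]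
    push_cast
    ring

/-- telescoping -/
private lemma tele (φ : ℕ → ℝ) (N v : ℕ) (hv : v ≤ N) :
    φ v = φ N + ∑ t ∈ range N, (φ t - φ (t + 1)) * (if v ≤ t then 1 else 0) := by
  induction N with
  | zero =>
    have : v = 0 := by omega
    subst this
    simp
  | succ N ih =>
    rcases Nat.lt_or_ge v (N + 1) with h | h
    · rw [Finset.sum_range_succ, if_pos (by omega : v ≤ N), ih (by omega)]
      ring
    · have : v = N + 1 := by omega
      subst this
      rw [Finset.sum_eq_zero]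
      · ring
      · intro t ht
        rw [mem_range] at ht
        rw [if_neg (by omega), mul_zero]

/-- the distance from the level `s` -/
private def dst (s a : ℕ) : ℕ := (a - s) + (s - a)

private lemma sum_dst_le {n : ℕ} (s t : ℕ) :
    ∑ X ∈ (univ : Finset (Fin n)).powerset, (if dst s X.card ≤ t then (1 : ℝ) else 0) =
      WW t n s := by
  rw [Finset.sum_powerset_apply_card (fun j => if dst s j ≤ t then (1 : ℝ) else 0)]
  unfold WW
  rw [Finset.card_univ, Fintype.card_fin]
  apply Finset.sum_congr rfl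
  intro j _
  rw [nsmul_eq_mul]
  congr 1
  unfold dst
  by_cases h : s ≤ j + t ∧ j ≤ s + t
  · rw [if_pos h, if_pos (by omega)]
  · rw [if_neg h, if_neg (by omega)]

variable {n : ℕ}

private lemma Law.dom {s k : ℕ} {f : Finset (Fin n) → ℕ} (h : Law n s k f) (φ : ℕ → ℝ)
    (hφ : ∀ t, φ (t + 1) ≤ φ t) :
    ∑ X ∈ (univ : Finset (Fin n)).powerset, φ (dst s X.card) ≤
      ∑ X ∈ (univ : Finset (Fin n)).powerset, φ (f X) := by
  have hn := h.hn
  have h1 : ∀ X : Finset (Fin n), φ (dst s X.card) =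
      φ (n + 1) + ∑ t ∈ range (n + 1), (φ t - φ (t + 1)) * (if dst s X.card ≤ t then 1 else 0) := by
    intro X
    apply tele
    have hX : X.card ≤ n := by simpa using Finset.card_le_univ X
    unfold dst
    omega
  have h2 : ∀ X : Finset (Fin n), φ (f X) =
      φ (n + 1) + ∑ t ∈ range (n + 1), (φ t - φ (t + 1)) * (if f X ≤ t then 1 else 0) := by
    intro X
    apply tele
    have := h.le_n X
    omega
  rw [Finset.sum_congr rfl (fun X _ => h1 X), Finset.sum_congr rfl (fun X _ => h2 X),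
    Finset.sum_add_distrib, Finset.sum_add_distrib, Finset.sum_comm,
    Finset.sum_comm (s := (univ : Finset (Fin n)).powerset) (t := range (n + 1))
      (f := fun X t => (φ t - φ (t + 1)) * (if f X ≤ t then 1 else 0))]
  apply add_le_add le_rfl
  apply Finset.sum_le_sum
  intro t _
  rw [← Finset.mul_sum, ← Finset.mul_sum, sum_dst_le]
  apply mul_le_mul_of_nonneg_left (h.iso t)
  have := hφ t
  linarith

private lemma sum_small (s : ℕ) (p : ℝ)
    (hp : ∑ j ∈ range (s + 1), (n.choose j : ℝ) ≤ p * 2 ^ n) :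
    ∑ X ∈ (univ : Finset (Fin n)).powerset, (if X.card < s then (1 : ℝ) else 0) ≤ p * 2 ^ n := by
  rw [Finset.sum_powerset_apply_card (fun j => if j < s then (1 : ℝ) else 0),
    Finset.card_univ, Fintype.card_fin]
  refine le_trans ?_ hp
  rw [← Finset.sum_filter_add_sum_filter_not (range (n + 1)) (fun j => j < s)]
  rw [Finset.sum_eq_zero (s := (range (n + 1)).filter (fun j => ¬ j < s)), add_zero]
  · have h1 : ∑ j ∈ (range (n + 1)).filter (fun j => j < s),
        n.choose j • (if j < s then (1 : ℝ) else 0) =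
        ∑ j ∈ (range (n + 1)).filter (fun j => j < s), (n.choose j : ℝ) := by
      apply Finset.sum_congr rfl
      intro j hj
      rw [mem_filter] at hj
      rw [if_pos hj.2, nsmul_eq_mul, mul_one]
    rw [h1]
    apply Finset.sum_le_sum_of_subset_of_nonneg
    · intro j hj
      rw [mem_filter] at hj
      rw [mem_range]
      omega
    · intro j _ _
      positivity
  · intro j hj
    rw [mem_filter] at hj
    rw [if_neg hj.2, smul_zero]

theorem Law.mean {s k : ℕ} {f : Finset (Fin n) → ℕ} (h : Law n s k f) (p : ℝ)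
    (hp : ∑ j ∈ range (s + 1), (n.choose j : ℝ) ≤ p * 2 ^ n) :
    ∑ X ∈ (univ : Finset (Fin n)).powerset, (f X : ℝ) ≤ 2 ^ n * ((k : ℝ) / 2 + n * p) := by
  have hn := h.hn
  have hnR : (n : ℝ) = 2 * s + k := by exact_mod_cast hn
  have h1 := h.dom (fun v => -(v : ℝ)) (by intro t; push_cast; linarith)
  rw [Finset.sum_neg_distrib, Finset.sum_neg_distrib, neg_le_neg_iff] at h1
  refine h1.trans ?_
  have h2 : ∑ X ∈ (univ : Finset (Fin n)).powerset, (dst s X.card : ℝ) ≤
      ∑ X ∈ (univ : Finset (Fin n)).powerset,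
        (((X.card : ℝ) + (-(s : ℝ))) + 2 * s * (if X.card < s then (1 : ℝ) else 0)) := by
    apply Finset.sum_le_sum
    intro X _
    unfold dst
    split_ifs with hX
    · rw [Nat.sub_eq_zero_of_le hX.le, zero_add, Nat.cast_sub hX.le]
      have : (0 : ℝ) ≤ X.card := Nat.cast_nonneg _
      linarith
    · push Not at hX
      rw [Nat.sub_eq_zero_of_le hX, add_zero, Nat.cast_sub hX]
      linarith
  refine h2.trans ?_
  rw [Finset.sum_add_distrib, sum_card_add, ← Finset.mul_sum, Finset.card_univ, Fintype.card_fin]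
  have h3 := mul_le_mul_of_nonneg_left (sum_small s p hp) (by positivity : (0 : ℝ) ≤ 2 * s)
  have hp0 : 0 ≤ p * 2 ^ n := le_trans (Finset.sum_nonneg (fun _ _ => by positivity)) hp
  have hk0 : (0 : ℝ) ≤ k := Nat.cast_nonneg _
  have h4 : (2 : ℝ) * s * (p * 2 ^ n) ≤ n * (p * 2 ^ n) := by
    apply mul_le_mul_of_nonneg_right _ hp0
    linarith
  have h5 : (2 : ℝ) ^ n * ((n : ℝ) / 2 + -(s : ℝ)) = 2 ^ n * ((k : ℝ) / 2) := by
    rw [hnR]; ring
  rw [h5]
  linarith

private lemma sq_split (a : ℝ) : a ^ 2 = (max (-a) 0) ^ 2 + (max a 0) ^ 2 := by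
  rcases le_total a 0 with h | h
  · rw [max_eq_left (by linarith), max_eq_right h]; ring
  · rw [max_eq_right (by linarith), max_eq_left h]; ring

private lemma sum_compl (g : Finset (Fin n) → ℝ) :
    ∑ X ∈ (univ : Finset (Fin n)).powerset, g Xᶜ = ∑ X ∈ (univ : Finset (Fin n)).powerset, g X := by
  apply Finset.sum_nbij' (fun X => Xᶜ) (fun X => Xᶜ)
  · intro X _; simp
  · intro X _; simp
  · intro X _; simp
  · intro X _; simp
  · intro X _; rfl

theorem Law.second {s k : ℕ} {f : Finset (Fin n) → ℕ} (h : Law n s k f) (p : ℝ)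
    (hp : ∑ j ∈ range (s + 1), (n.choose j : ℝ) ≤ p * 2 ^ n) :
    2 ^ n * ((n : ℝ) / 4 - n ^ 2 * p) ≤
      ∑ X ∈ (univ : Finset (Fin n)).powerset, ((f X : ℝ) - (k : ℝ) / 2) ^ 2 := by
  have hn := h.hn
  have hnR : (n : ℝ) = 2 * s + k := by exact_mod_cast hn
  have hp0 : 0 ≤ p * 2 ^ n := le_trans (Finset.sum_nonneg (fun _ _ => by positivity)) hp
  -- the function
  have hmax : ∀ a b : ℝ, a ≤ b → (max a 0) ^ 2 ≤ (max b 0) ^ 2 := by
    intro a b hab
    exact pow_le_pow_left₀ (le_max_right _ _) (max_le_max hab le_rfl) 2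
  have h1 := h.dom (fun v => (max ((k : ℝ) / 2 - v) 0) ^ 2) (by
    intro t
    apply hmax
    push_cast
    linarith)
  have h2 : ∑ X ∈ (univ : Finset (Fin n)).powerset, ((f X : ℝ) - (k : ℝ) / 2) ^ 2 =
      ∑ X ∈ (univ : Finset (Fin n)).powerset, (max ((k : ℝ) / 2 - f X) 0) ^ 2 +
        ∑ X ∈ (univ : Finset (Fin n)).powerset, (max ((f X : ℝ) - (k : ℝ) / 2) 0) ^ 2 := by
    rw [← Finset.sum_add_distrib]
    apply Finset.sum_congr rfl
    intro X _
    have := sq_split ((f X : ℝ) - (k : ℝ) / 2)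
    rw [neg_sub] at this
    exact this
  have h3 : ∑ X ∈ (univ : Finset (Fin n)).powerset, (max ((k : ℝ) / 2 - f X) 0) ^ 2 ≤
      ∑ X ∈ (univ : Finset (Fin n)).powerset, (max ((f X : ℝ) - (k : ℝ) / 2) 0) ^ 2 := by
    rw [← sum_compl (fun X => (max ((f X : ℝ) - (k : ℝ) / 2) 0) ^ 2)]
    apply Finset.sum_le_sum
    intro X _
    apply hmax
    have h4 : (k : ℝ) ≤ f X + f Xᶜ := by exact_mod_cast h.disj X
    linarith
  have h5 : ∑ X ∈ (univ : Finset (Fin n)).powerset, ((X.card : ℝ) + (-((n : ℝ) / 2))) ^ 2 =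
      2 ^ n * ((n : ℝ) / 4) := by
    rw [sum_card_add_sq, Finset.card_univ, Fintype.card_fin]
    ring
  have h6 : ∑ X ∈ (univ : Finset (Fin n)).powerset, ((X.card : ℝ) + (-((n : ℝ) / 2))) ^ 2 =
      ∑ X ∈ (univ : Finset (Fin n)).powerset, (max ((n : ℝ) / 2 - X.card) 0) ^ 2 +
        ∑ X ∈ (univ : Finset (Fin n)).powerset, (max ((X.card : ℝ) - (n : ℝ) / 2) 0) ^ 2 := by
    rw [← Finset.sum_add_distrib]
    apply Finset.sum_congr rfl
    intro X _
    have := sq_split ((X.card : ℝ) + (-((n : ℝ) / 2)))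
    rw [this]
    have e : -((X.card : ℝ) + -((n : ℝ) / 2)) = (n : ℝ) / 2 - X.card := by ring
    rw [e, ← sub_eq_add_neg]
  have h7 : ∑ X ∈ (univ : Finset (Fin n)).powerset, (max ((X.card : ℝ) - (n : ℝ) / 2) 0) ^ 2 =
      ∑ X ∈ (univ : Finset (Fin n)).powerset, (max ((n : ℝ) / 2 - X.card) 0) ^ 2 := by
    rw [← sum_compl (fun X => (max ((X.card : ℝ) - (n : ℝ) / 2) 0) ^ 2)]
    apply Finset.sum_congr rfl
    intro X _
    have hX : (Xᶜ.card : ℝ) = n - X.card := by
      have h8 : X.card ≤ n := by simpa using Finset.card_le_univ X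
      rw [Finset.card_compl, Fintype.card_fin, Nat.cast_sub h8]
    rw [hX]
    congr 2
    ring
  have h8 : ∑ X ∈ (univ : Finset (Fin n)).powerset, (max ((n : ℝ) / 2 - X.card) 0) ^ 2 ≤
      ∑ X ∈ (univ : Finset (Fin n)).powerset, ((max ((k : ℝ) / 2 - (dst s X.card : ℕ)) 0) ^ 2 +
        ((n : ℝ) / 2) ^ 2 * (if X.card < s then (1 : ℝ) else 0)) := by
    apply Finset.sum_le_sum
    intro X _
    split_ifs with hX
    · have h9 : (max ((n : ℝ) / 2 - X.card) 0) ^ 2 ≤ ((n : ℝ) / 2) ^ 2 := by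
        apply pow_le_pow_left₀ (le_max_right _ _)
        apply max_le
        · have : (0 : ℝ) ≤ X.card := Nat.cast_nonneg _
          linarith
        · positivity
      have h10 : 0 ≤ (max ((k : ℝ) / 2 - (dst s X.card : ℕ)) 0) ^ 2 := sq_nonneg _
      linarith
    · push Not at hX
      rw [mul_zero, add_zero]
      apply le_of_eq
      congr 2
      unfold dst
      rw [Nat.sub_eq_zero_of_le hX, add_zero, Nat.cast_sub hX, hnR]
      ring
  rw [Finset.sum_add_distrib, ← Finset.mul_sum] at h8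
  have h9 := mul_le_mul_of_nonneg_left (sum_small s p hp) (by positivity : (0 : ℝ) ≤ ((n : ℝ) / 2) ^ 2)
  have h10 : 2 * (((n : ℝ) / 2) ^ 2 * (p * 2 ^ n)) ≤ 2 ^ n * (n ^ 2 * p) := by
    have : 0 ≤ (n : ℝ) ^ 2 * (p * 2 ^ n) := by positivity
    nlinarith
  linarith

end DiamSqrt
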