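import Pool.Agent.DiamSqrt.Mean

/-! Variance of a function on the cube all of whose differences are at most one. -/

namespace DiamSqrt

open Finset DiamEven

variable {α : Type*} [DecidableEq α]

private lemma split_sum {S : Finset α} {x : α} (hx : x ∉ S) (g : Finset α → ℝ) :
    ∑ X ∈ (insert x S).powerset, g X =
      ∑ X ∈ S.powerset, g X + ∑ X ∈ S.powerset, g (insert x X) :=
  Finset.sum_powerset_insert hx g

private lemma lip_left {S : Finset α} {x : α} (g : Finset α → ℝ)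
    (hg : ∀ y ∈ insert x S, ∀ X ⊆ insert x S, y ∉ X → |g (insert y X) - g X| ≤ 1) :
    ∀ y ∈ S, ∀ X ⊆ S, y ∉ X → |g (insert y X) - g X| ≤ 1 :=
  fun y hy X hX hyX => hg y (mem_insert_of_mem hy) X (hX.trans (subset_insert _ _)) hyX

private lemma lip_right {S : Finset α} {x : α} (hx : x ∉ S) (g : Finset α → ℝ)
    (hg : ∀ y ∈ insert x S, ∀ X ⊆ insert x S, y ∉ X → |g (insert y X) - g X| ≤ 1) :
    ∀ y ∈ S, ∀ X ⊆ S, y ∉ X → |g (insert x (insert y X)) - g (insert x X)| ≤ 1 := by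
  intro y hy X hX hyX
  rw [insert_comm]
  refine hg y (mem_insert_of_mem hy) (insert x X) (insert_subset_insert _ hX) ?_
  rw [mem_insert]
  rintro (h | h)
  · exact hx (h ▸ hy)
  · exact hyX h

theorem varBound (S : Finset α) (g : Finset α → ℝ)
    (hg : ∀ x ∈ S, ∀ X ⊆ S, x ∉ X → |g (insert x X) - g X| ≤ 1) :
    2 ^ S.card * ∑ X ∈ S.powerset, g X ^ 2 - (∑ X ∈ S.powerset, g X) ^ 2 ≤
      4 ^ S.card * ((S.card : ℝ) / 4) := by
  induction S using Finset.induction_on generalizing g with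
  | empty => simp
  | insert x S hx ih =>
    have h1 := ih g (lip_left g hg)
    have h2 := ih (fun X => g (insert x X)) (lip_right hx g hg)
    have h3 : |∑ X ∈ S.powerset, g (insert x X) - ∑ X ∈ S.powerset, g X| ≤ 2 ^ S.card := by
      rw [← Finset.sum_sub_distrib]
      refine (Finset.abs_sum_le_sum_abs _ _).trans ?_
      calc ∑ X ∈ S.powerset, |g (insert x X) - g X| ≤ ∑ _X ∈ S.powerset, (1 : ℝ) := by
            refine Finset.sum_le_sum fun X hX => ?_
            have hX' := mem_powerset.1 hX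
            exact hg x (mem_insert_self _ _) X (hX'.trans (subset_insert _ _))
              fun h => hx (hX' h)
        _ = 2 ^ S.card := by simp
    rw [split_sum hx g, split_sum hx (fun X => g X ^ 2), card_insert_of_notMem hx]
    have h4 := sq_le_sq' (abs_le.1 h3).1 (abs_le.1 h3).2
    have h5 : ((2 : ℝ) ^ S.card) ^ 2 = 4 ^ S.card := by
      rw [← pow_mul, mul_comm, pow_mul]
      norm_num
    rw [h5] at h4
    push_cast
    set A := ∑ X ∈ S.powerset, g X ^ 2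
    set B := ∑ X ∈ S.powerset, g (insert x X) ^ 2
    set a := ∑ X ∈ S.powerset, g X
    set b := ∑ X ∈ S.powerset, g (insert x X)
    calc (2 : ℝ) ^ (S.card + 1) * (A + B) - (a + b) ^ 2
        = 2 * (2 ^ S.card * A - a ^ 2) + 2 * (2 ^ S.card * B - b ^ 2) + (b - a) ^ 2 := by ring
      _ ≤ 2 * (4 ^ S.card * ((S.card : ℝ) / 4)) + 2 * (4 ^ S.card * ((S.card : ℝ) / 4)) +
          4 ^ S.card := by linarith
      _ = 4 ^ (S.card + 1) * (((S.card : ℝ) + 1) / 4) := by ring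

theorem varCoord (S : Finset α) (g : Finset α → ℝ)
    (hg : ∀ x ∈ S, ∀ X ⊆ S, x ∉ X → |g (insert x X) - g X| ≤ 1) (x : α) (hx : x ∈ S) :
    2 ^ S.card * ∑ X ∈ S.powerset, g X ^ 2 - (∑ X ∈ S.powerset, g X) ^ 2 ≤
      4 ^ S.card * (((S.card : ℝ) - 1) / 4) +
        (∑ X ∈ (S.erase x).powerset, (g (insert x X) - g X)) ^ 2 := by
  obtain ⟨S', hS', hxS'⟩ : ∃ S' : Finset α, S = insert x S' ∧ x ∉ S' :=
    ⟨S.erase x, (insert_erase hx).symm, notMem_erase x S⟩
  subst hS'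
  rw [erase_insert hxS']
  have h1 := varBound S' g (lip_left g hg)
  have h2 := varBound S' (fun X => g (insert x X)) (lip_right hxS' g hg)
  rw [split_sum hxS' g, split_sum hxS' (fun X => g X ^ 2), card_insert_of_notMem hxS',
    Finset.sum_sub_distrib]
  push_cast
  set A := ∑ X ∈ S'.powerset, g X ^ 2
  set B := ∑ X ∈ S'.powerset, g (insert x X) ^ 2
  set a := ∑ X ∈ S'.powerset, g X
  set b := ∑ X ∈ S'.powerset, g (insert x X)
  calc (2 : ℝ) ^ (S'.card + 1) * (A + B) - (a + b) ^ 2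
      = 2 * (2 ^ S'.card * A - a ^ 2) + 2 * (2 ^ S'.card * B - b ^ 2) + (b - a) ^ 2 := by ring
    _ ≤ 2 * (4 ^ S'.card * ((S'.card : ℝ) / 4)) + 2 * (4 ^ S'.card * ((S'.card : ℝ) / 4)) +
        (b - a) ^ 2 := by linarith
    _ = 4 ^ (S'.card + 1) * (((S'.card : ℝ) + 1 - 1) / 4) + (b - a) ^ 2 := by ring

variable {n : ℕ}

private lemma sum_erase_eq (z : Fin n) (G : Finset (Fin n) → Finset (Fin n) → ℝ) :
    ∑ X ∈ (univ : Finset (Fin n)).powerset, G (insert z X) (X.erase z) =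
      2 * ∑ Y ∈ ((univ : Finset (Fin n)).erase z).powerset, G (insert z Y) Y := by
  have h1 : (univ : Finset (Fin n)) = insert z (univ.erase z) :=
    (insert_erase (mem_univ z)).symm
  conv_lhs => rw [h1]
  rw [Finset.sum_powerset_insert (notMem_erase z univ), two_mul]
  congr 1
  · refine Finset.sum_congr rfl fun Y hY => ?_
    have hz : z ∉ Y := fun h => notMem_erase z univ (mem_powerset.1 hY h)
    rw [erase_eq_of_notMem hz]
  · refine Finset.sum_congr rfl fun Y hY => ?_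
    have hz : z ∉ Y := fun h => notMem_erase z univ (mem_powerset.1 hY h)
    rw [insert_idem, erase_insert hz]

private lemma Law.sign_of {s k : ℕ} {f : Finset (Fin n) → ℕ} (h : Law n s k f) (p : ℝ)
    (hp1 : p ≤ 1) (hp0 : 0 ≤ p)
    (hmean : ∑ X ∈ (univ : Finset (Fin n)).powerset, (f X : ℝ) ≤ 2 ^ n * ((k : ℝ) / 2 + n * p))
    (hsec : 2 ^ n * ((n : ℝ) / 4 - n ^ 2 * p) ≤
      ∑ X ∈ (univ : Finset (Fin n)).powerset, ((f X : ℝ) - (k : ℝ) / 2) ^ 2) (z : Fin n) :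
    ∃ σ : ℤ, (σ = 1 ∨ σ = -1) ∧
      ∑ X ∈ (univ : Finset (Fin n)).powerset,
        (if (f (insert z X) : ℤ) - f (X.erase z) = σ then (0 : ℝ) else 1) ≤
          2 ^ n * (8 * n ^ 2 * p) := by
  set N : ℝ := 2 ^ n with hN
  have hN0 : 0 < N := by positivity
  have hcard : ∑ _X ∈ (univ : Finset (Fin n)).powerset, (1 : ℝ) = N := by simp [hN]
  have hint : ∀ X : Finset (Fin n), ∀ x : Fin n, x ∉ X →
      (f (insert x X) : ℤ) - f X ≤ 1 ∧ -1 ≤ (f (insert x X) : ℤ) - f X := by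
    intro X x hx
    have := h.lip x X hx
    omega
  -- the sum of `f - k / 2`
  have hM0 : 0 ≤ ∑ X ∈ (univ : Finset (Fin n)).powerset, ((f X : ℝ) - (k : ℝ) / 2) := by
    have h1 : ∑ X ∈ (univ : Finset (Fin n)).powerset, ((f X : ℝ) - (k : ℝ) / 2) =
        ∑ X ∈ (univ : Finset (Fin n)).powerset, ((f Xᶜ : ℝ) - (k : ℝ) / 2) := by
      refine Finset.sum_nbij' (fun X => Xᶜ) (fun X => Xᶜ) ?_ ?_ ?_ ?_ ?_ <;> intro X _ <;> simp
    have h2 : 0 ≤ ∑ X ∈ (univ : Finset (Fin n)).powerset, ((f X : ℝ) - (k : ℝ) / 2) +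
        ∑ X ∈ (univ : Finset (Fin n)).powerset, ((f Xᶜ : ℝ) - (k : ℝ) / 2) := by
      rw [← Finset.sum_add_distrib]
      refine Finset.sum_nonneg fun X _ => ?_
      have h3 : (k : ℝ) ≤ (f X : ℝ) + f Xᶜ := by exact_mod_cast h.disj X
      linarith
    rw [← h1] at h2
    linarith
  have hM1 : ∑ X ∈ (univ : Finset (Fin n)).powerset, ((f X : ℝ) - (k : ℝ) / 2) ≤ N * (n * p) := by
    rw [Finset.sum_sub_distrib]
    have h1 : ∑ _X ∈ (univ : Finset (Fin n)).powerset, (k : ℝ) / 2 = N * ((k : ℝ) / 2) := by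
      rw [← hcard, Finset.sum_mul]
      simp
    rw [h1]
    linarith
  have hvar := varCoord (univ : Finset (Fin n)) (fun X => (f X : ℝ) - (k : ℝ) / 2) (by
    intro x _ X _ hx
    have h1 := hint X x hx
    have h2 : (f (insert x X) : ℝ) - (k : ℝ) / 2 - ((f X : ℝ) - (k : ℝ) / 2) =
        (((f (insert x X) : ℤ) - f X : ℤ) : ℝ) := by
      push_cast
      ring
    rw [h2, abs_le]
    exact ⟨by exact_mod_cast h1.2, by exact_mod_cast h1.1⟩) z (mem_univ z)
  rw [card_univ, Fintype.card_fin, ← hN] at hvar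
  have hd : ∀ X : Finset (Fin n), (f (insert z X) : ℝ) - (k : ℝ) / 2 -
      ((f X : ℝ) - (k : ℝ) / 2) = (((f (insert z X) : ℤ) - f X : ℤ) : ℝ) := by
    intro X
    push_cast
    ring
  simp only [hd] at hvar
  set T : ℝ := ∑ X ∈ ((univ : Finset (Fin n)).erase z).powerset,
    (((f (insert z X) : ℤ) - f X : ℤ) : ℝ) with hT
  set M : ℝ := ∑ X ∈ (univ : Finset (Fin n)).powerset, ((f X : ℝ) - (k : ℝ) / 2)
  set V : ℝ := ∑ X ∈ (univ : Finset (Fin n)).powerset, ((f X : ℝ) - (k : ℝ) / 2) ^ 2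
  have h4 : (4 : ℝ) ^ n = N ^ 2 := by
    rw [hN, ← pow_mul, mul_comm, pow_mul]
    norm_num
  rw [h4] at hvar
  have hMsq : M ^ 2 ≤ N ^ 2 * (n ^ 2 * p) := by
    have h5 : M ^ 2 ≤ (N * (n * p)) ^ 2 := by gcongr
    have h6 : p ^ 2 ≤ p := by nlinarith
    calc M ^ 2 ≤ (N * (n * p)) ^ 2 := h5
      _ = N ^ 2 * (n ^ 2 * p ^ 2) := by ring
      _ ≤ N ^ 2 * (n ^ 2 * p) := by gcongr
  have hTsq : (N / 2) ^ 2 * (1 - 8 * n ^ 2 * p) ≤ T ^ 2 := by
    have h7 : N * (N * ((n : ℝ) / 4 - n ^ 2 * p)) ≤ N * V := by gcongr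
    nlinarith
  -- the sum over the sets without `z`
  have hhalf : ((univ : Finset (Fin n)).erase z).powerset.card = 2 ^ (n - 1) := by
    rw [card_powerset, card_erase_of_mem (mem_univ z), card_univ, Fintype.card_fin]
  have hn1 : 1 ≤ n := by have := z.pos; omega
  have hN2 : (2 : ℝ) ^ (n - 1) = N / 2 := by
    rw [hN]
    obtain ⟨m, rfl⟩ := Nat.exists_eq_add_of_le hn1
    rw [Nat.add_sub_cancel_left, pow_add]
    ring
  have hTabs : N / 2 * (1 - 8 * n ^ 2 * p) ≤ |T| := by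
    rcases le_or_gt (1 - 8 * (n : ℝ) ^ 2 * p) 0 with h8 | h8
    · have : N / 2 * (1 - 8 * n ^ 2 * p) ≤ 0 := mul_nonpos_of_nonneg_of_nonpos (by positivity) h8
      exact this.trans (abs_nonneg T)
    · have h9 : 1 - 8 * (n : ℝ) ^ 2 * p ≤ 1 := by
        have : 0 ≤ 8 * (n : ℝ) ^ 2 * p := by positivity
        linarith
      have h10 : (N / 2 * (1 - 8 * n ^ 2 * p)) ^ 2 ≤ |T| ^ 2 := by
        rw [sq_abs]
        refine le_trans ?_ hTsq
        rw [mul_pow, sq (1 - 8 * (n : ℝ) ^ 2 * p)]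
        refine mul_le_mul_of_nonneg_left ?_ (by positivity)
        exact mul_le_of_le_one_left h8.le h9
      exact (sq_le_sq₀ (by positivity) (abs_nonneg T)).1 h10
  have hfin : ∀ σ : ℤ, (σ = 1 ∨ σ = -1) → (σ : ℝ) * T = |T| →
      ∑ X ∈ (univ : Finset (Fin n)).powerset,
        (if (f (insert z X) : ℤ) - f (X.erase z) = σ then (0 : ℝ) else 1) ≤
          N * (8 * n ^ 2 * p) := by
    intro σ hσ hσT
    rw [sum_erase_eq z fun A B => if (f A : ℤ) - f B = σ then (0 : ℝ) else 1]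
    have h9 : ∑ Y ∈ ((univ : Finset (Fin n)).erase z).powerset,
        (if (f (insert z Y) : ℤ) - f Y = σ then (0 : ℝ) else 1) ≤
        ∑ Y ∈ ((univ : Finset (Fin n)).erase z).powerset,
          (1 - (σ : ℝ) * (((f (insert z Y) : ℤ) - f Y : ℤ) : ℝ)) := by
      refine Finset.sum_le_sum fun Y hY => ?_
      have hz : z ∉ Y := fun h => notMem_erase z univ (mem_powerset.1 hY h)
      have h10 := hint Y z hz
      obtain ⟨d, hd'⟩ : ∃ d : ℤ, (f (insert z Y) : ℤ) - f Y = d := ⟨_, rfl⟩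
      rw [hd'] at h10 ⊢
      have h11 : d = -1 ∨ d = 0 ∨ d = 1 := by omega
      rcases hσ with rfl | rfl <;> rcases h11 with rfl | rfl | rfl <;> norm_num
    rw [Finset.sum_sub_distrib, ← Finset.mul_sum, ← hT, hσT, Finset.sum_const, hhalf,
      nsmul_eq_mul, mul_one] at h9
    push_cast at h9
    rw [hN2] at h9
    linarith
  rcases le_total 0 T with h0 | h0
  · exact ⟨1, Or.inl rfl, hfin 1 (Or.inl rfl) (by rw [abs_of_nonneg h0]; simp)⟩
  · exact ⟨-1, Or.inr rfl, hfin (-1) (Or.inr rfl) (by rw [abs_of_nonpos h0]; simp)⟩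

theorem Law.sign {s k : ℕ} {f : Finset (Fin n) → ℕ} (h : Law n s k f) (p : ℝ) (hp1 : p ≤ 1)
    (hp : ∑ j ∈ range (s + 1), (n.choose j : ℝ) ≤ p * 2 ^ n) (z : Fin n) :
    ∃ σ : ℤ, (σ = 1 ∨ σ = -1) ∧
      ∑ X ∈ (univ : Finset (Fin n)).powerset,
        (if (f (insert z X) : ℤ) - f (X.erase z) = σ then (0 : ℝ) else 1) ≤
          2 ^ n * (8 * n ^ 2 * p) := by
  have hp0 : 0 ≤ p := by
    have h1 : (0 : ℝ) ≤ ∑ j ∈ range (s + 1), (n.choose j : ℝ) := by positivity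
    have h2 : 0 ≤ p * 2 ^ n := h1.trans hp
    exact nonneg_of_mul_nonneg_left h2 (by positivity)
  exact Law.sign_of h p hp1 hp0 (h.mean p hp) (h.second p hp) z

end DiamSqrt
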