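import Pool.Agent.DiamSqrt.LawDef
import Pool.Agent.DiamSqrt.Var
import Pool.Agent.DiamSqrt.Mean

/-! The distance function is the distance to a centre, shifted by a constant, off a small set. -/

namespace DiamSqrt

open Finset DiamEven

variable {n : ℕ}

private lemma lin_card_insert (X Z : Finset (Fin n)) (z : Fin n) :
    ((symmDiff (insert z X) Z).card : ℤ) - (symmDiff (X.erase z) Z).card =
      if z ∈ Z then -1 else 1 := by
  classical
  by_cases hz : z ∈ Z
  · rw [if_pos hz]
    have h1 : symmDiff (X.erase z) Z = insert z (symmDiff (insert z X) Z) := by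
      ext y
      simp only [mem_symmDiff, mem_insert, mem_erase]
      by_cases hy : y = z
      · subst hy
        simp [hz]
      · simp [hy]
    have h2 : z ∉ symmDiff (insert z X) Z := by
      simp [mem_symmDiff, hz]
    rw [h1, card_insert_of_notMem h2]
    push_cast
    ring
  · rw [if_neg hz]
    have h1 : symmDiff (insert z X) Z = insert z (symmDiff (X.erase z) Z) := by
      ext y
      simp only [mem_symmDiff, mem_insert, mem_erase]
      by_cases hy : y = z
      · subst hy
        simp [hz]
      · simp [hy]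
    have h2 : z ∉ symmDiff (X.erase z) Z := by
      simp [mem_symmDiff, hz]
    rw [h1, card_insert_of_notMem h2]
    push_cast
    ring

private lemma lin_sum_symmDiff (T : Finset (Fin n)) (φ : Finset (Fin n) → ℝ) :
    ∑ X ∈ (univ : Finset (Fin n)).powerset, φ (symmDiff X T) =
      ∑ X ∈ (univ : Finset (Fin n)).powerset, φ X := by
  apply Finset.sum_nbij' (fun X => symmDiff X T) (fun X => symmDiff X T)
  · intro X _; simp
  · intro X _; simp
  · intro X _; simp
  · intro X _; simp
  · intro X _; rfl

private lemma lin_sum_compl (φ : Finset (Fin n) → ℝ) :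
    ∑ X ∈ (univ : Finset (Fin n)).powerset, φ Xᶜ =
      ∑ X ∈ (univ : Finset (Fin n)).powerset, φ X := by
  apply Finset.sum_nbij' (fun X => Xᶜ) (fun X => Xᶜ)
  · intro X _; simp
  · intro X _; simp
  · intro X _; simp
  · intro X _; simp
  · intro X _; rfl

/-- the number of changes along a path -/
private lemma lin_path (g : Finset (Fin n) → ℤ) (c : ℝ)
    (hc : ∀ z : Fin n, ∑ X ∈ (univ : Finset (Fin n)).powerset,
      (if g X = g (symmDiff X {z}) then (0 : ℝ) else 1) ≤ c) (T : Finset (Fin n)) :
    ∑ X ∈ (univ : Finset (Fin n)).powerset,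
      (if g X = g (symmDiff X T) then (0 : ℝ) else 1) ≤ T.card * c := by
  classical
  induction T using Finset.induction_on with
  | empty =>
    have e : ∀ X : Finset (Fin n), symmDiff X ∅ = X := fun X => symmDiff_bot X
    simp [e]
  | insert z T hz ih =>
    have h1 : ∀ X : Finset (Fin n), symmDiff X (insert z T) = symmDiff (symmDiff X T) {z} := by
      intro X
      rw [symmDiff_assoc]
      congr 1
      ext y
      simp only [mem_insert, mem_symmDiff, mem_singleton]
      by_cases hy : y = z
      · subst hy
        simp [hz]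
      · simp [hy]
    have h2 : ∀ X : Finset (Fin n), (if g X = g (symmDiff X (insert z T)) then (0 : ℝ) else 1) ≤
        (if g X = g (symmDiff X T) then (0 : ℝ) else 1) +
        (fun Y => if g Y = g (symmDiff Y {z}) then (0 : ℝ) else 1) (symmDiff X T) := by
      intro X
      rw [h1 X]
      dsimp only
      by_cases h4 : g X = g (symmDiff X T)
      · by_cases h5 : g (symmDiff X T) = g (symmDiff (symmDiff X T) {z})
        · rw [if_pos (h4.trans h5), if_pos h4, if_pos h5]
          norm_num
        · rw [if_pos h4, if_neg h5]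
          split_ifs <;> norm_num
      · rw [if_neg h4]
        split_ifs <;> norm_num
    calc ∑ X ∈ (univ : Finset (Fin n)).powerset,
        (if g X = g (symmDiff X (insert z T)) then (0 : ℝ) else 1)
        ≤ ∑ X ∈ (univ : Finset (Fin n)).powerset,
          ((if g X = g (symmDiff X T) then (0 : ℝ) else 1) +
          (fun Y => if g Y = g (symmDiff Y {z}) then (0 : ℝ) else 1) (symmDiff X T)) :=
          Finset.sum_le_sum fun X _ => h2 X
      _ = ∑ X ∈ (univ : Finset (Fin n)).powerset,
          (if g X = g (symmDiff X T) then (0 : ℝ) else 1) +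
          ∑ X ∈ (univ : Finset (Fin n)).powerset,
          (if g X = g (symmDiff X {z}) then (0 : ℝ) else 1) := by
          rw [Finset.sum_add_distrib, lin_sum_symmDiff T
            (fun Y => if g Y = g (symmDiff Y {z}) then (0 : ℝ) else 1)]
      _ ≤ T.card * c + c := add_le_add ih (hc z)
      _ = (insert z T).card * c := by
          rw [card_insert_of_notMem hz]
          push_cast
          ring

/-! B4 -/
theorem Law.linear {s k : ℕ} {f : Finset (Fin n) → ℕ} (h : Law n s k f) (p : ℝ) (hp1 : p ≤ 1)
    (hp : ∑ j ∈ range (s + 1), (n.choose j : ℝ) ≤ p * 2 ^ n) (hn1 : 1 ≤ n) :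
    ∃ Z : Finset (Fin n), ∑ X ∈ (univ : Finset (Fin n)).powerset,
      (if f X + s = (symmDiff X Z).card then (0 : ℝ) else 1) ≤ 2 ^ n * (17 * n ^ 4 * p) := by
  classical
  choose σ hσ1 hσ2 using fun z => h.sign p hp1 hp z
  obtain ⟨Z, hZ⟩ : ∃ Z : Finset (Fin n), Z = univ.filter fun z => σ z = -1 := ⟨_, rfl⟩
  have hmem : ∀ z, z ∈ Z ↔ σ z = -1 := by
    intro z
    rw [hZ]
    simp
  obtain ⟨g, hg⟩ : ∃ g : Finset (Fin n) → ℤ,
      g = fun X => (f X : ℤ) + s - (symmDiff X Z).card := ⟨_, rfl⟩
  have hgX : ∀ X, g X = (f X : ℤ) + s - (symmDiff X Z).card := by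
    intro X
    rw [hg]
  have hp0 : 0 ≤ p := by
    have h1 : (0 : ℝ) ≤ ∑ j ∈ range (s + 1), (n.choose j : ℝ) :=
      Finset.sum_nonneg fun j _ => Nat.cast_nonneg _
    have h2 : 0 ≤ p * 2 ^ n := h1.trans hp
    exact nonneg_of_mul_nonneg_left h2 (by positivity)
  -- one step
  have hstep : ∀ z : Fin n, ∑ X ∈ (univ : Finset (Fin n)).powerset,
      (if g X = g (symmDiff X {z}) then (0 : ℝ) else 1) ≤ 2 ^ n * (8 * n ^ 2 * p) := by
    intro z
    refine le_trans (Finset.sum_le_sum fun X _ => ?_) (hσ2 z)
    by_cases h1 : (f (insert z X) : ℤ) - f (X.erase z) = σ z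
    · rw [if_pos h1]
      have h2 := lin_card_insert X Z z
      have h3 : g (insert z X) = g (X.erase z) := by
        rw [hgX, hgX]
        by_cases hz : z ∈ Z
        · rw [if_pos hz] at h2
          rw [(hmem z).1 hz] at h1
          linarith
        · rw [if_neg hz] at h2
          have h4 : σ z = 1 := by
            rcases hσ1 z with h5 | h5
            · exact h5
            · exact absurd ((hmem z).2 h5) hz
          rw [h4] at h1
          linarith
      have h5 : g X = g (symmDiff X {z}) := by
        by_cases hz : z ∈ X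
        · have e1 : insert z X = X := insert_eq_of_mem hz
          have e2 : symmDiff X {z} = X.erase z := by
            ext y
            simp only [mem_symmDiff, mem_singleton, mem_erase]
            by_cases hy : y = z
            · subst hy
              simp [hz]
            · simp [hy]
          rw [e2, ← h3, e1]
        · have e1 : X.erase z = X := erase_eq_of_notMem hz
          have e2 : symmDiff X {z} = insert z X := by
            ext y
            simp only [mem_symmDiff, mem_singleton, mem_insert]
            by_cases hy : y = z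
            · subst hy
              simp [hz]
            · simp [hy]
          rw [e2, h3, e1]
      rw [if_pos h5]
    · rw [if_neg h1]
      split_ifs <;> norm_num
  -- complements
  have hpath := lin_path g _ hstep univ
  have huniv : ∀ X : Finset (Fin n), symmDiff X univ = Xᶜ := by
    intro X
    ext y
    simp [mem_symmDiff]
  simp only [huniv] at hpath
  have hcardn : ((univ : Finset (Fin n)).card : ℝ) = n := by simp
  rw [hcardn] at hpath
  have hneg : ∑ X ∈ (univ : Finset (Fin n)).powerset, (if g X < 0 then (1 : ℝ) else 0) ≤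
      n * (2 ^ n * (8 * n ^ 2 * p)) := by
    refine le_trans (Finset.sum_le_sum fun X _ => ?_) hpath
    by_cases h1 : g X = g Xᶜ
    · rw [if_pos h1]
      have h2 : 0 ≤ g X + g Xᶜ := by
        rw [hgX, hgX]
        have h3 := card_symmDiff_compl X Z
        have h4 := h.disj X
        have h5 := h.hn
        have h3' : ((symmDiff Xᶜ Z).card : ℤ) + (symmDiff X Z).card = n := by exact_mod_cast h3
        have h4' : (k : ℤ) ≤ f X + f Xᶜ := by exact_mod_cast h4
        have h5' : (n : ℤ) = 2 * s + k := by exact_mod_cast h5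
        linarith
      have h6 : ¬ g X < 0 := by
        rw [← h1] at h2
        linarith
      rw [if_neg h6]
    · rw [if_neg h1]
      split_ifs <;> norm_num
  -- the mean of g
  have hmean : ∑ X ∈ (univ : Finset (Fin n)).powerset, (g X : ℝ) ≤ 2 ^ n * (n * p) := by
    have h1 := h.mean p hp
    have h2 : ∑ X ∈ (univ : Finset (Fin n)).powerset, ((symmDiff X Z).card : ℝ) =
        2 ^ n * (n / 2) := by
      have h3 := lin_sum_compl (fun X => ((symmDiff X Z).card : ℝ))
      have h4 : ∑ X ∈ (univ : Finset (Fin n)).powerset, (((symmDiff Xᶜ Z).card : ℝ) +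
          ((symmDiff X Z).card : ℝ)) = 2 ^ n * n := by
        rw [Finset.sum_congr rfl (g := fun _ => (n : ℝ))]
        · rw [Finset.sum_const, card_powerset]
          simp
        · intro X _
          have := card_symmDiff_compl X Z
          exact_mod_cast this
      rw [Finset.sum_add_distrib] at h4
      linarith
    have h5 : ∑ X ∈ (univ : Finset (Fin n)).powerset, (g X : ℝ) =
        ∑ X ∈ (univ : Finset (Fin n)).powerset, (f X : ℝ) + 2 ^ n * s -
        ∑ X ∈ (univ : Finset (Fin n)).powerset, ((symmDiff X Z).card : ℝ) := by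
      have h6 : ∀ X, (g X : ℝ) = (f X : ℝ) + s - (symmDiff X Z).card := by
        intro X
        rw [hgX]
        push_cast
        ring
      rw [Finset.sum_congr rfl (fun X _ => h6 X), Finset.sum_sub_distrib,
        Finset.sum_add_distrib, Finset.sum_const, card_powerset]
      simp
    have h7 : (n : ℝ) = 2 * s + k := by exact_mod_cast h.hn
    rw [h5, h2]
    have h8 : (2 : ℝ) ^ n * (k / 2 + n * p) + 2 ^ n * s - 2 ^ n * (n / 2) = 2 ^ n * (n * p) := by
      rw [h7]
      ring
    linarith
  -- conclusion
  refine ⟨Z, ?_⟩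
  have hpt : ∀ X : Finset (Fin n), (if f X + s = (symmDiff X Z).card then (0 : ℝ) else 1) ≤
      (g X : ℝ) + (n + 1) * (if g X < 0 then (1 : ℝ) else 0) := by
    intro X
    have hbd : -(n : ℤ) ≤ g X := by
      rw [hgX]
      have h1 : (symmDiff X Z).card ≤ n := by simpa using card_le_univ (symmDiff X Z)
      have h2 : ((symmDiff X Z).card : ℤ) ≤ n := by exact_mod_cast h1
      have h3 : (0 : ℤ) ≤ f X := Nat.cast_nonneg _
      have h4 : (0 : ℤ) ≤ s := Nat.cast_nonneg _
      linarith
    have hbd' : -(n : ℝ) ≤ g X := by exact_mod_cast hbd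
    rcases lt_trichotomy (g X) 0 with h1 | h1 | h1
    · rw [if_pos h1]
      have : (if f X + s = (symmDiff X Z).card then (0 : ℝ) else 1) ≤ 1 := by
        split_ifs <;> norm_num
      linarith
    · have h2 : f X + s = (symmDiff X Z).card := by
        rw [hgX] at h1
        have h3 : ((f X + s : ℕ) : ℤ) = ((symmDiff X Z).card : ℕ) := by
          push_cast
          linarith
        exact_mod_cast h3
      rw [if_pos h2, if_neg (by rw [h1]; exact lt_irrefl 0), h1]
      norm_num
    · rw [if_neg (not_lt.2 h1.le)]
      have h3 : (1 : ℝ) ≤ g X := by exact_mod_cast h1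
      have : (if f X + s = (symmDiff X Z).card then (0 : ℝ) else 1) ≤ 1 := by
        split_ifs <;> norm_num
      linarith
  have hn1' : (1 : ℝ) ≤ n := by exact_mod_cast hn1
  calc ∑ X ∈ (univ : Finset (Fin n)).powerset,
      (if f X + s = (symmDiff X Z).card then (0 : ℝ) else 1)
      ≤ ∑ X ∈ (univ : Finset (Fin n)).powerset,
        ((g X : ℝ) + (n + 1) * (if g X < 0 then (1 : ℝ) else 0)) :=
        Finset.sum_le_sum fun X _ => hpt X
    _ = ∑ X ∈ (univ : Finset (Fin n)).powerset, (g X : ℝ) +
        (n + 1) * ∑ X ∈ (univ : Finset (Fin n)).powerset, (if g X < 0 then (1 : ℝ) else 0) := by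
        rw [Finset.sum_add_distrib, Finset.mul_sum]
    _ ≤ 2 ^ n * (n * p) + (n + 1) * (n * (2 ^ n * (8 * n ^ 2 * p))) := by
        have : (0 : ℝ) ≤ (n : ℝ) + 1 := by positivity
        exact add_le_add hmean (mul_le_mul_of_nonneg_left hneg this)
    _ = 2 ^ n * ((n + 8 * n ^ 3 + 8 * n ^ 4) * p) := by ring
    _ ≤ 2 ^ n * (17 * n ^ 4 * p) := by
        have h3 : (n : ℝ) ≤ n ^ 4 := by
          calc (n : ℝ) = n ^ 1 := (pow_one _).symm
            _ ≤ n ^ 4 := pow_le_pow_right₀ hn1' (by norm_num)
        have h4 : (n : ℝ) ^ 3 ≤ n ^ 4 := pow_le_pow_right₀ hn1' (by norm_num)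
        apply mul_le_mul_of_nonneg_left _ (by positivity)
        apply mul_le_mul_of_nonneg_right _ hp0
        linarith

end DiamSqrt
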