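import Pool.Agent.DiamSqrt.LawDef

/-! The size of a pattern class (in/out at most two coordinates) of an antichain whose distance
function is almost everywhere the linear function of a set `Z`. -/

namespace DiamSqrt

open Finset DiamEven

variable {n : ℕ}

private lemma pow_eq (m : ℕ) : (2 : ℝ) ^ m = ∑ j ∈ range (m + 1), (m.choose j : ℝ) := by
  rw [← Nat.cast_sum, Nat.sum_range_choose]
  push_cast
  rfl

private lemma gg_zero (m : ℕ) : gg m 0 = 2 ^ m * ((m : ℝ) / 2) := by
  have h1 := gg_symm m 0
  rw [sub_zero] at h1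
  have h2 : gg m m + gg m 0 = m * 2 ^ m := by
    rw [pow_eq, Finset.mul_sum]
    unfold gg
    rw [← Finset.sum_add_distrib]
    apply Finset.sum_congr rfl
    intro j hj
    rw [mem_range] at hj
    have hj' : (j : ℝ) ≤ m := by exact_mod_cast (by omega : j ≤ m)
    rw [abs_of_nonpos (by linarith), abs_of_nonneg (by rw [sub_zero]; positivity)]
    ring
  linarith

private lemma sum_mul_choose (m : ℕ) :
    (2 : ℝ) ^ m * ((m : ℝ) / 2) = ∑ j ∈ range (m + 1), (m.choose j : ℝ) * j := by
  rw [← gg_zero]
  unfold gg
  apply Finset.sum_congr rfl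
  intro j _
  rw [abs_of_nonneg (by rw [sub_zero]; positivity), sub_zero]

private lemma gg_le (m a : ℕ) (t : ℝ) (h0 : 0 ≤ t) (h1 : t ≤ 1) (ham : a ≤ m) :
    gg m ((a : ℝ) + t) ≤ 2 ^ m * ((m : ℝ) / 2 - a - t) +
      2 * (a + 1) * ∑ j ∈ range (a + 1), (m.choose j : ℝ) := by
  have e3 : ∑ j ∈ range (a + 1), (m.choose j : ℝ) =
      ∑ j ∈ range (m + 1), (if j ∈ range (a + 1) then (m.choose j : ℝ) else 0) := by
    rw [Finset.sum_ite_mem]
    apply Finset.sum_congr _ (fun _ _ => rfl)
    ext j
    simp only [mem_inter, mem_range]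
    omega
  have e4 : (2 : ℝ) ^ m * ((m : ℝ) / 2 - a - t) =
      ∑ j ∈ range (m + 1), (m.choose j : ℝ) * ((j : ℝ) - a - t) := by
    have : (2 : ℝ) ^ m * ((m : ℝ) / 2 - a - t) = (2 : ℝ) ^ m * ((m : ℝ) / 2) - (a + t) * 2 ^ m := by
      ring
    rw [this, sum_mul_choose, pow_eq, Finset.mul_sum, ← Finset.sum_sub_distrib]
    apply Finset.sum_congr rfl
    intro j _
    ring
  rw [e3, e4, Finset.mul_sum, ← Finset.sum_add_distrib]
  unfold gg
  apply Finset.sum_le_sum
  intro j _
  have hc : (0 : ℝ) ≤ m.choose j := by positivity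
  by_cases hj : j ∈ range (a + 1)
  · rw [if_pos hj]
    rw [mem_range] at hj
    have hj' : (j : ℝ) ≤ a := by exact_mod_cast (by omega : j ≤ a)
    have hj0 : (0 : ℝ) ≤ j := by positivity
    rw [abs_of_nonpos (by linarith)]
    nlinarith
  · rw [if_neg hj]
    rw [mem_range] at hj
    have hj' : (a : ℝ) + 1 ≤ j := by exact_mod_cast (by omega : a + 1 ≤ j)
    rw [abs_of_nonneg (by linarith)]
    nlinarith

private lemma sum_symmDiff {α : Type*} [DecidableEq α] (S W : Finset α) (hW : W ⊆ S) :
    ∑ X ∈ S.powerset, ((symmDiff X W).card : ℝ) = 2 ^ S.card * ((S.card : ℝ) / 2) := by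
  rw [← gg_zero, ← sum_card_powerset]
  apply Finset.sum_nbij' (fun X => symmDiff X W) (fun X => symmDiff X W)
  · intro X hX
    rw [mem_powerset] at hX ⊢
    intro z hz
    rw [mem_symmDiff] at hz
    rcases hz with h | h
    · exact hX h.1
    · exact hW h.1
  · intro X hX
    rw [mem_powerset] at hX ⊢
    intro z hz
    rw [mem_symmDiff] at hz
    rcases hz with h | h
    · exact hX h.1
    · exact hW h.1
  · intro X _; exact symmDiff_symmDiff_cancel_right W X
  · intro X _; exact symmDiff_symmDiff_cancel_right W X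
  · intro X _; rfl

/-- the number of small subsets of a subset -/
private lemma low_le (S I : Finset (Fin n)) (hSI : Disjoint S I) (a : ℕ) :
    ∑ j ∈ range (a + 1), (S.card.choose j : ℝ) ≤
      ∑ j ∈ range (a + I.card + 1), (n.choose j : ℝ) := by
  have hsub : Finset.biUnion (range (a + 1)) (fun j => (S.powersetCard j).image (fun Y => Y ∪ I)) ⊆
      Finset.biUnion (range (a + I.card + 1))
        (fun j => (univ : Finset (Fin n)).powersetCard j) := by
    intro Y hY
    rw [mem_biUnion] at hY
    obtain ⟨j, hj, hY⟩ := hY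
    rw [mem_image] at hY
    obtain ⟨Y', hY', rfl⟩ := hY
    rw [mem_powersetCard] at hY'
    rw [mem_biUnion]
    rw [mem_range] at hj
    refine ⟨(Y' ∪ I).card, ?_, ?_⟩
    · rw [mem_range]
      have := card_union_le Y' I
      omega
    · rw [mem_powersetCard]
      exact ⟨subset_univ _, rfl⟩
  have hc := card_le_card hsub
  rw [card_biUnion, card_biUnion] at hc
  · have e1 : ∀ j ∈ range (a + 1),
        ((S.powersetCard j).image (fun Y => Y ∪ I)).card = S.card.choose j := by
      intro j _
      rw [card_image_of_injOn, card_powersetCard]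
      intro A hA B hB hAB
      rw [mem_coe, mem_powersetCard] at hA hB
      have hA' : Disjoint A I := disjoint_of_subset_left hA.1 hSI
      have hB' : Disjoint B I := disjoint_of_subset_left hB.1 hSI
      have h3 : (A ∪ I) \ I = (B ∪ I) \ I := by
        simp only at hAB
        rw [hAB]
      rw [union_sdiff_right, union_sdiff_right, sdiff_eq_self_of_disjoint hA',
        sdiff_eq_self_of_disjoint hB'] at h3
      exact h3
    have e2 : ∀ j ∈ range (a + I.card + 1),
        ((univ : Finset (Fin n)).powersetCard j).card = n.choose j := by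
      intro j _
      rw [card_powersetCard, card_univ, Fintype.card_fin]
    rw [Finset.sum_congr rfl e1, Finset.sum_congr rfl e2] at hc
    exact_mod_cast hc
  · intro i _ j _ hij
    rw [Function.onFun, disjoint_left]
    intro Y h1 h2
    rw [mem_powersetCard] at h1 h2
    exact hij (h1.2.symm.trans h2.2)
  · intro i _ j _ hij
    rw [Function.onFun, disjoint_left]
    intro Y h1 h2
    rw [mem_image] at h1 h2
    obtain ⟨A, hA, rfl⟩ := h1
    obtain ⟨B, hB, hAB⟩ := h2
    rw [mem_powersetCard] at hA hB
    have hA' : Disjoint A I := disjoint_of_subset_left hA.1 hSI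
    have hB' : Disjoint B I := disjoint_of_subset_left hB.1 hSI
    have h3 : (A ∪ I) \ I = (B ∪ I) \ I := by
      rw [hAB]
    rw [union_sdiff_right, union_sdiff_right, sdiff_eq_self_of_disjoint hA',
      sdiff_eq_self_of_disjoint hB'] at h3
    rw [h3] at hA
    exact hij (hA.2.symm.trans hB.2)

theorem pattern (s k : ℕ) (hn : n = 2 * s + k) (hk : 2 ≤ k) (F : Finset (Finset (Fin n)))
    (hF : IsAntichain (· ⊆ ·) (F : Set (Finset (Fin n)))) (f : Finset (Fin n) → ℕ)
    (hf : IsDist F f) (Z : Finset (Fin n)) (δ p : ℝ)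
    (hZ : ∑ X ∈ (univ : Finset (Fin n)).powerset,
      (if f X + s = (symmDiff X Z).card then (0 : ℝ) else 1) ≤ 2 ^ n * δ)
    (hp : ∑ j ∈ range (s + 1), (n.choose j : ℝ) ≤ p * 2 ^ n)
    (I O : Finset (Fin n)) (hIO : Disjoint I O) (hI : I.card ≤ s) (hq : I.card + O.card ≤ 2)
    (hO : O.card ≤ 1)
    (ht : 4 * (n * δ + 2 * (s + 1) * p) < 1) :
    ((F.filter (fun B => I ⊆ symmDiff B Z ∧ Disjoint O (symmDiff B Z))).card : ℝ) ≤
      (n - I.card - O.card).choose (s - I.card) +
        4 * (n * δ + 2 * (s + 1) * p) * (n - I.card - O.card).choose (s - I.card + 1) := by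
  classical
  set T : Finset (Fin n) := I ∪ O with hT
  set S : Finset (Fin n) := univ \ T with hS
  set P0 : Finset (Fin n) := (I \ Z) ∪ (O ∩ Z) with hP0
  set C := F.filter (fun B => I ⊆ symmDiff B Z ∧ Disjoint O (symmDiff B Z)) with hC
  set K : Finset (Finset (Fin n)) := C.image (fun B => B \ T) with hK
  have hP0T : P0 ⊆ T := by
    intro z hz
    rw [hP0, mem_union, mem_sdiff, mem_inter] at hz
    rw [hT, mem_union]
    rcases hz with h | h
    · exact Or.inl h.1
    · exact Or.inr h.1
  have hTcard : T.card = I.card + O.card := card_union_of_disjoint hIO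
  have hScard : S.card = n - I.card - O.card := by
    rw [hS, card_sdiff_of_subset (subset_univ _), card_univ, Fintype.card_fin, hTcard]
    omega
  have hSI : Disjoint S I := by
    rw [hS, hT]
    exact disjoint_sdiff_self_left.mono_right subset_union_left
  -- the trace
  have key : ∀ B ∈ C, (B \ T) ∪ P0 = B := by
    intro B hB
    rw [hC, mem_filter] at hB
    obtain ⟨-, h1, h2⟩ := hB
    ext z
    rw [mem_union, mem_sdiff, hT, hP0, mem_union, mem_union, mem_sdiff, mem_inter]
    have h1' : z ∈ I → ((z ∈ B ∧ z ∉ Z) ∨ (z ∈ Z ∧ z ∉ B)) := fun h => by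
      have := h1 h
      rwa [mem_symmDiff] at this
    have h2' : z ∈ O → ¬ ((z ∈ B ∧ z ∉ Z) ∨ (z ∈ Z ∧ z ∉ B)) := fun h h' => by
      rw [disjoint_left] at h2
      exact h2 h (by rw [mem_symmDiff]; exact h')
    tauto
  have hKcard : K.card = C.card := by
    rw [hK]
    apply card_image_of_injOn
    intro A hA B hB hAB
    simp only at hAB
    rw [← key A hA, ← key B hB, hAB]
  have hKS : ∀ B ∈ K, B ⊆ S := by
    intro B hB
    rw [hK, mem_image] at hB
    obtain ⟨A, _, rfl⟩ := hB
    exact sdiff_subset_sdiff (subset_univ _) le_rfl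
  have hKF : ∀ B ∈ K, B ∪ P0 ∈ F := by
    intro B hB
    rw [hK, mem_image] at hB
    obtain ⟨A, hA, rfl⟩ := hB
    rw [key A hA]
    rw [hC, mem_filter] at hA
    exact hA.1
  have hKanti : IsAntichain (· ⊆ ·) (K : Set (Finset (Fin n))) := by
    intro A hA B hB hne hsub
    rw [mem_coe] at hA hB
    have hd : ∀ D ∈ K, (D ∪ P0) \ T = D := by
      intro D hD
      have h1 := hKS D hD
      ext z
      rw [mem_sdiff, mem_union]
      constructor
      · rintro ⟨h | h, h3⟩
        · exact h
        · exact absurd (hP0T h) h3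
      · intro h
        have := h1 h
        rw [hS, mem_sdiff] at this
        exact ⟨Or.inl h, this.2⟩
    apply hF (hKF A hA) (hKF B hB) _ (union_subset_union hsub le_rfl)
    intro h
    apply hne
    rw [← hd A hA, ← hd B hB, h]
  -- numerical preliminaries
  set t3 : ℝ := 4 * (n * δ + 2 * (s + 1) * p) with ht3
  have hδ0 : 0 ≤ δ := by
    have h1 : (0 : ℝ) ≤ 2 ^ n * δ := le_trans (Finset.sum_nonneg (fun X _ => by
      split_ifs <;> norm_num)) hZ
    exact nonneg_of_mul_nonneg_right h1 (by positivity)
  have hp0 : 0 ≤ p := by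
    have h1 : (0 : ℝ) ≤ p * 2 ^ n := le_trans (Finset.sum_nonneg (fun X _ => by positivity)) hp
    exact nonneg_of_mul_nonneg_left h1 (by positivity)
  have ht30 : 0 ≤ t3 := by positivity
  set m := n - I.card - O.card with hm
  set a := s - I.card with ha
  have h2a : 2 * a + 1 ≤ m := by omega
  -- the bound for `t`
  have main : ∀ t : ℝ, 0 ≤ t → t ≤ 1 → (m.choose a : ℝ) + t * dd m (a + 1) ≤ K.card → t ≤ t3 := by
    intro t h0 h1 hcard
    obtain ⟨sel, hsel, hsum⟩ := selStat m S hScard K hKanti hKS a t h0 h1 h2a hcard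
    have hup := gg_le m a t h0 h1 (by omega)
    have hlow : ∑ j ∈ range (a + 1), (m.choose j : ℝ) ≤ p * 2 ^ n := by
      have h3 := low_le S I hSI a
      rw [hScard] at h3
      have h4 : a + I.card = s := by omega
      rw [h4] at h3
      exact h3.trans hp
    -- lower bound
    have hlb : ∀ X ∈ S.powerset, ((symmDiff X (Z ∩ S)).card : ℝ) + I.card - s -
        n * (if f (X ∪ P0) + s = (symmDiff (X ∪ P0) Z).card then (0 : ℝ) else 1) ≤
        ((symmDiff X (sel X)).card : ℝ) := by
      intro X hX
      rw [mem_powerset] at hX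
      have hX' : Disjoint X T := by
        rw [disjoint_left]
        intro z hz
        have := hX hz
        rw [hS, mem_sdiff] at this
        exact this.2
      have e1 : (symmDiff (X ∪ P0) Z).card = (symmDiff X (Z ∩ S)).card + I.card := by
        have e2 : symmDiff (X ∪ P0) Z = symmDiff X (Z ∩ S) ∪ I := by
          ext z
          have hzX : z ∈ X → z ∉ T := fun h => disjoint_left.1 hX' h
          have hIO' : z ∈ I → z ∉ O := fun h => disjoint_left.1 hIO h
          rw [hT, mem_union] at hzX
          simp only [mem_symmDiff, mem_union, mem_inter, hS, hT, hP0, mem_sdiff, mem_univ, true_and]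
          tauto
        rw [e2, card_union_of_disjoint]
        rw [disjoint_left]
        intro z hz hzI
        rw [mem_symmDiff] at hz
        have hzT : z ∈ T := by rw [hT, mem_union]; exact Or.inl hzI
        rcases hz with h | h
        · exact disjoint_left.1 hX' h.1 hzT
        · have := (mem_inter.1 h.1).2
          rw [hS, mem_sdiff] at this
          exact this.2 hzT
      have e3 : f (X ∪ P0) ≤ (symmDiff X (sel X)).card := by
        refine (hf.le (X ∪ P0) _ (hKF _ (hsel X hX))).trans (le_of_eq ?_)
        congr 1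
        have h4 := hKS _ (hsel X hX)
        ext z
        have h5 : z ∈ sel X → z ∉ T := fun h => by
          have := h4 h
          rw [hS, mem_sdiff] at this
          exact this.2
        have h6 : z ∈ X → z ∉ T := fun h => disjoint_left.1 hX' h
        have h7 : z ∈ P0 → z ∈ T := fun h => hP0T h
        simp only [mem_symmDiff, mem_union]
        tauto
      split_ifs with hif
      · rw [e1] at hif
        have h5 : ((f (X ∪ P0) : ℕ) : ℝ) + s = (symmDiff X (Z ∩ S)).card + I.card := by
          exact_mod_cast hif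
        have h6 : ((f (X ∪ P0) : ℕ) : ℝ) ≤ (symmDiff X (sel X)).card := by exact_mod_cast e3
        linarith
      · have h7 : ((symmDiff X (Z ∩ S)).card : ℝ) + I.card ≤ n := by
          have : (symmDiff (X ∪ P0) Z).card ≤ n := by
            have := card_le_univ (symmDiff (X ∪ P0) Z)
            rwa [Fintype.card_fin] at this
          rw [e1] at this
          exact_mod_cast this
        have h8 : (0 : ℝ) ≤ (symmDiff X (sel X)).card := by positivity
        have h9 : (0 : ℝ) ≤ s := by positivity
        linarith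
    have hexc : ∑ X ∈ S.powerset,
        (if f (X ∪ P0) + s = (symmDiff (X ∪ P0) Z).card then (0 : ℝ) else 1) ≤ 2 ^ n * δ := by
      refine le_trans ?_ hZ
      have hinj : Set.InjOn (fun X : Finset (Fin n) => X ∪ P0) (S.powerset : Set (Finset (Fin n))) := by
        intro A hA B hB hAB
        rw [mem_coe, mem_powerset] at hA hB
        simp only at hAB
        have hd : ∀ D : Finset (Fin n), D ⊆ S → (D ∪ P0) \ T = D := by
          intro D h1
          ext z
          rw [mem_sdiff, mem_union]
          constructor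
          · rintro ⟨h | h, h3⟩
            · exact h
            · exact absurd (hP0T h) h3
          · intro h
            have := h1 h
            rw [hS, mem_sdiff] at this
            exact ⟨Or.inl h, this.2⟩
        rw [← hd A hA, ← hd B hB, hAB]
      rw [← Finset.sum_image (f := fun Y => (if f Y + s = (symmDiff Y Z).card then (0 : ℝ) else 1))
        hinj]
      apply Finset.sum_le_sum_of_subset_of_nonneg
      · intro Y _
        exact mem_powerset.2 (subset_univ _)
      · intro Y _ _
        split_ifs <;> norm_num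
    have hs1 := Finset.sum_le_sum hlb
    rw [Finset.sum_sub_distrib, Finset.sum_sub_distrib, Finset.sum_add_distrib, sum_symmDiff S _
      inter_subset_right, Finset.sum_const, Finset.sum_const, card_powerset, ← Finset.mul_sum,
      hScard, nsmul_eq_mul, nsmul_eq_mul] at hs1
    push_cast at hs1
    have h2n : (2 : ℝ) ^ n ≤ 4 * 2 ^ m := by
      have : (4 : ℝ) * 2 ^ m = 2 ^ (m + 2) := by ring
      rw [this]
      exact pow_le_pow_right₀ (by norm_num) (by omega)
    have h2m : (0 : ℝ) < 2 ^ m := by positivity
    have hnn : (0 : ℝ) ≤ n := by positivity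
    have hexc' := mul_le_mul_of_nonneg_left hexc hnn
    have haR : (a : ℝ) = s - I.card := by
      rw [ha, Nat.cast_sub hI]
    have has : (a : ℝ) ≤ s := by
      exact_mod_cast (by omega : a ≤ s)
    have ha0 : (0 : ℝ) ≤ a := by positivity
    have hlow' := mul_le_mul_of_nonneg_left hlow (by positivity : (0 : ℝ) ≤ 2 * (a + 1))
    have h10 : 2 * ((a : ℝ) + 1) * (p * 2 ^ n) ≤ 2 * (s + 1) * p * 2 ^ n := by
      have : (0 : ℝ) ≤ p * 2 ^ n := by positivity
      nlinarith
    have h11 : t * 2 ^ m ≤ 2 ^ n * (n * δ + 2 * (s + 1) * p) := by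
      have e5 : (2 : ℝ) ^ m * ((m : ℝ) / 2 - a - t) =
        2 ^ m * ((m : ℝ) / 2) - 2 ^ m * a - t * 2 ^ m := by ring
      rw [e5, haR] at hup
      have e6 : (2 : ℝ) ^ m * (s - I.card : ℝ) = 2 ^ m * s - 2 ^ m * I.card := by ring
      rw [e6] at hup
      rw [haR] at hlow' h10 hsum
      nlinarith
    have h12 : 2 ^ n * (n * δ + 2 * (s + 1) * p) ≤ t3 * 2 ^ m := by
      have : 0 ≤ n * δ + 2 * (s + 1) * p := by positivity
      have := mul_le_mul_of_nonneg_right h2n this
      rw [ht3]
      linarith
    exact le_of_mul_le_mul_right (h11.trans h12) h2m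
  -- conclusion
  rw [← hKcard]
  by_contra hcon
  push Not at hcon
  have hdd : dd m (a + 1) = (m.choose (a + 1) : ℝ) - m.choose a := dd_succ m a
  have hc0 : (0 : ℝ) ≤ m.choose a := by positivity
  have hc1 : (0 : ℝ) ≤ m.choose (a + 1) := by positivity
  have hdd0 : 0 ≤ dd m (a + 1) := dd_nonneg m (a + 1) (by omega)
  rcases hdd0.eq_or_lt with h | h
  · have := main 1 zero_le_one le_rfl (by
      rw [← h, mul_zero, add_zero]
      have := mul_nonneg ht30 hc1
      linarith)
    linarith
  · set τ : ℝ := ((K.card : ℝ) - m.choose a) / dd m (a + 1) with hτ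
    have hτd : τ * dd m (a + 1) = (K.card : ℝ) - m.choose a := by
      rw [hτ, div_mul_cancel₀ _ h.ne']
    have hτ3 : t3 < τ := by
      rw [hτ, lt_div_iff₀ h]
      have h3 : t3 * dd m (a + 1) ≤ t3 * m.choose (a + 1) :=
        mul_le_mul_of_nonneg_left (by linarith) ht30
      linarith
    have := main (min 1 τ) (le_min zero_le_one (ht30.trans hτ3.le)) (min_le_left _ _) (by
      have h3 : min 1 τ * dd m (a + 1) ≤ τ * dd m (a + 1) :=
        mul_le_mul_of_nonneg_right (min_le_right _ _) h.le
      linarith)
    rcases min_le_iff.1 this with h3 | h3 <;> linarith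

end DiamSqrt
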