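import Pool.Agent.DiamSqrt.Defs

/-! The second moment of the size of the sets of the family, and the triviality of the centre. -/

namespace DiamSqrt

open Finset DiamEven

variable {n : ℕ}

/-- double counting of ordered pairs -/
private lemma sum_pairs (F : Finset (Finset (Fin n))) (φ : Finset (Fin n) → Finset (Fin n)) :
    ∑ B ∈ F, ((φ B).card : ℝ) * (((φ B).card : ℝ) - 1) =
      ∑ q ∈ (univ : Finset (Fin n)).offDiag,
        ((F.filter (fun B => q.1 ∈ φ B ∧ q.2 ∈ φ B)).card : ℝ) := by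
  have h1 : ∀ B ∈ F, ((φ B).card : ℝ) * (((φ B).card : ℝ) - 1) =
      ∑ q ∈ (univ : Finset (Fin n)).offDiag, (if q.1 ∈ φ B ∧ q.2 ∈ φ B then (1 : ℝ) else 0) := by
    intro B _
    rw [← sum_filter, sum_const, nsmul_eq_mul, mul_one]
    have h2 : (univ : Finset (Fin n)).offDiag.filter (fun q => q.1 ∈ φ B ∧ q.2 ∈ φ B) =
        (φ B).offDiag := by
      ext q
      simp only [mem_filter, mem_offDiag, mem_univ, true_and]
      tauto
    rw [h2, offDiag_card]
    have h3 : (φ B).card ≤ (φ B).card * (φ B).card := Nat.le_mul_self _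
    rw [Nat.cast_sub h3, Nat.cast_mul]
    ring
  rw [sum_congr rfl h1, sum_comm]
  refine sum_congr rfl fun q _ => ?_
  rw [← sum_filter, sum_const, nsmul_eq_mul, mul_one]

/-- double counting of elements -/
private lemma sum_elems (F : Finset (Finset (Fin n))) (φ : Finset (Fin n) → Finset (Fin n)) :
    ∑ B ∈ F, ((φ B).card : ℝ) =
      ∑ z : Fin n, ((F.card : ℝ) - ((F.filter (fun B => z ∉ φ B)).card : ℝ)) := by
  have h1 : ∀ B ∈ F, ((φ B).card : ℝ) = ∑ z : Fin n, (if z ∈ φ B then (1 : ℝ) else 0) := by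
    intro B _
    rw [← sum_filter, sum_const, nsmul_eq_mul, mul_one]
    congr 2
    ext x
    simp
  rw [sum_congr rfl h1, sum_comm]
  refine sum_congr rfl fun z _ => ?_
  rw [← sum_filter, sum_const, nsmul_eq_mul, mul_one]
  have h2 := card_filter_add_card_filter_not (s := F) (fun B => z ∈ φ B)
  have h3 : ((F.filter (fun B => z ∈ φ B)).card : ℝ) + (F.filter (fun B => z ∉ φ B)).card =
      F.card := by exact_mod_cast h2
  linarith

/-! C2 -/
theorem secondMoment (s k : ℕ) (hn : n = 2 * s + k) (hk : 2 ≤ k) (hs : 2 ≤ s)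
    (F : Finset (Finset (Fin n))) (Z : Finset (Fin n)) (t : ℝ) (ht : 0 ≤ t)
    (hc : n.choose s ≤ F.card)
    (h0 : ∀ z : Fin n, ((F.filter (fun B => z ∉ symmDiff B Z)).card : ℝ) ≤
      (n - 1).choose s + t * (n - 1).choose (s + 1))
    (h2 : ∀ y z : Fin n, y ≠ z →
      ((F.filter (fun B => y ∈ symmDiff B Z ∧ z ∈ symmDiff B Z)).card : ℝ) ≤
      (n - 2).choose (s - 2) + t * (n - 2).choose (s - 1)) :
    ((F.filter (fun B => (symmDiff B Z).card ≠ s)).card : ℝ) ≤ n ^ 3 * t * n.choose s := by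
  obtain ⟨a, rfl⟩ : ∃ a, s = a + 2 := ⟨s - 2, by omega⟩
  obtain ⟨m, rfl⟩ : ∃ m, n = m + 2 := ⟨n - 2, by omega⟩
  have e1 : m + 2 - 1 = m + 1 := rfl
  have e2 : m + 2 - 2 = m := rfl
  have e3 : a + 2 - 2 = a := rfl
  have e4 : a + 2 - 1 = a + 1 := rfl
  rw [e1] at h0
  rw [e2, e3, e4] at h2
  set M : ℝ := ((m + 2).choose (a + 2) : ℝ) with hM
  have hM0 : 0 ≤ M := Nat.cast_nonneg _
  -- numerical facts
  have f1 : ((m : ℝ) + 2) * (m + 1) * (m.choose a : ℝ) = ((a : ℝ) + 2) * (a + 1) * M := by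
    have g1 := Nat.add_one_mul_choose_eq (m + 1) (a + 1)
    have g2 := Nat.add_one_mul_choose_eq m a
    have g1' : ((m : ℝ) + 1 + 1) * ((m + 1).choose (a + 1) : ℝ) = M * ((a : ℝ) + 1 + 1) := by
      rw [hM]; exact_mod_cast g1
    have g2' : ((m : ℝ) + 1) * (m.choose a : ℝ) = ((m + 1).choose (a + 1) : ℝ) * ((a : ℝ) + 1) := by
      exact_mod_cast g2
    have : ((m : ℝ) + 2) * (m + 1) * (m.choose a : ℝ) =
        ((m : ℝ) + 1 + 1) * ((m + 1).choose (a + 1) : ℝ) * ((a : ℝ) + 1) := by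
      rw [mul_assoc, g2']; ring
    rw [this, g1']; ring
  have f2 : ((m : ℝ) + 2) * (M - ((m + 1).choose (a + 2) : ℝ)) = ((a : ℝ) + 2) * M := by
    have g1 := Nat.add_one_mul_choose_eq (m + 1) (a + 1)
    have g1' : ((m : ℝ) + 1 + 1) * ((m + 1).choose (a + 1) : ℝ) = M * ((a : ℝ) + 1 + 1) := by
      rw [hM]; exact_mod_cast g1
    have g2 : M = ((m + 1).choose (a + 1) : ℝ) + ((m + 1).choose (a + 2) : ℝ) := by
      rw [hM, Nat.choose_succ_succ]; push_cast; ring
    have g3 : M - ((m + 1).choose (a + 2) : ℝ) = ((m + 1).choose (a + 1) : ℝ) := by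
      rw [g2]; ring
    rw [g3]
    linarith
  have f3 : (m.choose (a + 1) : ℝ) ≤ M := by
    rw [hM]
    have : m.choose (a + 1) ≤ (m + 2).choose (a + 2) :=
      (Nat.choose_le_choose _ (by omega : m ≤ m + 1)).trans
        (by rw [Nat.choose_succ_succ (m + 1) (a + 1)]; omega)
    exact_mod_cast this
  have f4 : ((m + 1).choose (a + 3) : ℝ) ≤ ((m : ℝ) + 2) * M := by
    have g1 := Nat.choose_succ_right_eq (m + 2) (a + 2)
    have g2 : (m + 2).choose (a + 3) ≤ (m + 2).choose (a + 3) * (a + 2 + 1) :=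
      Nat.le_mul_of_pos_right _ (by omega)
    have g3 : (m + 2).choose (a + 2) * (m + 2 - (a + 2)) ≤ (m + 2).choose (a + 2) * (m + 2) :=
      Nat.mul_le_mul_left _ (by omega)
    have g4 : (m + 1).choose (a + 3) ≤ (m + 2).choose (a + 3) :=
      Nat.choose_le_choose _ (by omega)
    have g5 : (m + 1).choose (a + 3) ≤ (m + 2) * (m + 2).choose (a + 2) := by
      rw [mul_comm (m + 2)]
      exact g4.trans (g2.trans (g1.le.trans g3))
    rw [hM]
    exact_mod_cast g5
  -- the two sums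
  have s1 : ∑ B ∈ F, ((symmDiff B Z).card : ℝ) * (((symmDiff B Z).card : ℝ) - 1) ≤
      ((m : ℝ) + 2) * (m + 1) * ((m.choose a : ℝ) + t * m.choose (a + 1)) := by
    rw [sum_pairs F (fun B => symmDiff B Z)]
    refine (sum_le_sum fun q hq => h2 q.1 q.2 (mem_offDiag.1 hq).2.2).trans ?_
    rw [sum_const, nsmul_eq_mul, offDiag_card, card_univ, Fintype.card_fin]
    apply le_of_eq
    congr 1
    have : (m + 2) * (m + 2) - (m + 2) = (m + 2) * (m + 1) := by
      have : (m + 2) * (m + 2) = (m + 2) * (m + 1) + (m + 2) := by ring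
      omega
    rw [this]
    push_cast
    ring
  have s2 : ((m : ℝ) + 2) * ((F.card : ℝ) -
      (((m + 1).choose (a + 2) : ℝ) + t * (m + 1).choose (a + 2 + 1))) ≤
      ∑ B ∈ F, ((symmDiff B Z).card : ℝ) := by
    rw [sum_elems F (fun B => symmDiff B Z)]
    have : ((m : ℝ) + 2) * ((F.card : ℝ) -
        (((m + 1).choose (a + 2) : ℝ) + t * (m + 1).choose (a + 2 + 1))) =
        ∑ _z : Fin (m + 2), ((F.card : ℝ) -
        (((m + 1).choose (a + 2) : ℝ) + t * (m + 1).choose (a + 2 + 1))) := by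
      rw [sum_const, nsmul_eq_mul, card_univ, Fintype.card_fin]
      push_cast
      ring
    rw [this]
    exact sum_le_sum fun z _ => sub_le_sub_left (h0 z) _
  -- indicator bounded by the square
  have s3 : ((F.filter (fun B => (symmDiff B Z).card ≠ a + 2)).card : ℝ) ≤
      ∑ B ∈ F, (((symmDiff B Z).card : ℝ) - (a + 2)) ^ 2 := by
    rw [card_eq_sum_ones, sum_filter, Nat.cast_sum]
    refine sum_le_sum fun B _ => ?_
    split_ifs with h
    · have h' : ((symmDiff B Z).card : ℤ) - (a + 2) ≠ 0 := by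
        intro h''
        apply h
        have : ((symmDiff B Z).card : ℤ) = ((a + 2 : ℕ) : ℤ) := by push_cast; linarith
        exact_mod_cast this
      have h3 : (1 : ℤ) ≤ (((symmDiff B Z).card : ℤ) - (a + 2)) ^ 2 := by
        have := sq_pos_of_ne_zero h'
        omega
      have h4 : (1 : ℝ) ≤ (((symmDiff B Z).card : ℝ) - (a + 2)) ^ 2 := by exact_mod_cast h3
      simpa using h4
    · simp only [Nat.cast_zero]
      positivity
  have s4 : ∑ B ∈ F, (((symmDiff B Z).card : ℝ) - (a + 2)) ^ 2 =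
      ∑ B ∈ F, ((symmDiff B Z).card : ℝ) * (((symmDiff B Z).card : ℝ) - 1) -
      (2 * a + 3) * ∑ B ∈ F, ((symmDiff B Z).card : ℝ) + (a + 2) ^ 2 * F.card := by
    rw [mul_sum, ← sum_sub_distrib]
    have : ((a : ℝ) + 2) ^ 2 * F.card = ∑ _B ∈ F, ((a : ℝ) + 2) ^ 2 := by
      rw [sum_const, nsmul_eq_mul]; ring
    rw [this, ← sum_add_distrib]
    refine sum_congr rfl fun B _ => ?_
    ring
  refine s3.trans ?_
  rw [s4]
  have hcR : M ≤ (F.card : ℝ) := by rw [hM]; exact_mod_cast hc
  have hma : (2 : ℝ) * a + 4 ≤ m := by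
    have : 2 * a + 4 ≤ m := by omega
    exact_mod_cast this
  have ha0 : (0 : ℝ) ≤ a := Nat.cast_nonneg _
  have hm0 : (0 : ℝ) ≤ m := Nat.cast_nonneg _
  set Φ : ℝ := (F.card : ℝ) with hΦ
  set C1 : ℝ := ((m + 1).choose (a + 2) : ℝ) with hC1
  set C2 : ℝ := (m.choose a : ℝ) with hC2
  set C3 : ℝ := (m.choose (a + 1) : ℝ) with hC3
  set C4 : ℝ := ((m + 1).choose (a + 2 + 1) : ℝ) with hC4
  set S1 : ℝ := ∑ B ∈ F, ((symmDiff B Z).card : ℝ) * (((symmDiff B Z).card : ℝ) - 1) with hS1
  set S2 : ℝ := ∑ B ∈ F, ((symmDiff B Z).card : ℝ) with hS2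
  have f4' : C4 ≤ ((m : ℝ) + 2) * M := f4
  -- bound
  have b1 : S1 ≤ ((a : ℝ) + 2) * (a + 1) * M + ((m : ℝ) + 2) * (m + 1) * (t * M) := by
    have h1 := mul_le_mul_of_nonneg_left f3 ht
    have h2 := mul_le_mul_of_nonneg_left h1 (by positivity : (0 : ℝ) ≤ ((m : ℝ) + 2) * (m + 1))
    linarith [s1, f1]
  have b2 : ((a : ℝ) + 2) * M + ((m : ℝ) + 2) * (Φ - M) - ((m : ℝ) + 2) * (t * (((m : ℝ) + 2) * M))
      ≤ S2 := by
    have h1 := mul_le_mul_of_nonneg_left f4' ht
    have h2 := mul_le_mul_of_nonneg_left h1 (by positivity : (0 : ℝ) ≤ (m : ℝ) + 2)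
    linarith [s2, f2]
  have b3 : (2 * (a : ℝ) + 3) * (((a : ℝ) + 2) * M + ((m : ℝ) + 2) * (Φ - M) -
      ((m : ℝ) + 2) * (t * (((m : ℝ) + 2) * M))) ≤ (2 * a + 3) * S2 :=
    mul_le_mul_of_nonneg_left b2 (by positivity)
  have b4 : 0 ≤ (Φ - M) * ((2 * (a : ℝ) + 3) * (m + 2) - (a + 2) ^ 2) := by
    apply mul_nonneg (by linarith)
    nlinarith
  have b5 : 0 ≤ t * M * (((m : ℝ) + 2) ^ 3 - ((m : ℝ) + 2) * (m + 1) -
      (2 * a + 3) * ((m : ℝ) + 2) ^ 2) := by
    apply mul_nonneg (by positivity)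
    have : ((m : ℝ) + 2) ^ 3 - ((m : ℝ) + 2) * (m + 1) - (2 * a + 3) * ((m : ℝ) + 2) ^ 2 =
        ((m : ℝ) + 2) * ((m + 2) ^ 2 - (m + 1) - (2 * a + 3) * (m + 2)) := by ring
    rw [this]
    apply mul_nonneg (by positivity)
    nlinarith
  push_cast
  nlinarith [b1, b3, b4, b5]

/-! C3 -/
theorem Ztriv (s : ℕ) (hs : 1 ≤ s) (hsn : s < n) (F : Finset (Finset (Fin n)))
    (hF : IsAntichain (· ⊆ ·) (F : Set (Finset (Fin n)))) (hc : n.choose s < F.card)
    (Z : Finset (Fin n))
    (h : ((F.filter (fun B => (symmDiff B Z).card ≠ s)).card : ℝ) * n ≤ n.choose s) :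
    Z = ∅ ∨ Z = univ := by
  by_contra hcon
  push Not at hcon
  obtain ⟨hZ0, hZ1⟩ := hcon
  obtain ⟨z, hz⟩ := hZ0
  obtain ⟨y, hy⟩ : ∃ y, y ∉ Z := by
    by_contra hcon
    push Not at hcon
    exact hZ1 (eq_univ_iff_forall.2 hcon)
  have hyz : y ≠ z := fun h => hy (h ▸ hz)
  set A : Finset (Finset (Fin n)) := (F.filter (fun B => (symmDiff B Z).card = s)).image
    (fun B => symmDiff B Z) with hA
  have hAc : A.card = (F.filter (fun B => (symmDiff B Z).card = s)).card :=
    card_image_of_injective _ (symmDiff_left_injective Z)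
  set 𝒯 : Finset (Finset (Fin n)) :=
    ((univ.erase z).erase y).powersetCard (s - 1) |>.image (insert z) with hT
  have hTc : 𝒯.card = (n - 2).choose (s - 1) := by
    rw [hT, card_image_of_injOn, card_powersetCard, card_erase_of_mem, card_erase_of_mem,
      card_univ, Fintype.card_fin]
    · rfl
    · exact mem_univ _
    · exact mem_erase.2 ⟨hyz, mem_univ _⟩
    · intro T hT' T' hT'' hTT
      have h1 : z ∉ T := by
        have := (mem_powersetCard.1 (mem_coe.1 hT')).1
        intro h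
        have := this h
        simp at this
      have h2 : z ∉ T' := by
        have := (mem_powersetCard.1 (mem_coe.1 hT'')).1
        intro h
        have := this h
        simp at this
      have h3 := congrArg (fun X => X.erase z) hTT
      simpa [erase_insert h1, erase_insert h2] using h3
  have hTm : ∀ T ∈ 𝒯, T.card = s ∧ z ∈ T ∧ y ∉ T := by
    intro T hT'
    rw [hT, mem_image] at hT'
    obtain ⟨U, hU, rfl⟩ := hT'
    rw [mem_powersetCard] at hU
    have h1 : z ∉ U := fun h => by simpa using hU.1 h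
    have h2 : y ∉ U := fun h => by simpa using hU.1 h
    refine ⟨?_, mem_insert_self _ _, ?_⟩
    · rw [card_insert_of_notMem h1, hU.2]; omega
    · rw [mem_insert, not_or]; exact ⟨hyz, h2⟩
  -- the exchange
  set T' : Finset (Fin n) → Finset (Fin n) := fun T => insert y (T.erase z) with hT'def
  have hkey : ∀ T ∈ 𝒯, T ∈ A → T' T ∉ A := by
    intro T hT1 hTA hTA'
    obtain ⟨_, hzT, hyT⟩ := hTm T hT1
    rw [hA, mem_image] at hTA hTA'
    obtain ⟨B, hB, hBT⟩ := hTA
    obtain ⟨B', hB', hBT'⟩ := hTA'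
    rw [mem_filter] at hB hB'
    have h1 : B = symmDiff T Z := by rw [← hBT, symmDiff_symmDiff_cancel_right]
    have h2 : B' = symmDiff (T' T) Z := by rw [← hBT', symmDiff_symmDiff_cancel_right]
    have h3 : B ⊆ B' := by
      intro x hx
      rw [h1, mem_symmDiff] at hx
      rw [h2, mem_symmDiff, hT'def]
      simp only [mem_insert, mem_erase]
      rcases hx with ⟨hx1, hx2⟩ | ⟨hx1, hx2⟩
      · left
        refine ⟨Or.inr ⟨fun h => hx2 (h ▸ hz), hx1⟩, hx2⟩
      · right
        refine ⟨hx1, ?_⟩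
        rintro (h | h)
        · exact hy (h ▸ hx1)
        · exact hx2 h.2
    have h4 : B ≠ B' := by
      intro h5
      have h6 : y ∈ B' := by
        rw [h2, mem_symmDiff]
        left
        exact ⟨mem_insert_self _ _, hy⟩
      rw [← h5, h1, mem_symmDiff] at h6
      rcases h6 with ⟨h6, _⟩ | ⟨h6, _⟩
      · exact hyT h6
      · exact hy h6
    exact hF (mem_coe.2 hB.1) (mem_coe.2 hB'.1) h4 h3
  have hcount : A.card + 𝒯.card ≤ n.choose s := by
    classical
    set g : Finset (Fin n) → Finset (Fin n) := fun T => if T ∈ A then T' T else T with hg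
    have h1 : (𝒯.image g).card = 𝒯.card := by
      apply card_image_of_injOn
      intro T₁ h₁ T₂ h₂ h12
      obtain ⟨_, hz1, hy1⟩ := hTm T₁ (mem_coe.1 h₁)
      obtain ⟨_, hz2, hy2⟩ := hTm T₂ (mem_coe.1 h₂)
      simp only [hg] at h12
      split_ifs at h12 with c1 c2 c2
      · -- both exchanged
        simp only [hT'def] at h12
        ext x
        by_cases hx : x = z
        · subst hx; exact ⟨fun _ => hz2, fun _ => hz1⟩
        by_cases hx' : x = y
        · subst hx'; exact ⟨fun h => absurd h hy1, fun h => absurd h hy2⟩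
        have := congrArg (fun X => x ∈ X) h12
        simpa [mem_insert, mem_erase, hx, hx'] using this
      · exfalso
        rw [← h12] at hy2
        exact hy2 (mem_insert_self _ _)
      · exfalso
        rw [h12] at hy1
        exact hy1 (mem_insert_self _ _)
      · exact h12
    have h2 : Disjoint A (𝒯.image g) := by
      rw [disjoint_left]
      intro U hU hU'
      rw [mem_image] at hU'
      obtain ⟨T, hT1, rfl⟩ := hU'
      simp only [hg] at hU
      split_ifs at hU with c1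
      · exact hkey T hT1 c1 hU
      · exact c1 hU
    have h3 : A ∪ 𝒯.image g ⊆ (univ : Finset (Fin n)).powersetCard s := by
      intro U hU
      rw [mem_powersetCard]
      refine ⟨subset_univ _, ?_⟩
      rw [mem_union] at hU
      rcases hU with hU | hU
      · rw [hA, mem_image] at hU
        obtain ⟨B, hB, rfl⟩ := hU
        exact (mem_filter.1 hB).2
      · rw [mem_image] at hU
        obtain ⟨T, hT1, rfl⟩ := hU
        obtain ⟨hc1, hz1, hy1⟩ := hTm T hT1
        simp only [hg]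
        split_ifs with c1
        · simp only [hT'def]
          rw [card_insert_of_notMem (fun h => hy1 (mem_of_mem_erase h)), card_erase_of_mem hz1, hc1]
          omega
        · exact hc1
    have h4 := card_le_card h3
    rw [card_union_of_disjoint h2, h1, card_powersetCard, card_univ, Fintype.card_fin] at h4
    exact h4
  -- numerical contradiction
  obtain ⟨a, rfl⟩ : ∃ a, s = a + 1 := ⟨s - 1, by omega⟩
  obtain ⟨m, rfl⟩ : ∃ m, n = m + 2 := ⟨n - 2, by omega⟩
  have e1 : m + 2 - 2 = m := rfl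
  have e2 : a + 1 - 1 = a := rfl
  rw [hTc, e1, e2, hAc] at hcount
  have hsplit := card_filter_add_card_filter_not (s := F) (fun B => (symmDiff B Z).card = a + 1)
  have hnum : (m + 2).choose (a + 1) ≤ (m + 2) * m.choose a := by
    have g1 := Nat.add_one_mul_choose_eq (m + 1) a
    have g2 := Nat.choose_mul_succ_eq m a
    have g3 : (m + 1) * m.choose a = (m + 1).choose a * (m + 1 - a) := by
      rw [mul_comm]; exact g2
    have g4 : m + 1 ≤ (m + 1 - a) * (a + 1) := by
      obtain ⟨c, hc'⟩ : ∃ c, m = a + c := ⟨m - a, by omega⟩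
      subst hc'
      have : a + c + 1 - a = c + 1 := by omega
      rw [this]
      nlinarith
    -- (m+1) * C(m+2,a+1) ≤ (m+1)*(m+2)*C(m,a)
    have g5 : (m + 1) * (m + 2).choose (a + 1) ≤ (m + 1) * ((m + 2) * m.choose a) := by
      calc (m + 1) * (m + 2).choose (a + 1)
          ≤ (m + 1 - a) * (a + 1) * (m + 2).choose (a + 1) := Nat.mul_le_mul_right _ g4
        _ = (m + 1 - a) * ((m + 2).choose (a + 1) * (a + 1)) := by ring
        _ = (m + 1 - a) * ((m + 2) * (m + 1).choose a) := by rw [← g1]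
        _ = (m + 2) * ((m + 1).choose a * (m + 1 - a)) := by ring
        _ = (m + 2) * ((m + 1) * m.choose a) := by rw [g3]
        _ = (m + 1) * ((m + 2) * m.choose a) := by ring
    exact Nat.le_of_mul_le_mul_left g5 (by omega)
  have h' : (F.filter (fun B => (symmDiff B Z).card ≠ a + 1)).card * (m + 2) ≤
      (m + 2).choose (a + 1) := by exact_mod_cast h
  set N : ℕ := (F.filter (fun B => (symmDiff B Z).card = a + 1)).card
  have hsplit' : N + (F.filter (fun B => (symmDiff B Z).card ≠ a + 1)).card = F.card := hsplit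
  nlinarith

end DiamSqrt
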