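import Pool.Agent.DiamSqrt.LawDef

/-! The case `Z = ∅` from the eta theorem (a hypothesis of `zeroCase_of_eta`, discharged where the
eta theorem is available), and the binomial tail bound. -/

namespace DiamSqrt

open Finset DiamEven

variable {n : ℕ}

private lemma choose_le_of_half {n : ℕ} {r s : ℕ} (hrs : r ≤ s) (hs : 2 * s ≤ n) :
    n.choose r ≤ n.choose s := by
  induction s, hrs using Nat.le_induction with
  | base => exact le_rfl
  | succ k hk ih =>
    exact (ih (by omega)).trans (Nat.choose_le_succ_of_lt_half_left (by omega))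

private lemma card_le_of_small {s : ℕ} (hsn : 2 * s ≤ n) (H : Finset (Finset (Fin n)))
    (hH : IsAntichain (· ⊆ ·) (H : Set (Finset (Fin n)))) (hs : ∀ A ∈ H, A.card ≤ s) :
    H.card ≤ n.choose s := by
  have h := lubell_yamamoto_meshalkin_inequality_sum_inv_choose (𝕜 := ℝ) hH
  rw [Fintype.card_fin] at h
  have hpos : (0 : ℝ) < n.choose s := by exact_mod_cast Nat.choose_pos (by omega)
  have h1 : ∑ A ∈ H, ((n.choose s : ℝ))⁻¹ ≤ ∑ A ∈ H, ((n.choose A.card : ℝ))⁻¹ := by
    apply Finset.sum_le_sum
    intro A hA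
    have h2 := hs A hA
    apply inv_anti₀
    · exact_mod_cast Nat.choose_pos (by omega)
    · exact_mod_cast choose_le_of_half h2 hsn
  rw [sum_const, nsmul_eq_mul] at h1
  have h3 := h1.trans h
  rw [← div_eq_mul_inv, div_le_one hpos] at h3
  exact_mod_cast h3

private lemma shad_ne {s : ℕ} {Q : Finset (Finset (Fin n))} (hQ : Q.Nonempty)
    (h : ∀ B ∈ Q, s ≤ B.card) : (shad s Q).Nonempty := by
  obtain ⟨B, hB⟩ := hQ
  obtain ⟨T, hT, hTc⟩ := exists_subset_card_eq (h B hB)
  exact ⟨T, mem_shad.2 ⟨B, hB, hT, hTc⟩⟩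

theorem zeroCase_of_eta (s : ℕ) (hs : 1 ≤ s) (hsn : 2 * s ≤ n) (F : Finset (Finset (Fin n)))
    (hF : IsAntichain (· ⊆ ·) (F : Set (Finset (Fin n)))) (f : Finset (Fin n) → ℕ)
    (hf : IsDist F f) (δ β : ℝ) (hβ0 : 0 ≤ β)
    (Heta : ∀ Q : Finset (Finset (Fin n)), Q.Nonempty →
      IsAntichain (· ⊆ ·) (Q : Set (Finset (Fin n))) → (∀ B ∈ Q, s + 1 ≤ B.card) →
      β * (gfun s ((Q.card : ℝ) / (shad s Q).card) / s) * 2 ^ n ≤ cnt univ Q s)
    (hδ : δ < β / s)
    (hZ : ∑ X ∈ (univ : Finset (Fin n)).powerset,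
      (if f X + s = X.card then (0 : ℝ) else 1) ≤ 2 ^ n * δ) :
    F.card ≤ n.choose s := by
  classical
  set Q := F.filter (fun B => s + 1 ≤ B.card) with hQ
  set L := F.filter (fun B => ¬ s + 1 ≤ B.card) with hL
  have hcard : F.card = Q.card + L.card := (card_filter_add_card_filter_not _).symm
  have hsR : (0 : ℝ) < s := by exact_mod_cast hs
  have h2n : (0 : ℝ) < 2 ^ n := by positivity
  rcases Q.eq_empty_or_nonempty with hQe | hQne
  · rw [hcard, hQe, card_empty, zero_add]
    apply card_le_of_small hsn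
    · exact hF.subset (by intro A hA; exact (mem_filter.1 hA).1)
    · intro A hA
      have := (mem_filter.1 hA).2
      omega
  · have hQF : ∀ B ∈ Q, B ∈ F := fun B hB => (mem_filter.1 hB).1
    have hQc : ∀ B ∈ Q, s + 1 ≤ B.card := fun B hB => (mem_filter.1 hB).2
    have hLc : ∀ B ∈ L, B.card ≤ s := fun B hB => by
      have := (mem_filter.1 hB).2
      omega
    have hQa : IsAntichain (· ⊆ ·) (Q : Set (Finset (Fin n))) :=
      hF.subset (fun A hA => hQF A hA)
    have heta := Heta Q hQne hQa hQc
    have hcnt : cnt (univ : Finset (Fin n)) Q s ≤ 2 ^ n * δ := by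
      refine le_trans ?_ hZ
      unfold cnt
      apply Finset.sum_le_sum
      intro X _
      by_cases h : ∃ B ∈ Q, B.card + s + 1 ≤ 2 * (B ∩ X).card
      · rw [if_pos h]
        obtain ⟨B, hB, hBX⟩ := h
        have h1 := hf.le X B (hQF B hB)
        have h2 : (symmDiff X B).card + 2 * (B ∩ X).card = X.card + B.card := by
          have e1 : (symmDiff X B).card = (X \ B).card + (B \ X).card := by
            rw [symmDiff_def, sup_eq_union, card_union_of_disjoint]
            exact disjoint_sdiff_sdiff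
          have e2 := card_sdiff_add_card_inter X B
          have e3 := card_sdiff_add_card_inter B X
          rw [inter_comm X B] at e2
          omega
        rw [if_neg (by omega)]
      · rw [if_neg h]
        split_ifs <;> norm_num
    have hg : gfun s ((Q.card : ℝ) / (shad s Q).card) < 1 := by
      by_contra hcon
      push Not at hcon
      have h1 : β / s ≤ β * (gfun s ((Q.card : ℝ) / (shad s Q).card) / s) := by
        rw [div_eq_mul_inv, div_eq_mul_inv]
        apply mul_le_mul_of_nonneg_left _ hβ0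
        have : 0 ≤ (s : ℝ)⁻¹ := by positivity
        nlinarith
      have h2 : β / s * 2 ^ n ≤ 2 ^ n * δ :=
        (mul_le_mul_of_nonneg_right h1 h2n.le).trans (heta.trans hcnt)
      nlinarith
    have hshne : (shad s Q).Nonempty :=
      shad_ne hQne (fun B hB => by have := hQc B hB; omega)
    have hshpos : (0 : ℝ) < (shad s Q).card := by exact_mod_cast hshne.card_pos
    have hlt : Q.card < (shad s Q).card := by
      by_contra hcon
      push Not at hcon
      have h1 : (1 : ℝ) ≤ (Q.card : ℝ) / (shad s Q).card := by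
        rw [one_le_div hshpos]
        exact_mod_cast hcon
      unfold gfun at hg
      rw [if_pos h1] at hg
      have := Real.log_nonneg h1
      have : 0 ≤ ((s : ℝ) + 1) * Real.log ((Q.card : ℝ) / (shad s Q).card) := by positivity
      linarith
    have hdisj : Disjoint L (shad s Q) := by
      rw [disjoint_left]
      intro A hA hA2
      obtain ⟨B, hB, hAB, _⟩ := mem_shad.1 hA2
      have h1 := hLc A hA
      have h2 := hQc B hB
      exact hF (mem_filter.1 hA).1 (hQF B hB) (fun h => by subst h; omega) hAB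
    have hH : (L ∪ shad s Q).card ≤ n.choose s := by
      apply card_le_of_small hsn
      · intro A hA A' hA' hne hsub
        rw [mem_coe, mem_union] at hA hA'
        rcases hA with hA | hA
        · rcases hA' with hA' | hA'
          · exact hF (mem_filter.1 hA).1 (mem_filter.1 hA').1 hne hsub
          · obtain ⟨B, hB, hAB, _⟩ := mem_shad.1 hA'
            have h1 := hLc A hA
            have h2 := hQc B hB
            exact hF (mem_filter.1 hA).1 (hQF B hB) (fun h => by subst h; omega)
              (hsub.trans hAB)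
        · obtain ⟨B, hB, hAB, hAc⟩ := mem_shad.1 hA
          have hA's : A'.card ≤ s := by
            rcases hA' with hA' | hA'
            · exact hLc A' hA'
            · obtain ⟨_, _, _, h⟩ := mem_shad.1 hA'
              omega
          exact hne (eq_of_subset_of_card_le hsub (by omega))
      · intro A hA
        rcases mem_union.1 hA with hA | hA
        · exact hLc A hA
        · obtain ⟨_, _, _, h⟩ := mem_shad.1 hA
          omega
    rw [card_union_of_disjoint hdisj] at hH
    omega

theorem tailp (s k : ℕ) (hn : n = 2 * s + k) (hk : 1 ≤ k) :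
    ∑ j ∈ range (s + 1), (n.choose j : ℝ) ≤ Real.exp (-((k : ℝ) ^ 2 / (2 * n))) * 2 ^ n := by
  have hnR : (0 : ℝ) < n := by exact_mod_cast (by omega : 0 < n)
  have hnk : (n : ℝ) = 2 * s + k := by exact_mod_cast hn
  set lam : ℝ := 2 * k / n with hlam
  have hkR : (0 : ℝ) < k := by exact_mod_cast hk
  have hl : 0 < lam := by positivity
  have h1 : ∑ j ∈ range (s + 1), (n.choose j : ℝ) ≤
      Real.exp (lam * s) * ∑ j ∈ range (n + 1), (n.choose j : ℝ) * Real.exp (-lam) ^ j := by
    rw [Finset.mul_sum]
    refine le_trans ?_ (Finset.sum_le_sum_of_subset_of_nonneg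
      (range_subset_range.2 (by omega : s + 1 ≤ n + 1)) (fun _ _ _ => by positivity))
    apply Finset.sum_le_sum
    intro j hj
    rw [mem_range] at hj
    have hjs : (j : ℝ) ≤ s := by exact_mod_cast (by omega : j ≤ s)
    have h2 : (1 : ℝ) ≤ Real.exp (lam * s) * Real.exp (-lam) ^ j := by
      rw [← Real.exp_nat_mul, ← Real.exp_add]
      apply Real.one_le_exp
      nlinarith
    have h3 : (0 : ℝ) ≤ n.choose j := by positivity
    calc (n.choose j : ℝ) = n.choose j * 1 := (mul_one _).symm
      _ ≤ n.choose j * (Real.exp (lam * s) * Real.exp (-lam) ^ j) :=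
        mul_le_mul_of_nonneg_left h2 h3
      _ = _ := by ring
  have h5 : ∑ j ∈ range (n + 1), (n.choose j : ℝ) * Real.exp (-lam) ^ j =
      (1 + Real.exp (-lam)) ^ n := by
    rw [add_comm (1 : ℝ), add_pow]
    apply Finset.sum_congr rfl
    intro j _
    rw [one_pow]
    ring
  have h6 : 1 + Real.exp (-lam) ≤ 2 * Real.exp (-(lam / 2) + lam ^ 2 / 8) := by
    have hc := Real.cosh_le_exp_half_sq (lam / 2)
    rw [Real.cosh_eq] at hc
    have h7 : 1 + Real.exp (-lam) = Real.exp (-(lam / 2)) *
        (Real.exp (lam / 2) + Real.exp (-(lam / 2))) := by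
      rw [mul_add, ← Real.exp_add, ← Real.exp_add]
      rw [show -(lam / 2) + lam / 2 = 0 by ring, Real.exp_zero,
        show -(lam / 2) + -(lam / 2) = -lam by ring]
    rw [h7, Real.exp_add]
    have h8 : Real.exp (lam / 2) + Real.exp (-(lam / 2)) ≤ 2 * Real.exp (lam ^ 2 / 8) := by
      have : (lam / 2) ^ 2 / 2 = lam ^ 2 / 8 := by ring
      rw [this] at hc
      linarith
    have h9 := mul_le_mul_of_nonneg_left h8 (Real.exp_pos (-(lam / 2))).le
    linarith
  have h10 : (1 + Real.exp (-lam)) ^ n ≤ 2 ^ n * Real.exp (n * (-(lam / 2) + lam ^ 2 / 8)) := by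
    have h0 : 0 ≤ 1 + Real.exp (-lam) := by positivity
    have := pow_le_pow_left₀ h0 h6 n
    rw [mul_pow, ← Real.exp_nat_mul] at this
    exact this
  rw [h5] at h1
  have hpos : 0 ≤ Real.exp (lam * s) := by positivity
  refine h1.trans ((mul_le_mul_of_nonneg_left h10 hpos).trans (le_of_eq ?_))
  have e2 : Real.exp (lam * s) * Real.exp (n * (-(lam / 2) + lam ^ 2 / 8)) =
      Real.exp (-((k : ℝ) ^ 2 / (2 * n))) := by
    rw [← Real.exp_add]
    congr 1
    have hs2 : (s : ℝ) = (n - k) / 2 := by linarith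
    rw [hlam, hs2]
    field_simp
    ring
  calc Real.exp (lam * s) * (2 ^ n * Real.exp (n * (-(lam / 2) + lam ^ 2 / 8)))
      = 2 ^ n * (Real.exp (lam * s) * Real.exp (n * (-(lam / 2) + lam ^ 2 / 8))) := by ring
    _ = _ := by rw [e2]; ring

end DiamSqrt
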