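import Pool.Agent.DiamSqrt.Eta
import Pool.Agent.DiamSqrt.Zero
import Pool.Agent.DiamSqrt.Linear
import Pool.Agent.DiamSqrt.Second
import Pool.Agent.DiamSqrt.Pattern

/-! The even case for `k ^ 2 ≥ 20 n log n`. -/

namespace DiamSqrt

open Finset DiamEven

variable {n : ℕ}

theorem zeroCase (s : ℕ) (hs : 1 ≤ s) (hsn : 2 * s ≤ n) (F : Finset (Finset (Fin n)))
    (hF : IsAntichain (· ⊆ ·) (F : Set (Finset (Fin n)))) (f : Finset (Fin n) → ℕ)
    (hf : IsDist F f) (δ β : ℝ) (hβ0 : 0 ≤ β) (hβ : β * (1 + 2 * (n * Real.log 2)) ≤ 1 / 8)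
    (hδ : δ < β / s)
    (hZ : ∑ X ∈ (univ : Finset (Fin n)).powerset,
      (if f X + s = X.card then (0 : ℝ) else 1) ≤ 2 ^ n * δ) :
    F.card ≤ n.choose s :=
  zeroCase_of_eta s hs hsn F hF f hf δ β hβ0 (fun Q hQ hQa hQc =>
    eta n β hβ0 hβ n le_rfl univ (by simp) s hs Q hQ hQa (fun _ _ => subset_univ _) hQc) hδ hZ

/-- main theorem in the form `n = 2 s + k` with numerical hypotheses -/
theorem main_p (s k : ℕ) (hn : n = 2 * s + k) (hk : 2 ≤ k) (hs : 2 ≤ s)
    (F : Finset (Finset (Fin n)))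
    (hF : IsAntichain (· ⊆ ·) (F : Set (Finset (Fin n))))
    (hd : ∀ A ∈ F, ∀ B ∈ F, (symmDiff A B).card ≤ 2 * s) (p : ℝ)
    (hp : ∑ j ∈ range (s + 1), (n.choose j : ℝ) ≤ p * 2 ^ n)
    (hpn : 76 * (n : ℝ) ^ 9 * p ≤ 1) (hpb : 204 * (n : ℝ) ^ 6 * p < 1) :
    F.card ≤ n.choose s := by
  by_contra hcon
  push Not at hcon
  have hnR : (4 : ℝ) ≤ n := by exact_mod_cast (by omega : 4 ≤ n)
  have hsR : (2 : ℝ) ≤ s := by exact_mod_cast hs
  have hsn : (s : ℝ) ≤ n / 2 := by
    have : 2 * s ≤ n := by omega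
    have : (2 : ℝ) * s ≤ n := by exact_mod_cast this
    linarith
  have hp0 : 0 < p := by
    have h1 : (0 : ℝ) < ∑ j ∈ range (s + 1), (n.choose j : ℝ) := by
      apply Finset.sum_pos
      · intro j hj
        rw [mem_range] at hj
        exact_mod_cast Nat.choose_pos (by omega)
      · exact ⟨0, by simp⟩
    have h2 : 0 < p * 2 ^ n := lt_of_lt_of_le h1 hp
    exact pos_of_mul_pos_left h2 (by positivity)
  have hn9 : (1 : ℝ) ≤ (n : ℝ) ^ 9 := one_le_pow₀ (by linarith)
  have hp1 : p ≤ 1 := by nlinarith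
  have hne : F.Nonempty := by rw [← card_pos]; omega
  obtain ⟨f, hf⟩ := exists_isDist hne
  have hlaw := law_of_family s k hn (by omega) F hF hd hcon.le f hf
  obtain ⟨Z, hZ⟩ := hlaw.linear p hp1 hp (by omega)
  set δ : ℝ := 17 * n ^ 4 * p with hδ
  set t : ℝ := 4 * (n * δ + 2 * (s + 1) * p) with ht
  have ht0 : 0 ≤ t := by positivity
  have ht1 : t ≤ 76 * n ^ 5 * p := by
    have h1 : (2 : ℝ) * (s + 1) ≤ 2 * n ^ 5 := by
      have : (n : ℝ) ≤ n ^ 5 := by
        calc (n : ℝ) = n ^ 1 := (pow_one _).symm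
          _ ≤ n ^ 5 := pow_le_pow_right₀ (by linarith) (by norm_num)
      linarith
    have h2 := mul_le_mul_of_nonneg_right h1 hp0.le
    rw [ht, hδ]
    nlinarith
  have hn4 : (1 : ℝ) < (n : ℝ) ^ 4 := one_lt_pow₀ (by linarith) (by norm_num)
  have ht2 : n ^ 4 * t ≤ 1 := by
    have h1 := mul_le_mul_of_nonneg_left ht1 (by positivity : (0 : ℝ) ≤ (n : ℝ) ^ 4)
    nlinarith
  have ht3 : t < 1 := by
    rcases ht0.lt_or_eq with h | h
    · nlinarith
    · rw [← h]; norm_num
  have hpat : ∀ I O : Finset (Fin n), Disjoint I O → I.card ≤ 2 → O.card ≤ 1 →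
      I.card + O.card ≤ 2 →
      ((F.filter (fun B => I ⊆ symmDiff B Z ∧ Disjoint O (symmDiff B Z))).card : ℝ) ≤
      (n - I.card - O.card).choose (s - I.card) +
        t * (n - I.card - O.card).choose (s - I.card + 1) := by
    intro I O h1 h2 h3 h4
    exact pattern s k hn hk F hF f hf Z δ p hZ hp I O h1 (by omega) h4 h3 ht3
  have h2m := secondMoment s k hn hk hs F Z t ht0 hcon.le (by
    intro z
    have := hpat ∅ {z} (by simp) (by simp) (by simp) (by simp)
    simpa using this) (by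
    intro y z hyz
    have := hpat {y, z} ∅ (by simp) (by rw [card_pair hyz]) (by simp) (by rw [card_pair hyz]; simp)
    rw [card_pair hyz] at this
    have e : s - 2 + 1 = s - 1 := by omega
    rw [e] at this
    simpa [insert_subset_iff] using this)
  have hM : (0 : ℝ) < n.choose s := by exact_mod_cast Nat.choose_pos (by omega)
  have hZt := Ztriv s (by omega) (by omega) F hF hcon Z (by
    have h1 := mul_le_mul_of_nonneg_right h2m (by positivity : (0 : ℝ) ≤ (n : ℝ))
    refine h1.trans ?_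
    have h2 := mul_le_mul_of_nonneg_right ht2 hM.le
    nlinarith)
  -- the constant of the lower bound
  set β : ℝ := 1 / (8 * (1 + 2 * (n * Real.log 2))) with hβ
  have hlog : 0 < Real.log 2 := Real.log_pos (by norm_num)
  have hlog2 : Real.log 2 < 0.6931471808 := Real.log_two_lt_d9
  have hβ0 : 0 ≤ β := by positivity
  have hβ1 : β * (1 + 2 * (n * Real.log 2)) ≤ 1 / 8 := by
    rw [hβ]
    apply le_of_eq
    field_simp
  have hδβ : δ < β / s := by
    rw [hβ, div_div, lt_div_iff₀ (by positivity), hδ]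
    have h1 : 8 * (1 + 2 * ((n : ℝ) * Real.log 2)) * s ≤ 12 * n * (n / 2) * 2 := by
      have e1 : 8 * (1 + 2 * ((n : ℝ) * Real.log 2)) ≤ 14 * n := by nlinarith
      have e2 : 8 * (1 + 2 * ((n : ℝ) * Real.log 2)) * s ≤ 14 * n * s := by
        apply mul_le_mul_of_nonneg_right e1 (by positivity)
      nlinarith
    have h2 := mul_le_mul_of_nonneg_left h1 (by positivity : (0 : ℝ) ≤ 17 * n ^ 4 * p)
    nlinarith
  rcases hZt with hZ0 | hZ1
  · subst hZ0
    have := zeroCase s (by omega) (by omega) F hF f hf δ β hβ0 hβ1 hδβ (by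
      have e : ∀ X : Finset (Fin n), symmDiff X ∅ = X := fun X => symmDiff_bot X
      simpa only [e] using hZ)
    omega
  · subst hZ1
    set F' : Finset (Finset (Fin n)) := F.image compl with hF'
    have hinj : Function.Injective (compl : Finset (Fin n) → Finset (Fin n)) := compl_injective
    have hcard : F'.card = F.card := card_image_of_injective _ hinj
    have hf' : IsDist F' (fun X => f Xᶜ) := by
      constructor
      · intro X
        obtain ⟨B, hB, h1⟩ := hf.ex Xᶜ
        refine ⟨Bᶜ, mem_image_of_mem _ hB, ?_⟩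
        rw [← h1, ← card_symmDiff_compl_compl X Bᶜ, compl_compl]
      · intro X B hB
        rw [hF', mem_image] at hB
        obtain ⟨A, hA, rfl⟩ := hB
        have := hf.le Xᶜ A hA
        rw [← card_symmDiff_compl_compl X Aᶜ, compl_compl]
        exact this
    have hanti' : IsAntichain (· ⊆ ·) (F' : Set (Finset (Fin n))) := by
      intro A hA B hB hne' hsub
      simp only [hF', coe_image, Set.mem_image, mem_coe] at hA hB
      obtain ⟨A', hA', rfl⟩ := hA
      obtain ⟨B', hB', rfl⟩ := hB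
      have h1 : B' ⊆ A' := compl_subset_compl.1 hsub
      exact hF hB' hA' (fun h => hne' (by rw [h])) h1
    have := zeroCase s (by omega) (by omega) F' hanti' _ hf' δ β hβ0 hβ1 hδβ (by
      refine le_trans (le_of_eq ?_) hZ
      apply Finset.sum_nbij' (fun X => Xᶜ) (fun X => Xᶜ)
      · intro X _; simp
      · intro X _; simp
      · intro X _; simp
      · intro X _; simp
      · intro X _
        have : (symmDiff Xᶜ univ).card = X.card := by
          congr 1
          ext x
          simp [mem_symmDiff]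
        rw [this])
    omega

/-- the main theorem -/
theorem main (n k : ℕ) (hk1 : 1 ≤ k) (hk : k ≤ n) (he : Even (n + k))
    (hkn : 20 * (n : ℝ) * Real.log n ≤ (k : ℝ) ^ 2) (h3 : 3 * k < n + 2)
    (F : Finset (Finset (Fin n)))
    (hF : IsAntichain (· ⊆ ·) (F : Set (Finset (Fin n))))
    (hd : ∀ A ∈ F, ∀ B ∈ F, (symmDiff A B).card ≤ n - k) :
    F.card ≤ n.choose ((n + k) / 2) := by
  obtain ⟨r, hr⟩ := he
  obtain ⟨s, hs⟩ : ∃ s, n = 2 * s + k := ⟨(n - k) / 2, by omega⟩
  have e1 : (n + k) / 2 = n - s := by omega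
  have h5 : n.choose ((n + k) / 2) = n.choose s := by
    rw [e1]; exact Nat.choose_symm (by omega)
  rw [h5]
  -- `n` is large
  rcases Nat.lt_or_ge n 204 with hn | hn
  · exfalso
    have hk0 : (1 : ℝ) ≤ k := by exact_mod_cast hk1
    have h9 : 3 * (k : ℝ) ≤ n + 1 := by exact_mod_cast (by omega : 3 * k ≤ n + 1)
    have h10 : 9 * (k : ℝ) ^ 2 ≤ ((n : ℝ) + 1) ^ 2 := by nlinarith
    have hn2 : (2 : ℝ) ≤ n := by exact_mod_cast (by omega : 2 ≤ n)
    rcases Nat.lt_or_ge n 8 with h8 | h8
    · have h11 : (n : ℝ) ≤ 7 := by exact_mod_cast (by omega : n ≤ 7)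
      have h12 : (1 : ℝ) / 2 ≤ Real.log n := by
        have h13 : Real.log 2 ≤ Real.log n := Real.log_le_log (by norm_num) hn2
        have := Real.log_two_gt_d9
        linarith
      have h14 : 90 * (n : ℝ) ≤ 180 * (n : ℝ) * Real.log n := by nlinarith
      nlinarith
    · have h11 : (8 : ℝ) ≤ n := by exact_mod_cast h8
      have h11' : (n : ℝ) ≤ 203 := by exact_mod_cast (by omega : n ≤ 203)
      have h12 : (2 : ℝ) ≤ Real.log n := by
        rw [Real.le_log_iff_exp_le (by linarith)]
        have h13 : Real.exp 2 = Real.exp 1 * Real.exp 1 := by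
          rw [← Real.exp_add]; norm_num
        have h14 := Real.exp_one_lt_d9
        have h15 := Real.exp_pos 1
        rw [h13]
        nlinarith
      have h14 : 360 * (n : ℝ) ≤ 180 * (n : ℝ) * Real.log n := by nlinarith
      nlinarith
  · have hnR : (204 : ℝ) ≤ n := by exact_mod_cast hn
    have hk2 : 2 ≤ k := by
      by_contra hcon
      have h1 : (k : ℝ) ≤ 1 := by exact_mod_cast (by omega : k ≤ 1)
      have h2 : (1 : ℝ) ≤ Real.log n := by
        rw [Real.le_log_iff_exp_le (by linarith)]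
        have := Real.exp_one_lt_d9
        linarith
      have h3 : (k : ℝ) ^ 2 ≤ 1 := by nlinarith [Nat.cast_nonneg (α := ℝ) k]
      nlinarith
    have hpn : Real.exp (-((k : ℝ) ^ 2 / (2 * n))) ≤ 1 / (n : ℝ) ^ 10 := by
      rw [Real.exp_neg, ← one_div]
      apply one_div_le_one_div_of_le (by positivity)
      have h1 : (n : ℝ) ^ 10 = Real.exp (10 * Real.log n) := by
        rw [mul_comm, Real.exp_mul, Real.exp_log (by linarith)]
        norm_cast
      rw [h1]
      apply Real.exp_le_exp.2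
      rw [le_div_iff₀ (by positivity)]
      linarith
    refine main_p s k hs hk2 (by omega) F hF (fun A hA B hB => (hd A hA B hB).trans (by omega))
      (1 / (n : ℝ) ^ 10) ?_ ?_ ?_
    · refine (tailp s k hs (by omega)).trans ?_
      apply mul_le_mul_of_nonneg_right hpn (by positivity)
    · rw [mul_one_div, div_le_one (by positivity)]
      have : (n : ℝ) ^ 10 = n ^ 9 * n := by ring
      rw [this]
      have : (0 : ℝ) ≤ (n : ℝ) ^ 9 := by positivity
      nlinarith
    · rw [mul_one_div, div_lt_one (by positivity)]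
      have h1 : (n : ℝ) ^ 10 = n ^ 6 * n ^ 4 := by ring
      rw [h1]
      have h2 : (0 : ℝ) < (n : ℝ) ^ 6 := by positivity
      have h3 : (204 : ℝ) < (n : ℝ) ^ 4 := by
        calc (204 : ℝ) ≤ n := hnR
          _ = n ^ 1 := (pow_one _).symm
          _ < n ^ 4 := pow_lt_pow_right₀ (by linarith) (by norm_num)
      nlinarith

end DiamSqrt
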