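import Pool.Agent.DiamSqrt.Defs

/-! Inequalities for the potential. -/

namespace DiamSqrt

open Finset DiamEven

lemma gfun_nonneg (s : ℕ) (θ : ℝ) : 0 ≤ gfun s θ := by
  unfold gfun
  split_ifs with h
  · have := Real.log_nonneg h
    positivity
  · exact le_max_left _ _

lemma gfun_mono (s : ℕ) {θ θ' : ℝ} (h : θ ≤ θ') : gfun s θ ≤ gfun s θ' := by
  have hs : (0 : ℝ) ≤ s := by positivity
  unfold gfun
  split_ifs with h1 h2 h2
  · have := Real.log_le_log (by linarith) h
    nlinarith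
  · exact absurd (h1.trans h) h2
  · push Not at h1
    have := Real.log_nonneg h2
    apply max_le
    · positivity
    · nlinarith [mul_nonneg (by linarith : 0 ≤ (s : ℝ) + 1) this]
  · apply max_le_max le_rfl
    nlinarith

/-- the potential is at least `1 + (s+1) log θ` -/
lemma gfun_ge (s : ℕ) (θ : ℝ) (h : 0 < θ) : 1 + ((s : ℝ) + 1) * Real.log θ ≤ gfun s θ := by
  unfold gfun
  split_ifs with h1
  · exact le_rfl
  · refine le_trans ?_ (le_max_right _ _)
    have := Real.log_le_sub_one_of_pos h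
    nlinarith [Nat.cast_nonneg (α := ℝ) s]

lemma gfun_log_le (s : ℕ) (θ L : ℝ) (hθ : θ ≤ Real.exp L) (hL : 0 ≤ L) :
    gfun s θ ≤ 1 + (s + 1) * L := by
  have hs : (0 : ℝ) ≤ s := by positivity
  unfold gfun
  split_ifs with h1
  · have : Real.log θ ≤ L := by
      rw [Real.log_le_iff_le_exp (by linarith)]
      exact hθ
    nlinarith
  · push Not at h1
    apply max_le
    · positivity
    · nlinarith [mul_nonneg (by linarith : 0 ≤ (s : ℝ) + 1) hL]

lemma anaI (s : ℕ) (hs : 1 ≤ s) (θ θ1 θ0 : ℝ) (h : 1 ≤ θ) (h1 : θ ≤ θ1) (h0 : 0 < θ0)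
    (hp : θ ^ 2 ≤ θ1 * θ0) :
    2 * (gfun (s + 1) θ / (s + 1)) ≤ gfun s θ1 / s + gfun (s + 1) θ0 / (s + 1) := by
  have hsR : (1 : ℝ) ≤ s := by exact_mod_cast hs
  have e1 : gfun (s + 1) θ = 1 + ((s : ℝ) + 2) * Real.log θ := by
    unfold gfun
    rw [if_pos h]
    push_cast
    ring
  have e2 : gfun s θ1 = 1 + ((s : ℝ) + 1) * Real.log θ1 := by
    unfold gfun
    rw [if_pos (h.trans h1)]
  have e3 := gfun_ge (s + 1) θ0 h0
  have hL1 : 0 ≤ Real.log θ1 := Real.log_nonneg (h.trans h1)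
  have hL : 2 * Real.log θ ≤ Real.log θ1 + Real.log θ0 := by
    rw [← Real.log_mul (by linarith) h0.ne']
    have : 2 * Real.log θ = Real.log (θ ^ 2) := by rw [Real.log_pow]; norm_num
    rw [this]
    exact Real.log_le_log (by positivity) hp
  -- compare the two prefactors for θ1
  have h4 : (1 + ((s : ℝ) + 2) * Real.log θ1) / (s + 1) ≤ gfun s θ1 / s := by
    rw [e2, div_le_div_iff₀ (by linarith) (by linarith)]
    nlinarith
  have h5 : (1 + ((s : ℝ) + 2) * Real.log θ0) / (s + 1) ≤ gfun (s + 1) θ0 / (s + 1) := by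
    apply div_le_div_of_nonneg_right _ (by linarith)
    push_cast at e3
    linarith
  have h6 : 2 * (gfun (s + 1) θ / (s + 1)) ≤
      (1 + ((s : ℝ) + 2) * Real.log θ1) / (s + 1) + (1 + ((s : ℝ) + 2) * Real.log θ0) / (s + 1) := by
    rw [e1, ← add_div, mul_div_assoc', div_le_div_iff_of_pos_right (by linarith)]
    nlinarith
  linarith

/-- `(s+1)/s * (1 + (s+1) log (1 + w/(s+1))) ≥ 1 + w` for `w ∈ [0,1]` -/
lemma ana_aux (s : ℕ) (hs : 1 ≤ s) (w : ℝ) (hw : 0 ≤ w) (hw1 : w ≤ 1) :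
    s * (1 + w) ≤ (s + 1) * (1 + (s + 1) * Real.log (1 + w / (s + 1))) := by
  have hsR : (1 : ℝ) ≤ s := by exact_mod_cast hs
  have hpos : 0 < 1 + w / ((s : ℝ) + 1) := by positivity
  have h1 : 1 - (1 + w / ((s : ℝ) + 1))⁻¹ ≤ Real.log (1 + w / (s + 1)) :=
    Real.one_sub_inv_le_log_of_pos hpos
  have h2 : 1 - (1 + w / ((s : ℝ) + 1))⁻¹ = w / (s + 1 + w) := by
    field_simp
    ring
  rw [h2] at h1
  have h3 : (s + 1) * (1 + (s + 1) * (w / ((s : ℝ) + 1 + w))) ≤
      (s + 1) * (1 + (s + 1) * Real.log (1 + w / (s + 1))) := by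
    apply mul_le_mul_of_nonneg_left _ (by linarith)
    have := mul_le_mul_of_nonneg_left h1 (by linarith : (0 : ℝ) ≤ s + 1)
    linarith
  refine le_trans ?_ h3
  have h4 : (s + 1) * (1 + (s + 1) * (w / ((s : ℝ) + 1 + w))) =
      (s + 1) * ((s + 1 + w) + (s + 1) * w) / (s + 1 + w) := by
    field_simp
  rw [h4, le_div_iff₀ (by linarith)]
  nlinarith [mul_nonneg hw hw, mul_nonneg (by linarith : (0 : ℝ) ≤ 1 - w) hw]

lemma anaII (s : ℕ) (hs : 1 ≤ s) (θ θ1 θ0 : ℝ) (h : θ < 1) (h0 : 0 ≤ θ0) (h01 : θ0 ≤ θ)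
    (h1 : θ ≤ θ1)
    (hY : 2 * ((s : ℝ) + 2) * θ - 1 ≤ (s + 1) * θ1 + (s + 2) * θ0) :
    2 * (gfun (s + 1) θ / (s + 1)) ≤ gfun s θ1 / s + gfun (s + 1) θ0 / (s + 1) := by
  have hsR : (1 : ℝ) ≤ s := by exact_mod_cast hs
  have hs0 : (0 : ℝ) < s := by linarith
  have n1 := gfun_nonneg s θ1
  have n0 := gfun_nonneg (s + 1) θ0
  have e0 : ((s : ℝ) + 2) * θ0 - (s + 1) ≤ gfun (s + 1) θ0 := by
    unfold gfun
    rw [if_neg (by linarith)]
    refine le_trans (le_of_eq ?_) (le_max_right _ _)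
    push_cast
    ring
  have e : gfun (s + 1) θ = max 0 (((s : ℝ) + 2) * θ - (s + 1)) := by
    unfold gfun
    rw [if_neg (by linarith)]
    push_cast
    congr 1
    ring
  rcases le_or_gt (((s : ℝ) + 2) * θ - (s + 1)) 0 with hg | hg
  · rw [e, max_eq_left hg]
    have : 0 ≤ gfun s θ1 / s + gfun (s + 1) θ0 / (s + 1) := by positivity
    simpa using this
  · rw [e, max_eq_right hg.le]
    set g := ((s : ℝ) + 2) * θ - (s + 1) with hgdef
    have hg1 : g < 1 := by rw [hgdef]; nlinarith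
    -- multiply by s (s+1)
    suffices hmain : 2 * (s * g) ≤ (s + 1) * gfun s θ1 + s * gfun (s + 1) θ0 by
      have e5 : gfun s θ1 / s + gfun (s + 1) θ0 / (s + 1) =
          ((s + 1) * gfun s θ1 + s * gfun (s + 1) θ0) / (s * (s + 1)) := by
        field_simp
      rw [e5, mul_div_assoc', div_le_div_iff₀ (by linarith) (by positivity)]
      have := mul_le_mul_of_nonneg_right hmain (by linarith : (0 : ℝ) ≤ (s : ℝ) + 1)
      nlinarith
    rcases lt_or_ge θ1 1 with h2 | h2
    · have e1 : ((s : ℝ) + 1) * θ1 - s ≤ gfun s θ1 := by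
        unfold gfun
        rw [if_neg (by linarith)]
        exact le_max_right _ _
      have h3 : 2 * g ≤ gfun s θ1 + gfun (s + 1) θ0 := by
        rw [hgdef]; linarith
      nlinarith
    · have e1 : gfun s θ1 = 1 + ((s : ℝ) + 1) * Real.log θ1 := by
        unfold gfun
        rw [if_pos h2]
      set w : ℝ := (s + 1) * (θ1 - 1) with hw
      have hw0 : 0 ≤ w := by rw [hw]; nlinarith
      have hθ1 : θ1 = 1 + w / (s + 1) := by
        rw [hw]; field_simp; ring
      have hG0 : 2 * g - 1 - w ≤ gfun (s + 1) θ0 := by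
        refine le_trans ?_ e0
        rw [hgdef, hw]
        linarith
      rw [e1]
      rcases le_or_gt w (2 * g - 1) with hc | hc
      · have := ana_aux s hs w hw0 (by linarith)
        rw [← hθ1] at this
        nlinarith
      · rcases le_or_gt g (1 / 2) with hg2 | hg2
        · have hL : 0 ≤ Real.log θ1 := Real.log_nonneg h2
          have h6 : 0 ≤ ((s : ℝ) + 1) * ((s + 1) * Real.log θ1) := by positivity
          have h7 : 0 ≤ s * gfun (s + 1) θ0 := by positivity
          nlinarith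
        · have h8 := ana_aux s hs (2 * g - 1) (by linarith) (by linarith)
          have h9 : Real.log (1 + (2 * g - 1) / (s + 1)) ≤ Real.log θ1 := by
            rw [hθ1]
            apply Real.log_le_log
            · have : 0 ≤ (2 * g - 1) / ((s : ℝ) + 1) := div_nonneg (by linarith) (by linarith)
              linarith
            · have : (2 * g - 1) / ((s : ℝ) + 1) ≤ w / (s + 1) :=
                div_le_div_of_nonneg_right hc.le (by linarith)
              linarith
          have h10 := mul_le_mul_of_nonneg_left h9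
            (by positivity : (0 : ℝ) ≤ ((s : ℝ) + 1) * (s + 1))
          have h7 : 0 ≤ s * gfun (s + 1) θ0 := by positivity
          nlinarith

end DiamSqrt
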