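import Pool.Agent.DiamSqrt.Defs

/-! Real inequalities for ratios of binomial coefficients. -/

namespace DiamSqrt

open Finset DiamEven

private lemma up_step (u s j : ℕ) (h : s + j ≤ u) (hs : s < u) :
    (((s : ℝ) + 1) / ((u : ℝ) - s)) ^ j * (u.choose (s + j) : ℝ) ≤ (u.choose s : ℝ) := by
  have hsu : (s : ℝ) < u := by exact_mod_cast hs
  have hpos : (0 : ℝ) < (u : ℝ) - s := by linarith
  induction j with
  | zero => simp
  | succ j ih =>
    have h' : s + j ≤ u := by omega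
    refine le_trans ?_ (ih h')
    have hj : ((s : ℝ) + j) + 1 ≤ u := by exact_mod_cast h
    have e1 : (u.choose (s + j + 1) : ℝ) * ((s : ℝ) + j + 1) =
        (u.choose (s + j) : ℝ) * ((u : ℝ) - (s + j)) := by
      have := Nat.choose_succ_right_eq u (s + j)
      have h2 : (((u.choose (s + j + 1) * (s + j + 1) : ℕ)) : ℝ) =
          ((u.choose (s + j) * (u - (s + j)) : ℕ) : ℝ) := by rw [this]
      rw [Nat.cast_mul, Nat.cast_mul, Nat.cast_sub h'] at h2
      push_cast at h2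
      exact h2
    have hp : (0 : ℝ) < (s : ℝ) + j + 1 := by positivity
    have e2 : (u.choose (s + (j + 1)) : ℝ) =
        (u.choose (s + j) : ℝ) * ((u : ℝ) - (s + j)) / ((s : ℝ) + j + 1) := by
      rw [eq_div_iff hp.ne', ← e1]
      rfl
    rw [pow_succ, mul_assoc, e2]
    refine mul_le_mul_of_nonneg_left ?_ (by positivity)
    have hc : (0 : ℝ) ≤ (u.choose (s + j) : ℝ) := Nat.cast_nonneg _
    have e3 : ((s : ℝ) + 1) / ((u : ℝ) - s) *
        ((u.choose (s + j) : ℝ) * ((u : ℝ) - (s + j)) / ((s : ℝ) + j + 1)) =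
        (u.choose (s + j) : ℝ) * ((((s : ℝ) + 1) * ((u : ℝ) - (s + j))) /
          (((u : ℝ) - s) * ((s : ℝ) + j + 1))) := by
      field_simp
    rw [e3]
    have e4 : ((((s : ℝ) + 1) * ((u : ℝ) - (s + j))) /
          (((u : ℝ) - s) * ((s : ℝ) + j + 1))) ≤ 1 := by
      rw [div_le_one (mul_pos hpos hp)]
      have hj0 : (0 : ℝ) ≤ j := Nat.cast_nonneg _
      have hs0 : (0 : ℝ) ≤ s := Nat.cast_nonneg _
      nlinarith [mul_nonneg hj0 hpos.le, mul_nonneg hj0 hs0]
    calc (u.choose (s + j) : ℝ) * _ ≤ (u.choose (s + j) : ℝ) * 1 :=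
          mul_le_mul_of_nonneg_left e4 hc
      _ = _ := mul_one _

private lemma down_step (u s j : ℕ) (h : j ≤ s) (hs : 1 ≤ s) (hu : s ≤ u) :
    (((u : ℝ) - s + 1) / (s : ℝ)) ^ j * (u.choose (s - j) : ℝ) ≤ (u.choose s : ℝ) := by
  have hsu : (s : ℝ) ≤ u := by exact_mod_cast hu
  have hs1 : (0 : ℝ) < s := by exact_mod_cast hs
  induction j with
  | zero => simp
  | succ j ih =>
    refine le_trans ?_ (ih (by omega))
    have hj : ((j : ℝ)) + 1 ≤ s := by exact_mod_cast h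
    have e1 : (u.choose (s - j) : ℝ) * ((s : ℝ) - j) =
        (u.choose (s - (j + 1)) : ℝ) * ((u : ℝ) - s + j + 1) := by
      have h1 := Nat.choose_succ_right_eq u (s - (j + 1))
      have h3 : s - (j + 1) + 1 = s - j := by omega
      rw [h3] at h1
      have h2 : (((u.choose (s - j) * (s - j) : ℕ)) : ℝ) =
          ((u.choose (s - (j + 1)) * (u - (s - (j + 1))) : ℕ) : ℝ) := by rw [h1]
      rw [Nat.cast_mul, Nat.cast_mul, Nat.cast_sub (by omega : j ≤ s),
        Nat.cast_sub (by omega : s - (j + 1) ≤ u), Nat.cast_sub h] at h2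
      push_cast at h2
      rw [h2]
      ring
    have hp : (0 : ℝ) < (u : ℝ) - s + j + 1 := by
      have hj0 : (0 : ℝ) ≤ j := Nat.cast_nonneg _
      linarith
    have e2 : (u.choose (s - (j + 1)) : ℝ) =
        (u.choose (s - j) : ℝ) * ((s : ℝ) - j) / ((u : ℝ) - s + j + 1) := by
      rw [eq_div_iff hp.ne', ← e1]
    have hR : (0 : ℝ) ≤ ((u : ℝ) - s + 1) / (s : ℝ) := by
      apply div_nonneg _ hs1.le
      linarith
    rw [pow_succ, mul_assoc, e2]
    refine mul_le_mul_of_nonneg_left ?_ (pow_nonneg hR _)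
    have hc : (0 : ℝ) ≤ (u.choose (s - j) : ℝ) := Nat.cast_nonneg _
    have e3 : ((u : ℝ) - s + 1) / (s : ℝ) *
        ((u.choose (s - j) : ℝ) * ((s : ℝ) - j) / ((u : ℝ) - s + j + 1)) =
        (u.choose (s - j) : ℝ) * ((((u : ℝ) - s + 1) * ((s : ℝ) - j)) /
          ((s : ℝ) * ((u : ℝ) - s + j + 1))) := by
      field_simp
    rw [e3]
    have e4 : ((((u : ℝ) - s + 1) * ((s : ℝ) - j)) /
          ((s : ℝ) * ((u : ℝ) - s + j + 1))) ≤ 1 := by
      rw [div_le_one (mul_pos hs1 hp)]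
      have hj0 : (0 : ℝ) ≤ j := Nat.cast_nonneg _
      nlinarith [mul_nonneg hj0 (sub_nonneg.2 hsu), mul_nonneg hj0 hs1.le]
    calc (u.choose (s - j) : ℝ) * _ ≤ (u.choose (s - j) : ℝ) * 1 :=
          mul_le_mul_of_nonneg_left e4 hc
      _ = _ := mul_one _

lemma binI (u s a : ℕ) (hs : 1 ≤ s) (h1 : s + 1 ≤ a) (h2 : a ≤ u) (h3 : 2 * s + 1 ≤ u) :
    1 + ((u : ℝ) - 2 * s + 1) / s * ((a : ℝ) - ((u : ℝ) - s)) ≤
      (u.choose s : ℝ) / (u.choose a) := by
  have hs1 : (0 : ℝ) < s := by exact_mod_cast hs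
  have h3' : 2 * (s : ℝ) + 1 ≤ u := by exact_mod_cast h3
  have hca : (0 : ℝ) < (u.choose a : ℝ) := by exact_mod_cast Nat.choose_pos h2
  have hsymm : u.choose a = u.choose (u - a) := (Nat.choose_symm h2).symm
  rw [le_div_iff₀ hca]
  by_cases hb : u - a ≤ s
  · obtain ⟨j, hj⟩ := Nat.exists_eq_add_of_le hb
    have hj' : u - a = s - j := by omega
    have hjs : j ≤ s := by omega
    have haj : (a : ℝ) - ((u : ℝ) - s) = j := by
      have h4 : a + s = u + j := by omega
      have h5 : (a : ℝ) + s = u + j := by exact_mod_cast h4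
      linarith
    have h6 := down_step u s j hjs hs (by omega)
    rw [haj, hsymm, hj']
    refine le_trans (mul_le_mul_of_nonneg_right ?_ (Nat.cast_nonneg _)) h6
    have h7 := one_add_mul_le_pow (a := ((u : ℝ) - 2 * s + 1) / s) (by
      have : (0 : ℝ) ≤ ((u : ℝ) - 2 * s + 1) / s := div_nonneg (by linarith) hs1.le
      linarith) j
    have h8 : 1 + ((u : ℝ) - 2 * s + 1) / s = ((u : ℝ) - s + 1) / s := by
      field_simp
      ring
    rw [h8] at h7
    linarith
  · have hb' : s + 1 ≤ u - a := by omega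
    obtain ⟨j, hj⟩ := Nat.exists_eq_add_of_le (show s ≤ u - a by omega)
    have haj : (a : ℝ) - ((u : ℝ) - s) = -j := by
      have h4 : a + s + j = u := by omega
      have h5 : (a : ℝ) + s + j = u := by exact_mod_cast h4
      linarith
    have h6 := up_step u s j (by omega) (by omega)
    rw [haj, hsymm, hj]
    refine le_trans (mul_le_mul_of_nonneg_right ?_ (Nat.cast_nonneg _)) h6
    have hus : (0 : ℝ) < (u : ℝ) - s := by linarith
    have h7 := one_add_mul_le_pow (a := ((s : ℝ) + 1) / ((u : ℝ) - s) - 1) (by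
      have : (0 : ℝ) ≤ ((s : ℝ) + 1) / ((u : ℝ) - s) := div_nonneg (by linarith) hus.le
      linarith) j
    rw [add_sub_cancel] at h7
    refine le_trans ?_ h7
    have hj0 : (0 : ℝ) ≤ j := Nat.cast_nonneg _
    have h9 : 1 - ((s : ℝ) + 1) / ((u : ℝ) - s) ≤ ((u : ℝ) - 2 * s + 1) / s := by
      have e : 1 - ((s : ℝ) + 1) / ((u : ℝ) - s) = ((u : ℝ) - 2 * s - 1) / ((u : ℝ) - s) := by
        field_simp
        ring
      rw [e, div_le_div_iff₀ hus hs1]
      nlinarith
    nlinarith [mul_le_mul_of_nonneg_left h9 hj0]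

lemma binII (u s a : ℕ) (h1 : s + 1 ≤ a) (h2 : a ≤ u) (h3 : u ≤ 2 * s) :
    1 + ((a : ℝ) - s) * (2 * s + 1 - u) / ((u : ℝ) - s) ≤ (u.choose s : ℝ) / (u.choose a) := by
  have hca : (0 : ℝ) < (u.choose a : ℝ) := by exact_mod_cast Nat.choose_pos h2
  obtain ⟨j, rfl⟩ := Nat.exists_eq_add_of_le (show s ≤ a by omega)
  have hsu : s < u := by omega
  have hus : (0 : ℝ) < (u : ℝ) - s := by
    have : (s : ℝ) < u := by exact_mod_cast hsu
    linarith
  rw [le_div_iff₀ hca]
  refine le_trans (mul_le_mul_of_nonneg_right ?_ hca.le) (up_step u s j h2 hsu)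
  have h7 := one_add_mul_le_pow (a := ((s : ℝ) + 1) / ((u : ℝ) - s) - 1) (by
    have : (0 : ℝ) ≤ ((s : ℝ) + 1) / ((u : ℝ) - s) := div_nonneg (by positivity) hus.le
    linarith) j
  rw [add_sub_cancel] at h7
  refine le_trans (le_of_eq ?_) h7
  push_cast
  field_simp
  ring

end DiamSqrt
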