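import Pool.Agent.DiamEven.Window

/-! Definitions for the even case of the diameter problem with `k` at least a constant times
`sqrt (n log n)`. -/

namespace DiamSqrt

open Finset DiamEven

variable {α : Type*} [DecidableEq α]

/-- the `s`-shadow -/
def shad (s : ℕ) (Q : Finset (Finset α)) : Finset (Finset α) :=
  Q.biUnion (fun B => B.powersetCard s)

lemma mem_shad {s : ℕ} {Q : Finset (Finset α)} {T : Finset α} :
    T ∈ shad s Q ↔ ∃ B ∈ Q, T ⊆ B ∧ T.card = s := by
  unfold shad
  simp only [mem_biUnion, mem_powersetCard]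

open Classical in
/-- number of `X ⊆ S` such that some `B ∈ Q` has `|B| + s + 1 ≤ 2 |B ∩ X|` -/
noncomputable def cnt (S : Finset α) (Q : Finset (Finset α)) (s : ℕ) : ℝ :=
  ∑ X ∈ S.powerset, (if ∃ B ∈ Q, B.card + s + 1 ≤ 2 * (B ∩ X).card then 1 else 0)

/-- the potential -/
noncomputable def gfun (s : ℕ) (θ : ℝ) : ℝ :=
  if 1 ≤ θ then 1 + ((s : ℝ) + 1) * Real.log θ else max 0 (((s : ℝ) + 1) * θ - s)

end DiamSqrt
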