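import Pool.Agent.DiamSqrt.Defs

/-! Recursions for the counting function and for shadows. -/

namespace DiamSqrt

open Finset DiamEven

variable {α : Type*} [DecidableEq α]

lemma cnt_del {S : Finset α} {Q : Finset (Finset α)} {x : α} (hx : x ∈ S) (s : ℕ) :
    2 * cnt (S.erase x) (Q.nonMemberSubfamily x) s ≤ cnt S Q s := by
  classical
  conv_rhs => unfold cnt; rw [← insert_erase hx]
  rw [Finset.sum_powerset_insert (notMem_erase x S), two_mul]
  unfold cnt
  apply add_le_add
  · apply Finset.sum_le_sum
    intro X hX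
    split_ifs with h2 h3 h3
    · exact le_rfl
    · obtain ⟨B, hB, hc⟩ := h2
      rw [mem_nonMemberSubfamily] at hB
      exact absurd ⟨B, hB.1, hc⟩ h3
    · norm_num
    · exact le_rfl
  · apply Finset.sum_le_sum
    intro X hX
    split_ifs with h2 h3 h3
    · exact le_rfl
    · obtain ⟨B, hB, hc⟩ := h2
      rw [mem_nonMemberSubfamily] at hB
      refine absurd ⟨B, hB.1, ?_⟩ h3
      rw [inter_insert_of_notMem hB.2]
      exact hc
    · norm_num
    · exact le_rfl

lemma cnt_rec {S : Finset α} {Q : Finset (Finset α)} {x : α} (hx : x ∈ S) (s : ℕ) :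
    cnt (S.erase x) (Q.memberSubfamily x) s + cnt (S.erase x) (Q.nonMemberSubfamily x) (s + 1) ≤
      cnt S Q (s + 1) := by
  classical
  conv_rhs => unfold cnt; rw [← insert_erase hx]
  rw [Finset.sum_powerset_insert (notMem_erase x S), add_comm]
  unfold cnt
  apply add_le_add
  · apply Finset.sum_le_sum
    intro X hX
    split_ifs with h2 h3 h3
    · exact le_rfl
    · obtain ⟨B, hB, hc⟩ := h2
      rw [mem_nonMemberSubfamily] at hB
      exact absurd ⟨B, hB.1, hc⟩ h3
    · norm_num
    · exact le_rfl
  · apply Finset.sum_le_sum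
    intro X hX
    rw [mem_powerset] at hX
    have hxX : x ∉ X := fun h => (mem_erase.1 (hX h)).1 rfl
    split_ifs with h2 h3 h3
    · exact le_rfl
    · obtain ⟨B, hB, hc⟩ := h2
      rw [mem_memberSubfamily] at hB
      refine absurd ⟨insert x B, hB.1, ?_⟩ h3
      have h4 : insert x B ∩ insert x X = insert x (B ∩ X) := by
        rw [← insert_inter_distrib]
      rw [h4, card_insert_of_notMem hB.2, card_insert_of_notMem (by
        rw [mem_inter]; exact fun h => hB.2 h.1)]
      omega
    · norm_num
    · exact le_rfl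

/-- single sets: at least a quarter of the subsets `X` of `S` satisfy `|B| + 1 ≤ 2 |B ∩ X|` -/
lemma cnt_single_aux : ∀ (m : ℕ) (B : Finset α), B.card = m → 1 ≤ m →
    2 ^ m ≤ 4 * (B.powerset.filter (fun X => B.card + 1 ≤ 2 * X.card)).card := by
  intro m B hm h1
  have h2 : (B.powerset.filter (fun X => B.card + 1 ≤ 2 * X.card)).card =
      (B.powerset.filter (fun X => 2 * X.card + 1 ≤ B.card)).card := by
    apply Finset.card_nbij' (fun X => B \ X) (fun X => B \ X)
    · intro X hX
      simp only [coe_filter, mem_powerset, Set.mem_ofPred_eq] at hX ⊢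
      refine ⟨sdiff_subset, ?_⟩
      rw [card_sdiff_of_subset hX.1]
      have := card_le_card hX.1
      omega
    · intro X hX
      simp only [coe_filter, mem_powerset, Set.mem_ofPred_eq] at hX ⊢
      refine ⟨sdiff_subset, ?_⟩
      rw [card_sdiff_of_subset hX.1]
      have := card_le_card hX.1
      omega
    · intro X hX
      simp only [coe_filter, mem_powerset, Set.mem_ofPred_eq] at hX
      exact Finset.sdiff_sdiff_eq_self hX.1
    · intro X hX
      simp only [coe_filter, mem_powerset, Set.mem_ofPred_eq] at hX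
      exact Finset.sdiff_sdiff_eq_self hX.1
  have h3 : (B.powerset.filter (fun X => 2 * X.card = B.card)).card ≤
      (B.powerset.filter (fun X => B.card + 1 ≤ 2 * X.card)).card +
      (B.powerset.filter (fun X => 2 * X.card + 1 ≤ B.card)).card := by
    obtain ⟨x, hx⟩ : B.Nonempty := by rw [← card_pos]; omega
    -- toggle x
    rw [← Finset.card_union_of_disjoint (by
      rw [Finset.disjoint_left]
      intro X hX hX'
      rw [mem_filter] at hX hX'
      omega)]
    apply Finset.card_le_card_of_injOn (fun X => symmDiff X {x})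
    · intro X hX
      simp only [coe_filter, mem_powerset, Set.mem_ofPred_eq] at hX
      simp only [coe_union, coe_filter, mem_powerset, Set.mem_union, Set.mem_ofPred_eq]
      have hsub : symmDiff X {x} ⊆ B := by
        intro y hy
        rw [mem_symmDiff, mem_singleton] at hy
        rcases hy with h | h
        · exact hX.1 h.1
        · rw [h.1]; exact hx
      by_cases hxX : x ∈ X
      · right
        refine ⟨hsub, ?_⟩
        have : symmDiff X {x} = X.erase x := by
          ext y
          simp only [mem_symmDiff, mem_singleton, mem_erase]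
          by_cases hy : y = x
          · subst hy; simp [hxX]
          · simp [hy]
        rw [this, card_erase_of_mem hxX]
        have : 0 < X.card := card_pos.2 ⟨x, hxX⟩
        omega
      · left
        refine ⟨hsub, ?_⟩
        have : symmDiff X {x} = insert x X := by
          ext y
          simp only [mem_symmDiff, mem_singleton, mem_insert]
          by_cases hy : y = x
          · subst hy; simp [hxX]
          · simp [hy]
        rw [this, card_insert_of_notMem hxX]
        omega
    · intro X _ Y _ hXY
      exact symmDiff_left_injective {x} hXY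
  have h4 : B.powerset.card = (B.powerset.filter (fun X => B.card + 1 ≤ 2 * X.card)).card +
      (B.powerset.filter (fun X => 2 * X.card = B.card)).card +
      (B.powerset.filter (fun X => 2 * X.card + 1 ≤ B.card)).card := by
    rw [← Finset.card_union_of_disjoint, ← Finset.card_union_of_disjoint]
    · congr 1
      ext X
      simp only [mem_union, mem_filter]
      constructor
      · intro h
        rcases Nat.lt_trichotomy (2 * X.card) B.card with h' | h' | h'
        · right; exact ⟨h, by omega⟩
        · left; right; exact ⟨h, h'⟩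
        · left; left; exact ⟨h, by omega⟩
      · rintro ((h | h) | h) <;> exact h.1
    · rw [Finset.disjoint_left]
      intro X hX hX'
      simp only [mem_union, mem_filter] at hX hX'
      omega
    · rw [Finset.disjoint_left]
      intro X hX hX'
      simp only [mem_filter] at hX hX'
      omega
  have h5 : B.powerset.card = 2 ^ m := by rw [card_powerset, hm]
  omega

lemma cnt_zero {S : Finset α} {Q : Finset (Finset α)} (hQ : Q.Nonempty) (hS : ∀ B ∈ Q, B ⊆ S)
    (h1 : ∀ B ∈ Q, 1 ≤ B.card) : (2 : ℝ) ^ S.card ≤ 4 * cnt S Q 0 := by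
  classical
  obtain ⟨B, hB⟩ := hQ
  have hBS := hS B hB
  have h2 := cnt_single_aux B.card B rfl (h1 B hB)
  -- subsets X of S with X ∩ B in the filtered family
  have h3 : (2 ^ (S \ B).card : ℕ) * (B.powerset.filter (fun X => B.card + 1 ≤ 2 * X.card)).card ≤
      (S.powerset.filter (fun X => B.card + 1 ≤ 2 * (B ∩ X).card)).card := by
    rw [← card_powerset, ← card_product]
    apply Finset.card_le_card_of_injOn (fun p => p.1 ∪ p.2)
    · rintro ⟨X, Y⟩ hp
      simp only [coe_product, coe_powerset, Set.mem_prod, Set.mem_preimage, Set.mem_powerset_iff,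
        coe_subset, coe_filter, mem_powerset, Set.mem_ofPred_eq] at hp ⊢
      refine ⟨union_subset (hp.1.trans sdiff_subset) (hp.2.1.trans hBS), ?_⟩
      have : B ∩ (X ∪ Y) = Y := by
        ext y
        simp only [mem_inter, mem_union]
        constructor
        · rintro ⟨hy, h | h⟩
          · exact absurd hy (mem_sdiff.1 (hp.1 h)).2
          · exact h
        · intro hy
          exact ⟨hp.2.1 hy, Or.inr hy⟩
      rw [this]
      exact hp.2.2
    · rintro ⟨X, Y⟩ hp ⟨X', Y'⟩ hp' heq
      simp only [coe_product, coe_powerset, Set.mem_prod, Set.mem_preimage, Set.mem_powerset_iff,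
        coe_subset, coe_filter, mem_powerset, Set.mem_ofPred_eq] at hp hp' heq
      have e1 : X = X' := by
        ext y
        constructor
        · intro hy
          have h5 : y ∈ X' ∪ Y' := heq ▸ mem_union_left _ hy
          rcases mem_union.1 h5 with h | h
          · exact h
          · exact absurd (hp'.2.1 h) (mem_sdiff.1 (hp.1 hy)).2
        · intro hy
          have h5 : y ∈ X ∪ Y := heq ▸ mem_union_left _ hy
          rcases mem_union.1 h5 with h | h
          · exact h
          · exact absurd (hp.2.1 h) (mem_sdiff.1 (hp'.1 hy)).2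
      have e2 : Y = Y' := by
        ext y
        constructor
        · intro hy
          have h5 : y ∈ X' ∪ Y' := heq ▸ mem_union_right _ hy
          rcases mem_union.1 h5 with h | h
          · exact absurd (hp.2.1 hy) (mem_sdiff.1 (hp'.1 h)).2
          · exact h
        · intro hy
          have h5 : y ∈ X ∪ Y := heq ▸ mem_union_right _ hy
          rcases mem_union.1 h5 with h | h
          · exact absurd (hp'.2.1 hy) (mem_sdiff.1 (hp.1 h)).2
          · exact h
      rw [e1, e2]
  have h4 : ((S.powerset.filter (fun X => B.card + 1 ≤ 2 * (B ∩ X).card)).card : ℝ) ≤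
      cnt S Q 0 := by
    unfold cnt
    rw [card_filter]
    push_cast
    apply Finset.sum_le_sum
    intro X _
    split_ifs with h5 h6 h6
    · exact le_rfl
    · exact absurd ⟨B, hB, by omega⟩ h6
    · norm_num
    · exact le_rfl
  have h5 : (2 ^ S.card : ℕ) ≤ 4 * (S.powerset.filter (fun X => B.card + 1 ≤ 2 * (B ∩ X).card)).card := by
    have e1 : S.card = (S \ B).card + B.card := by
      rw [card_sdiff_of_subset hBS]
      have := card_le_card hBS
      omega
    calc (2 ^ S.card : ℕ) = 2 ^ (S \ B).card * 2 ^ B.card := by rw [e1, pow_add]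
      _ ≤ 2 ^ (S \ B).card * (4 * (B.powerset.filter (fun X => B.card + 1 ≤ 2 * X.card)).card) :=
          Nat.mul_le_mul_left _ h2
      _ = 4 * (2 ^ (S \ B).card * (B.powerset.filter (fun X => B.card + 1 ≤ 2 * X.card)).card) := by
          ring
      _ ≤ _ := Nat.mul_le_mul_left _ h3
  have h6 : ((2 ^ S.card : ℕ) : ℝ) ≤
      ((4 * (S.powerset.filter (fun X => B.card + 1 ≤ 2 * (B ∩ X).card)).card : ℕ) : ℝ) := by
    exact_mod_cast h5
  push_cast at h6
  linarith

lemma shad_member (s : ℕ) (Q : Finset (Finset α)) (x : α) :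
    (shad (s + 1) Q).memberSubfamily x = shad s (Q.memberSubfamily x) := by
  ext T
  rw [mem_memberSubfamily, mem_shad, mem_shad]
  constructor
  · rintro ⟨⟨B, hB, h1, h2⟩, h3⟩
    refine ⟨B.erase x, ?_, ?_, ?_⟩
    · rw [mem_memberSubfamily, insert_erase (h1 (mem_insert_self x T))]
      exact ⟨hB, notMem_erase x B⟩
    · intro y hy
      exact mem_erase.2 ⟨fun h => h3 (h ▸ hy), h1 (mem_insert_of_mem hy)⟩
    · rw [card_insert_of_notMem h3] at h2
      omega
  · rintro ⟨B, hB, h1, h2⟩
    rw [mem_memberSubfamily] at hB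
    have h3 : x ∉ T := fun h => hB.2 (h1 h)
    exact ⟨⟨insert x B, hB.1, insert_subset_insert x h1, by
      rw [card_insert_of_notMem h3, h2]⟩, h3⟩

lemma shad_nonMember (s : ℕ) (Q : Finset (Finset α)) (x : α) :
    shad s (Q.nonMemberSubfamily x) ⊆ (shad s Q).nonMemberSubfamily x := by
  intro T hT
  rw [mem_shad] at hT
  obtain ⟨B, hB, h1, h2⟩ := hT
  rw [mem_nonMemberSubfamily] at hB
  rw [mem_nonMemberSubfamily, mem_shad]
  exact ⟨⟨B, hB.1, h1, h2⟩, fun h => hB.2 (h1 h)⟩

lemma shad_subset {s : ℕ} {Q : Finset (Finset α)} {S : Finset α} (hS : ∀ B ∈ Q, B ⊆ S) :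
    ∀ T ∈ shad s Q, T ⊆ S := by
  intro T hT
  rw [mem_shad] at hT
  obtain ⟨B, hB, h1, _⟩ := hT
  exact h1.trans (hS B hB)

lemma shad_card {s : ℕ} {Q : Finset (Finset α)} : ∀ T ∈ shad s Q, T.card = s := by
  intro T hT
  rw [mem_shad] at hT
  obtain ⟨_, _, _, h⟩ := hT
  exact h

lemma shad_nonempty {s : ℕ} {Q : Finset (Finset α)} (hQ : Q.Nonempty)
    (h : ∀ B ∈ Q, s ≤ B.card) : (shad s Q).Nonempty := by
  obtain ⟨B, hB⟩ := hQ
  obtain ⟨T, hT1, hT2⟩ := exists_subset_card_eq (h B hB)
  exact ⟨T, mem_shad.2 ⟨B, hB, hT1, hT2⟩⟩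

/-- some element of the shadow avoids `x` -/
lemma shad_nonMember_pos {s : ℕ} {Q : Finset (Finset α)} (hQ : Q.Nonempty)
    (h : ∀ B ∈ Q, s + 1 ≤ B.card) (x : α) : ((shad s Q).nonMemberSubfamily x).Nonempty := by
  obtain ⟨B, hB⟩ := hQ
  have h1 : s ≤ (B.erase x).card := by
    have := pred_card_le_card_erase (s := B) (a := x)
    have := h B hB
    omega
  obtain ⟨T, hT1, hT2⟩ := exists_subset_card_eq h1
  refine ⟨T, mem_nonMemberSubfamily.2 ⟨mem_shad.2 ⟨B, hB, hT1.trans (erase_subset x B), hT2⟩, ?_⟩⟩
  intro hx
  exact (mem_erase.1 (hT1 hx)).1 rfl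

end DiamSqrt
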