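import Pool.Agent.DiamSqrt.Exist
import Pool.Agent.DiamSqrt.Rec
import Pool.Agent.DiamSqrt.Ana

/-! The multilevel lower bound: for an antichain `Q` of sets of size at least `s + 1`, the
proportion of `X` such that some `B ∈ Q` has `|B| + s + 1 ≤ 2 |B ∩ X|` is at least a function of
the ratio `|Q| / |Δ_s Q|`. -/

namespace DiamSqrt

open Finset DiamEven

variable {α : Type*} [DecidableEq α]

/-- the statement for ground sets of size `m` -/
def EtaStat (α : Type*) [DecidableEq α] (β : ℝ) (m : ℕ) : Prop :=
  ∀ S : Finset α, S.card = m → ∀ s : ℕ, 1 ≤ s → ∀ Q : Finset (Finset α), Q.Nonempty →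
    IsAntichain (· ⊆ ·) (Q : Set (Finset α)) → (∀ B ∈ Q, B ⊆ S) → (∀ B ∈ Q, s + 1 ≤ B.card) →
    β * (gfun s ((Q.card : ℝ) / (shad s Q).card) / s) * 2 ^ m ≤ cnt S Q s

theorem eta (n : ℕ) (β : ℝ) (hβ0 : 0 ≤ β) (hβ : β * (1 + 2 * (n * Real.log 2)) ≤ 1 / 8) :
    ∀ m : ℕ, m ≤ n → EtaStat α β m := by
  intro m
  induction m with
  | zero =>
    intro _ S hS s hs Q hQ _ hsub hc
    obtain ⟨B, hB⟩ := hQ
    have h1 := hc B hB
    have h2 := card_le_card (hsub B hB)
    omega
  | succ m ih =>
    intro hmn S hm s hs Q hQ hanti hsub hc
    have ih' := ih (by omega)
    set D := shad s Q with hD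
    have hDne : D.Nonempty := shad_nonempty hQ (fun B hB => by have := hc B hB; omega)
    have hdpos : (0 : ℝ) < D.card := by exact_mod_cast hDne.card_pos
    have hqpos : (0 : ℝ) < Q.card := by exact_mod_cast hQ.card_pos
    have hD1 : ∀ x, (D.memberSubfamily x).card + (D.nonMemberSubfamily x).card = D.card :=
      fun x => card_memberSubfamily_add_card_nonMemberSubfamily x D
    have hQ1 : ∀ x, (Q.memberSubfamily x).card + (Q.nonMemberSubfamily x).card = Q.card :=
      fun x => card_memberSubfamily_add_card_nonMemberSubfamily x Q
    have hD0pos : ∀ x, (0 : ℝ) < (D.nonMemberSubfamily x).card := by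
      intro x
      exact_mod_cast (shad_nonMember_pos hQ hc x).card_pos
    -- the inductive hypothesis for the sets avoiding x
    have hcnt_nonneg : ∀ (S' : Finset α) (Q' : Finset (Finset α)) (s' : ℕ), 0 ≤ cnt S' Q' s' := by
      intro S' Q' s'
      unfold cnt
      apply Finset.sum_nonneg
      intro X _
      split_ifs <;> norm_num
    have key0 : ∀ x ∈ S, β * (gfun s (((Q.nonMemberSubfamily x).card : ℝ) /
        (D.nonMemberSubfamily x).card) / s) * 2 ^ m ≤
          cnt (S.erase x) (Q.nonMemberSubfamily x) s := by
      intro x hx
      rcases (Q.nonMemberSubfamily x).eq_empty_or_nonempty with h0 | h0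
      · rw [h0, card_empty, Nat.cast_zero, zero_div]
        have : gfun s 0 = 0 := by
          unfold gfun
          rw [if_neg (by norm_num)]
          apply max_eq_left
          have : (0 : ℝ) ≤ s := by positivity
          linarith
        rw [this, zero_div, mul_zero, zero_mul]
        exact hcnt_nonneg _ _ _
      · have hc' : ∀ B ∈ Q.nonMemberSubfamily x, s + 1 ≤ B.card := fun B hB =>
          hc B (mem_nonMemberSubfamily.1 hB).1
        have h1 := ih' (S.erase x) (by rw [card_erase_of_mem hx]; omega) s hs
          (Q.nonMemberSubfamily x) h0 (VPair.anti_nonMember x hanti) (fun B hB => by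
            rw [mem_nonMemberSubfamily] at hB
            intro z hz
            exact mem_erase.2 ⟨fun h => hB.2 (h ▸ hz), hsub B hB.1 hz⟩) hc'
        refine le_trans ?_ h1
        apply mul_le_mul_of_nonneg_right _ (by positivity)
        apply mul_le_mul_of_nonneg_left _ hβ0
        apply div_le_div_of_nonneg_right _ (by positivity)
        apply gfun_mono
        have h2 : (shad s (Q.nonMemberSubfamily x)).card ≤ (D.nonMemberSubfamily x).card :=
          card_le_card (shad_nonMember s Q x)
        have h3 : (0 : ℝ) < (shad s (Q.nonMemberSubfamily x)).card := by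
          exact_mod_cast (shad_nonempty h0 (fun B hB => by have := hc' B hB; omega)).card_pos
        apply div_le_div_of_nonneg_left (by positivity) h3
        exact_mod_cast h2
    by_cases hdel : ∃ x ∈ S, ((Q.memberSubfamily x).card : ℝ) / Q.card ≤
      ((D.memberSubfamily x).card : ℝ) / D.card
    · -- deletion
      obtain ⟨x, hx, hle⟩ := hdel
      refine le_trans ?_ (cnt_del hx s)
      have h1 := key0 x hx
      have h2 : gfun s ((Q.card : ℝ) / D.card) ≤
          gfun s (((Q.nonMemberSubfamily x).card : ℝ) / (D.nonMemberSubfamily x).card) := by
        apply gfun_mono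
        rw [div_le_div_iff₀ hdpos (hD0pos x)]
        rw [div_le_div_iff₀ hqpos hdpos] at hle
        have e1 : ((Q.memberSubfamily x).card : ℝ) + (Q.nonMemberSubfamily x).card = Q.card := by
          exact_mod_cast hQ1 x
        have e2 : ((D.memberSubfamily x).card : ℝ) + (D.nonMemberSubfamily x).card = D.card := by
          exact_mod_cast hD1 x
        nlinarith
      have h3 : β * (gfun s ((Q.card : ℝ) / D.card) / s) * 2 ^ m ≤
          β * (gfun s (((Q.nonMemberSubfamily x).card : ℝ) /
            (D.nonMemberSubfamily x).card) / s) * 2 ^ m := by
        apply mul_le_mul_of_nonneg_right _ (by positivity)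
        apply mul_le_mul_of_nonneg_left _ hβ0
        apply div_le_div_of_nonneg_right h2 (by positivity)
      rw [pow_succ]
      linarith
    · push Not at hdel
      -- every x has more of Q than of D
      obtain ⟨r, rfl⟩ : ∃ r, s = r + 1 := ⟨s - 1, by omega⟩
      rcases Nat.eq_zero_or_pos r with hr | hr
      · -- s = 1
        subst hr
        obtain ⟨B, hB⟩ := hQ
        have hBc := hc B hB
        obtain ⟨x, hx⟩ : B.Nonempty := by rw [← card_pos]; omega
        have hxS := hsub B hB hx
        have h1 : (Q.memberSubfamily x).Nonempty := ⟨B.erase x, by
          rw [mem_memberSubfamily, insert_erase hx]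
          exact ⟨hB, notMem_erase x B⟩⟩
        have h2 := cnt_zero (S := S.erase x) h1 (fun B' hB' => by
            rw [mem_memberSubfamily] at hB'
            intro z hz
            exact mem_erase.2 ⟨fun h => hB'.2 (h ▸ hz), hsub _ hB'.1 (mem_insert_of_mem hz)⟩)
            (fun B' hB' => by
              rw [mem_memberSubfamily] at hB'
              have := hc _ hB'.1
              rw [card_insert_of_notMem hB'.2] at this
              omega)
        rw [card_erase_of_mem hxS, hm, Nat.add_sub_cancel] at h2
        have h3 := cnt_rec (Q := Q) hxS 0
        have h4 := hcnt_nonneg (S.erase x) (Q.nonMemberSubfamily x) (0 + 1)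
        have h5 : gfun (0 + 1) ((Q.card : ℝ) / D.card) ≤ 1 + ((0 + 1 : ℕ) + 1) * (n * Real.log 2) := by
          apply gfun_log_le
          · have e1 : (Q.card : ℝ) ≤ 2 ^ n := by
              have : Q ⊆ S.powerset := fun B hB => mem_powerset.2 (hsub B hB)
              have h := card_le_card this
              rw [card_powerset, hm] at h
              have h' : Q.card ≤ 2 ^ n := h.trans (Nat.pow_le_pow_right (by norm_num) hmn)
              exact_mod_cast h'
            have e2 : (1 : ℝ) ≤ D.card := by exact_mod_cast hDne.card_pos
            have e3 : Real.exp (n * Real.log 2) = 2 ^ n := by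
              rw [mul_comm, Real.exp_mul, Real.exp_log (by norm_num), Real.rpow_natCast]
            rw [e3, div_le_iff₀ hdpos]
            nlinarith [pow_pos (by norm_num : (0 : ℝ) < 2) n]
          · have := Real.log_pos (by norm_num : (1 : ℝ) < 2)
            positivity
        have h6 : β * (gfun (0 + 1) ((Q.card : ℝ) / D.card) / ((0 + 1 : ℕ) : ℝ)) ≤ 1 / 8 := by
          push_cast at h5 ⊢
          rw [div_one]
          refine le_trans ?_ hβ
          apply mul_le_mul_of_nonneg_left _ hβ0
          refine h5.trans (le_of_eq ?_)
          ring
        have h7 : (0 : ℝ) < 2 ^ m := by positivity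
        rw [pow_succ]
        have h8 := mul_le_mul_of_nonneg_right h6 (by positivity : (0 : ℝ) ≤ 2 ^ m * 2)
        linarith
      · -- s = r + 1 ≥ 2
        have hex : ∃ x ∈ S, 2 * (gfun (r + 1) ((Q.card : ℝ) / D.card) / (r + 1)) ≤
            gfun r (((Q.memberSubfamily x).card : ℝ) / (D.memberSubfamily x).card) / r +
            gfun (r + 1) (((Q.nonMemberSubfamily x).card : ℝ) /
              (D.nonMemberSubfamily x).card) / (r + 1) ∧ (Q.memberSubfamily x).Nonempty := by
          have hpos : ∀ x ∈ S, (0 : ℝ) < (Q.memberSubfamily x).card := by
            intro x hx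
            have h1 := hdel x hx
            have h2 : 0 ≤ ((D.memberSubfamily x).card : ℝ) / D.card := by positivity
            by_contra hcon
            have h3 : ((Q.memberSubfamily x).card : ℝ) = 0 :=
              le_antisymm (not_lt.1 hcon) (by positivity)
            rw [h3, zero_div] at h1
            linarith
          have hDpos : ∀ x ∈ S, (0 : ℝ) < (D.memberSubfamily x).card := by
            intro x hx
            rw [hD, shad_member]
            have h1 : (Q.memberSubfamily x).Nonempty := by
              rw [← card_pos]; exact_mod_cast hpos x hx
            exact_mod_cast (shad_nonempty h1 (fun B hB => by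
              rw [mem_memberSubfamily] at hB
              have := hc _ hB.1
              rw [card_insert_of_notMem hB.2] at this
              omega)).card_pos
          rcases Nat.lt_or_ge Q.card D.card with hlt | hge
          · obtain ⟨x, hx, hY⟩ := exII S Q hQ hanti hsub (r + 1) hs hc hlt hdel
            refine ⟨x, hx, ?_, by rw [← card_pos]; exact_mod_cast hpos x hx⟩
            have hd := hdel x hx
            rw [div_lt_div_iff₀ hdpos hqpos] at hd
            have e1 : ((Q.memberSubfamily x).card : ℝ) + (Q.nonMemberSubfamily x).card = Q.card := by
              exact_mod_cast hQ1 x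
            have e2 : ((D.memberSubfamily x).card : ℝ) + (D.nonMemberSubfamily x).card = D.card := by
              exact_mod_cast hD1 x
            apply anaII r hr
            · rw [div_lt_one hdpos]; exact_mod_cast hlt
            · positivity
            · rw [div_le_div_iff₀ (hD0pos x) hdpos]
              nlinarith
            · rw [div_le_div_iff₀ hdpos (hDpos x hx)]
              nlinarith
            · push_cast at hY
              refine le_trans (le_of_eq ?_) (hY.trans (le_of_eq ?_))
              · rw [hD]; ring
              · ring
          · obtain ⟨x, hx, hY⟩ := exI S Q hQ hanti hsub (r + 1) hs hc hge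
            refine ⟨x, hx, ?_, by rw [← card_pos]; exact_mod_cast hpos x hx⟩
            have hd := hdel x hx
            have e1 : ((Q.memberSubfamily x).card : ℝ) + (Q.nonMemberSubfamily x).card = Q.card := by
              exact_mod_cast hQ1 x
            have e2 : ((D.memberSubfamily x).card : ℝ) + (D.nonMemberSubfamily x).card = D.card := by
              exact_mod_cast hD1 x
            have hDx := hDpos x hx
            set q := (Q.card : ℝ)
            set d := (D.card : ℝ)
            set q1 := ((Q.memberSubfamily x).card : ℝ)
            set q0 := ((Q.nonMemberSubfamily x).card : ℝ)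
            set d1 := ((D.memberSubfamily x).card : ℝ)
            set d0 := ((D.nonMemberSubfamily x).card : ℝ)
            have hY' : q1 / q + d1 / d ≤ 1 := hY
            have hd0 := hD0pos x
            have hq0 : 0 < q0 := by
              by_contra hcon
              have h3 : q0 = 0 := le_antisymm (not_lt.1 hcon) (Nat.cast_nonneg _)
              have h4 : q1 = q := by linarith
              rw [h4, div_self hqpos.ne'] at hY'
              have : 0 < d1 / d := by positivity
              linarith
            rw [div_lt_div_iff₀ hdpos hqpos] at hd
            have hYm : q1 * d + d1 * q ≤ q * d := by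
              rw [div_add_div _ _ hqpos.ne' hdpos.ne', div_le_one (by positivity)] at hY'
              linarith
            apply anaI r hr
            · rw [one_le_div hdpos]
              have : (D.card : ℝ) ≤ Q.card := by exact_mod_cast hge
              exact this
            · rw [div_le_div_iff₀ hdpos hDx]
              nlinarith
            · positivity
            · rw [div_pow, div_mul_div_comm, div_le_div_iff₀ (by positivity) (by positivity)]
              -- q^2 d1 d0 ≤ q1 q0 d^2
              have e3 : q0 = q - q1 := by linarith
              have e4 : d0 = d - d1 := by linarith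
              rw [e3, e4]
              nlinarith [mul_nonneg (by linarith : 0 ≤ q1 * d - d1 * q)
                (by linarith : 0 ≤ q * d - q1 * d - d1 * q)]
        obtain ⟨x, hx, hG, hne⟩ := hex
        have h1 := cnt_rec (Q := Q) hx r
        have hcx : ∀ B ∈ Q.memberSubfamily x, r + 1 ≤ B.card := by
          intro B hB
          rw [mem_memberSubfamily] at hB
          have := hc _ hB.1
          rw [card_insert_of_notMem hB.2] at this
          omega
        have h2 := ih' (S.erase x) (by rw [card_erase_of_mem hx]; omega) r hr
          (Q.memberSubfamily x) hne (VPair.anti_member x hanti) (fun B hB => by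
            rw [mem_memberSubfamily] at hB
            intro z hz
            exact mem_erase.2 ⟨fun h => hB.2 (h ▸ hz), hsub _ hB.1 (mem_insert_of_mem hz)⟩) hcx
        rw [← shad_member, ← hD] at h2
        have h3 := key0 x hx
        rw [pow_succ]
        have h4 : (0 : ℝ) < β * 2 ^ m ∨ β = 0 := by
          rcases hβ0.lt_or_eq with h | h
          · left; positivity
          · right; exact h.symm
        push_cast at h3 ⊢
        have h5 := mul_le_mul_of_nonneg_left hG (by positivity : 0 ≤ β * 2 ^ m)
        refine le_trans ?_ h1
        refine le_trans ?_ (add_le_add h2 h3)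
        linarith

end DiamSqrt
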