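import Pool.Agent.DiamSqrt.LymRel
import Pool.Agent.DiamSqrt.BinR

/-! DS3. Existence of a good element. -/

namespace DiamSqrt

open Finset DiamEven

variable {α : Type*} [DecidableEq α]

private lemma ex_sum_card (S : Finset α) (Q : Finset (Finset α)) (hS : ∀ B ∈ Q, B ⊆ S) :
    ∑ x ∈ S, ((Q.memberSubfamily x).card : ℝ) = ∑ B ∈ Q, (B.card : ℝ) := by
  have h := sum_member S Q hS (fun _ => (1 : ℝ))
  simpa using h

private lemma ex_shad_sub {s : ℕ} {Q : Finset (Finset α)} {S : Finset α} (hS : ∀ B ∈ Q, B ⊆ S) :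
    ∀ T ∈ shad s Q, T ⊆ S := by
  intro T hT
  obtain ⟨B, hB, hTB, -⟩ := mem_shad.1 hT
  exact hTB.trans (hS B hB)

private lemma ex_shad_sum {s : ℕ} {Q : Finset (Finset α)} {S : Finset α} (hS : ∀ B ∈ Q, B ⊆ S) :
    ∑ x ∈ S, (((shad s Q).memberSubfamily x).card : ℝ) = s * (shad s Q).card := by
  rw [ex_sum_card S _ (ex_shad_sub hS)]
  have : ∀ T ∈ shad s Q, (T.card : ℝ) = s := by
    intro T hT
    obtain ⟨B, hB, -, hc⟩ := mem_shad.1 hT
    rw [hc]
  rw [Finset.sum_congr rfl this, Finset.sum_const, nsmul_eq_mul, mul_comm]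

private lemma ex_shad_nonempty {s : ℕ} {Q : Finset (Finset α)} (hQ : Q.Nonempty)
    (h : ∀ B ∈ Q, s ≤ B.card) : (shad s Q).Nonempty := by
  obtain ⟨B, hB⟩ := hQ
  obtain ⟨T, hT, hc⟩ := exists_subset_card_eq (h B hB)
  exact ⟨T, mem_shad.2 ⟨B, hB, hT, hc⟩⟩

private lemma ex_nonMember_pos {s : ℕ} {Q : Finset (Finset α)} (hQ : Q.Nonempty)
    (h : ∀ B ∈ Q, s + 1 ≤ B.card) (x : α) : ((shad s Q).nonMemberSubfamily x).Nonempty := by
  obtain ⟨B, hB⟩ := hQ
  have h1 : s ≤ (B.erase x).card := by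
    have := pred_card_le_card_erase (a := x) (s := B)
    have := h B hB
    omega
  obtain ⟨T, hT, hc⟩ := exists_subset_card_eq h1
  refine ⟨T, ?_⟩
  rw [mem_nonMemberSubfamily, mem_shad]
  exact ⟨⟨B, hB, hT.trans (erase_subset _ _), hc⟩, fun hx => (mem_erase.1 (hT hx)).1 rfl⟩

private lemma ex_member_pos {s : ℕ} (hs : 1 ≤ s) {Q : Finset (Finset α)}
    (h : ∀ B ∈ Q, s + 1 ≤ B.card) {x : α} (hQ : (Q.memberSubfamily x).Nonempty) :
    ((shad s Q).memberSubfamily x).Nonempty := by
  obtain ⟨B, hB⟩ := hQ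
  rw [mem_memberSubfamily] at hB
  have h1 : s - 1 ≤ B.card := by
    have := h _ hB.1
    rw [card_insert_of_notMem hB.2] at this
    omega
  obtain ⟨T, hT, hc⟩ := exists_subset_card_eq h1
  have hxT : x ∉ T := fun hx => hB.2 (hT hx)
  refine ⟨T, ?_⟩
  rw [mem_memberSubfamily, mem_shad]
  refine ⟨⟨_, hB.1, insert_subset_insert _ hT, ?_⟩, hxT⟩
  rw [card_insert_of_notMem hxT, hc]
  omega

/-- the case of small ground sets -/
private lemma ex_small (S : Finset α) (Q : Finset (Finset α))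
    (hanti : IsAntichain (· ⊆ ·) (Q : Set (Finset α))) (hS : ∀ B ∈ Q, B ⊆ S) (s : ℕ)
    (hc : ∀ B ∈ Q, s + 1 ≤ B.card) (hu : S.card ≤ 2 * s) :
    (Q.card : ℝ) + (∑ B ∈ Q, (B.card : ℝ) - s * Q.card) *
      ((2 * s + 1 - S.card) / ((S.card : ℝ) - s)) ≤ (shad s Q).card := by
  refine le_trans (le_of_eq ?_) (le_trans (Finset.sum_le_sum fun B hB =>
    binII S.card s B.card (hc B hB) (card_le_card (hS B hB)) hu)
    (lymRel S.card S rfl Q hanti hS s fun B hB => by have := hc B hB; omega))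
  rw [Finset.sum_add_distrib, Finset.sum_const, nsmul_eq_mul, mul_one]
  congr 1
  have e : ∑ B ∈ Q, (B.card : ℝ) - s * Q.card = ∑ B ∈ Q, ((B.card : ℝ) - s) := by
    rw [Finset.sum_sub_distrib, Finset.sum_const, nsmul_eq_mul, mul_comm]
  rw [e, Finset.sum_mul]
  refine Finset.sum_congr rfl fun B _ => ?_
  rw [mul_div_assoc]

/-- existence, case `|D| ≤ |Q|` -/
theorem exI (S : Finset α) (Q : Finset (Finset α)) (hQ : Q.Nonempty)
    (hanti : IsAntichain (· ⊆ ·) (Q : Set (Finset α))) (hS : ∀ B ∈ Q, B ⊆ S) (s : ℕ) (hs : 1 ≤ s)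
    (hc : ∀ B ∈ Q, s + 1 ≤ B.card) (hle : (shad s Q).card ≤ Q.card) :
    ∃ x ∈ S, ((Q.memberSubfamily x).card : ℝ) / Q.card +
      (((shad s Q).memberSubfamily x).card : ℝ) / (shad s Q).card ≤ 1 := by
  by_contra hcon
  push Not at hcon
  have hq : (0 : ℝ) < Q.card := by exact_mod_cast hQ.card_pos
  have hd : (0 : ℝ) < (shad s Q).card := by
    exact_mod_cast (ex_shad_nonempty hQ fun B hB => by have := hc B hB; omega).card_pos
  have hle' : ((shad s Q).card : ℝ) ≤ Q.card := by exact_mod_cast hle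
  obtain ⟨B0, hB0⟩ := hQ
  have hb0 := hc B0 hB0
  have hb1 := card_le_card (hS B0 hB0)
  have hSne : S.Nonempty := by rw [← card_pos]; omega
  have hsum := Finset.sum_lt_sum_of_nonempty hSne hcon
  rw [Finset.sum_const, nsmul_eq_mul, mul_one, Finset.sum_add_distrib, ← Finset.sum_div,
    ← Finset.sum_div, ex_sum_card S Q hS, ex_shad_sum hS, mul_div_assoc, div_self hd.ne',
    mul_one] at hsum
  have hA : ((S.card : ℝ) - s) * Q.card < ∑ B ∈ Q, (B.card : ℝ) := by
    rw [← lt_div_iff₀ hq]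
    linarith
  rcases Nat.lt_or_ge (2 * s) S.card with hu | hu
  · -- large ground set
    have h1 := le_trans (Finset.sum_le_sum fun B hB =>
      binI S.card s B.card hs (hc B hB) (card_le_card (hS B hB)) hu)
      (lymRel S.card S rfl Q hanti hS s fun B hB => by have := hc B hB; omega)
    rw [Finset.sum_add_distrib, Finset.sum_const, nsmul_eq_mul, mul_one, ← Finset.mul_sum,
      Finset.sum_sub_distrib, Finset.sum_const, nsmul_eq_mul] at h1
    have hγ : 0 < ((S.card : ℝ) - 2 * s + 1) / s := by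
      have : (2 * s + 1 : ℝ) ≤ S.card := by exact_mod_cast hu
      have hs' : (0 : ℝ) < s := by exact_mod_cast hs
      apply div_pos _ hs'
      linarith
    have h2 : 0 < ((S.card : ℝ) - 2 * s + 1) / s *
        (∑ B ∈ Q, (B.card : ℝ) - Q.card * ((S.card : ℝ) - s)) :=
      mul_pos hγ (by linarith)
    linarith
  · have h1 := ex_small S Q hanti hS s hc hu
    have hus : (s : ℝ) + 1 ≤ S.card := by exact_mod_cast hb0.trans hb1
    have hus2 : (S.card : ℝ) ≤ 2 * s := by exact_mod_cast hu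
    have h2 : 0 < ((2 * s + 1 - S.card) / ((S.card : ℝ) - s) : ℝ) :=
      div_pos (by linarith) (by linarith)
    have h3 : (s : ℝ) * Q.card < ∑ B ∈ Q, (B.card : ℝ) := by
      have h4 : ∑ B ∈ Q, ((s : ℝ) + 1) ≤ ∑ B ∈ Q, (B.card : ℝ) :=
        Finset.sum_le_sum fun B hB => by exact_mod_cast hc B hB
      rw [Finset.sum_const, nsmul_eq_mul] at h4
      linarith
    have h4 := mul_pos (sub_pos.2 h3) h2
    linarith

/-- the pointwise inequality -/
private lemma ex_point {s q d Q1 D1 : ℝ} (hs : 0 < s) (hq : 0 < q) (hqd : q < d) (hD1 : 0 < D1)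
    (hD0 : D1 < d) (hν : D1 / d < Q1 / q)
    (h : s * (Q1 / D1) + (s + 1) * ((q - Q1) / (d - D1)) < 2 * (s + 1) * (q / d) - 1) :
    0 < (2 * s + 1) * (D1 / d) - s ∧
      (d / q - 1) * ((D1 / d) * (1 - D1 / d) / ((2 * s + 1) * (D1 / d) - s)) <
        Q1 / q - D1 / d := by
  have hd : 0 < d := hq.trans hqd
  obtain ⟨l, rfl⟩ : ∃ l, D1 = l * d := ⟨D1 / d, by field_simp⟩
  obtain ⟨a, rfl⟩ : ∃ a, Q1 = a * q := ⟨Q1 / q, by field_simp⟩
  obtain ⟨θ, rfl⟩ : ∃ θ, q = θ * d := ⟨q / d, by field_simp⟩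
  have hl0 : 0 < l := by
    by_contra hcon
    have := mul_nonpos_of_nonpos_of_nonneg (not_lt.1 hcon) hd.le
    linarith
  have hl1 : l < 1 := by
    by_contra hcon
    have := mul_le_mul_of_nonneg_right (not_lt.1 hcon) hd.le
    linarith
  have hθ0 : 0 < θ := by
    by_contra hcon
    have := mul_nonpos_of_nonpos_of_nonneg (not_lt.1 hcon) hd.le
    linarith
  have hθ1 : θ < 1 := by
    by_contra hcon
    have := mul_le_mul_of_nonneg_right (not_lt.1 hcon) hd.le
    linarith
  have hl1' : 0 < 1 - l := by linarith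
  have e1 : l * d / d = l := by field_simp
  have e2 : a * (θ * d) / (θ * d) = a := by field_simp
  have e3 : θ * d / d = θ := by field_simp
  have e4 : a * (θ * d) / (l * d) = θ * a / l := by field_simp
  have e5 : (θ * d - a * (θ * d)) / (d - l * d) = θ * (1 - a) / (1 - l) := by
    rw [div_eq_div_iff (by nlinarith) hl1'.ne']
    ring
  have e6 : d / (θ * d) = 1 / θ := by field_simp
  rw [e1, e2] at hν ⊢
  rw [e3, e4, e5] at h
  rw [e6]
  have hν' : 0 < a - l := by linarith
  have hll : 0 < l * (1 - l) := mul_pos hl0 hl1'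
  have h1 : (1 - θ) * (l * (1 - l)) < θ * (a - l) * ((2 * s + 1) * l - s) := by
    have h2 := mul_lt_mul_of_pos_right h hll
    have e7 : (s * (θ * a / l) + (s + 1) * (θ * (1 - a) / (1 - l))) * (l * (1 - l)) =
        s * θ * a * (1 - l) + (s + 1) * θ * (1 - a) * l := by
      field_simp
    rw [e7] at h2
    nlinarith
  have hθν : 0 < θ * (a - l) := mul_pos hθ0 hν'
  have ht : 0 < (2 * s + 1) * l - s := by
    have h2 : 0 < θ * (a - l) * ((2 * s + 1) * l - s) :=
      lt_of_le_of_lt (mul_nonneg (by linarith) hll.le) h1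
    exact (mul_pos_iff_of_pos_left hθν).1 h2
  refine ⟨ht, ?_⟩
  have e8 : (1 / θ - 1) * (l * (1 - l) / ((2 * s + 1) * l - s)) =
      ((1 - θ) * (l * (1 - l))) / (θ * ((2 * s + 1) * l - s)) := by
    field_simp
  rw [e8, div_lt_iff₀ (mul_pos hθ0 ht)]
  linarith

/-- the tangent line -/
private lemma ex_tangent {s T l : ℝ} (hs : 0 < s) (hT : 0 < T)
    (ht : 0 < (2 * s + 1) * l - s) :
    (s * (s + 1) * (2 / T - ((2 * s + 1) * l - s) / T ^ 2) + 1 - ((2 * s + 1) * l - s)) /
      (2 * s + 1) ^ 2 ≤ l * (1 - l) / ((2 * s + 1) * l - s) := by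
  set t := (2 * s + 1) * l - s with htdef
  have hl : l = (t + s) / (2 * s + 1) := by
    rw [htdef]
    field_simp
    ring
  have e : l * (1 - l) / t = (s * (s + 1) * (1 / t) + 1 - t) / (2 * s + 1) ^ 2 := by
    rw [hl]
    field_simp
    ring
  rw [e]
  apply div_le_div_of_nonneg_right _ (by positivity)
  have h1 : 2 / T - t / T ^ 2 ≤ 1 / t := by
    have h2 : 1 / t - (2 / T - t / T ^ 2) = (T - t) ^ 2 / (t * T ^ 2) := by
      field_simp
      ring
    have h3 : 0 ≤ (T - t) ^ 2 / (t * T ^ 2) := by positivity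
    linarith
  have h2 := mul_le_mul_of_nonneg_left h1 (by positivity : 0 ≤ s * (s + 1))
  linarith

/-- existence, case `|Q| < |D|` -/
theorem exII (S : Finset α) (Q : Finset (Finset α)) (hQ : Q.Nonempty)
    (hanti : IsAntichain (· ⊆ ·) (Q : Set (Finset α))) (hS : ∀ B ∈ Q, B ⊆ S) (s : ℕ) (hs : 1 ≤ s)
    (hc : ∀ B ∈ Q, s + 1 ≤ B.card) (hlt : Q.card < (shad s Q).card)
    (hν : ∀ x ∈ S, (((shad s Q).memberSubfamily x).card : ℝ) / (shad s Q).card <
      ((Q.memberSubfamily x).card : ℝ) / Q.card) :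
    ∃ x ∈ S, 2 * ((s : ℝ) + 1) * ((Q.card : ℝ) / (shad s Q).card) - 1 ≤
      s * (((Q.memberSubfamily x).card : ℝ) / ((shad s Q).memberSubfamily x).card) +
      (s + 1) * (((Q.nonMemberSubfamily x).card : ℝ) / ((shad s Q).nonMemberSubfamily x).card) := by
  by_contra hcon
  push Not at hcon
  have hq : (0 : ℝ) < Q.card := by exact_mod_cast hQ.card_pos
  have hlt' : (Q.card : ℝ) < (shad s Q).card := by exact_mod_cast hlt
  have hd : (0 : ℝ) < (shad s Q).card := hq.trans hlt'
  have hs' : (0 : ℝ) < s := by exact_mod_cast hs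
  have hnm := ex_nonMember_pos hQ hc
  obtain ⟨B0, hB0⟩ := hQ
  have hb0 := hc B0 hB0
  have hb1 := card_le_card (hS B0 hB0)
  have hSne : S.Nonempty := by rw [← card_pos]; omega
  have hus : (s : ℝ) + 1 ≤ S.card := by exact_mod_cast hb0.trans hb1
  have hu0 : (0 : ℝ) < S.card := by linarith
  have key : ∀ x ∈ S,
      0 < (2 * (s : ℝ) + 1) * ((((shad s Q).memberSubfamily x).card : ℝ) / (shad s Q).card) - s ∧
      (((shad s Q).card : ℝ) / Q.card - 1) *
        (((((shad s Q).memberSubfamily x).card : ℝ) / (shad s Q).card) *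
          (1 - (((shad s Q).memberSubfamily x).card : ℝ) / (shad s Q).card) /
          ((2 * (s : ℝ) + 1) * ((((shad s Q).memberSubfamily x).card : ℝ) / (shad s Q).card)
            - s)) <
        ((Q.memberSubfamily x).card : ℝ) / Q.card -
          (((shad s Q).memberSubfamily x).card : ℝ) / (shad s Q).card := by
    intro x hx
    have hQx : (Q.memberSubfamily x).Nonempty := by
      rw [← card_pos]
      have h1 := hν x hx
      have h2 : (0 : ℝ) ≤ (((shad s Q).memberSubfamily x).card : ℝ) / (shad s Q).card := by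
        positivity
      by_contra hcon
      have h3 : ((Q.memberSubfamily x).card : ℝ) = 0 := by
        exact_mod_cast Nat.le_zero.1 (not_lt.1 hcon)
      rw [h3, zero_div] at h1
      linarith
    have hD1 : (0 : ℝ) < ((shad s Q).memberSubfamily x).card := by
      exact_mod_cast (ex_member_pos hs hc hQx).card_pos
    have hD0 : (0 : ℝ) < ((shad s Q).nonMemberSubfamily x).card := by
      exact_mod_cast (hnm x).card_pos
    have e1 : ((Q.memberSubfamily x).card : ℝ) + (Q.nonMemberSubfamily x).card = Q.card := by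
      exact_mod_cast card_memberSubfamily_add_card_nonMemberSubfamily x Q
    have e2 : (((shad s Q).memberSubfamily x).card : ℝ) + ((shad s Q).nonMemberSubfamily x).card =
        (shad s Q).card := by
      exact_mod_cast card_memberSubfamily_add_card_nonMemberSubfamily x (shad s Q)
    have h3 := hcon x hx
    have e3 : ((Q.nonMemberSubfamily x).card : ℝ) = Q.card - (Q.memberSubfamily x).card := by
      linarith
    have e4 : (((shad s Q).nonMemberSubfamily x).card : ℝ) =
        (shad s Q).card - ((shad s Q).memberSubfamily x).card := by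
      linarith
    rw [e3, e4] at h3
    exact ex_point hs' hq hlt' hD1 (by linarith) (hν x hx) h3
  have hsl : ∑ x ∈ S, (((shad s Q).memberSubfamily x).card : ℝ) / (shad s Q).card = s := by
    rw [← Finset.sum_div, ex_shad_sum hS, mul_div_assoc, div_self hd.ne', mul_one]
  -- `u ≤ 2 s`
  have hu : (S.card : ℝ) < 2 * s + 1 := by
    have h1 := Finset.sum_lt_sum_of_nonempty hSne fun x hx => (key x hx).1
    rw [Finset.sum_const_zero, Finset.sum_sub_distrib, ← Finset.mul_sum, hsl, Finset.sum_const,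
      nsmul_eq_mul] at h1
    have h2 : (s : ℝ) * S.card < s * (2 * s + 1) := by linarith
    exact lt_of_mul_lt_mul_left h2 hs'.le
  have hu' : S.card ≤ 2 * s := by
    have : S.card < 2 * s + 1 := by exact_mod_cast hu
    omega
  have h1 := ex_small S Q hanti hS s hc hu'
  set u : ℝ := (S.card : ℝ) with hudef
  set q : ℝ := (Q.card : ℝ) with hqdef
  set d : ℝ := ((shad s Q).card : ℝ) with hddef
  set A : ℝ := ∑ B ∈ Q, (B.card : ℝ) with hA
  set w : ℝ := 2 * s + 1 - u with hw
  have hw0 : 0 < w := by rw [hw]; linarith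
  have hus' : 0 < u - s := by linarith
  have hT : 0 < (s : ℝ) * w / u := by positivity
  have h2 := Finset.sum_lt_sum_of_nonempty hSne fun x hx => (key x hx).2
  rw [Finset.sum_sub_distrib, hsl, ← Finset.sum_div, ex_sum_card S Q hS, ← Finset.mul_sum] at h2
  have h3 : (u - s) / w ≤ ∑ x ∈ S, (((((shad s Q).memberSubfamily x).card : ℝ) / d) *
      (1 - (((shad s Q).memberSubfamily x).card : ℝ) / d) /
      ((2 * (s : ℝ) + 1) * ((((shad s Q).memberSubfamily x).card : ℝ) / d) - s)) := by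
    refine le_trans (le_of_eq ?_) (Finset.sum_le_sum fun x hx =>
      ex_tangent hs' hT (key x hx).1)
    have e0 : ∀ x ∈ S, ((s : ℝ) * (s + 1) * (2 / (s * w / u) -
        ((2 * s + 1) * ((((shad s Q).memberSubfamily x).card : ℝ) / d) - s) / (s * w / u) ^ 2) + 1 -
        ((2 * s + 1) * ((((shad s Q).memberSubfamily x).card : ℝ) / d) - s)) /
        (2 * s + 1) ^ 2 =
        ((s : ℝ) * (s + 1) * (2 / (s * w / u) + s / (s * w / u) ^ 2) + 1 + s) / (2 * s + 1) ^ 2 -
        ((s : ℝ) * (s + 1) / (s * w / u) ^ 2 + 1) / (2 * s + 1) *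
          ((((shad s Q).memberSubfamily x).card : ℝ) / d) := by
      intro x _
      field_simp
      ring
    rw [Finset.sum_congr rfl e0, Finset.sum_sub_distrib, Finset.sum_const, nsmul_eq_mul,
      ← Finset.mul_sum, hsl]
    have hu1 : u = 2 * s + 1 - w := by rw [hw]; ring
    rw [← hudef]
    have hu2 : u ≠ 0 := hu0.ne'
    rw [eq_sub_iff_add_eq, eq_comm]
    field_simp
    rw [hu1]
    ring
  have h4 : (d / q - 1) * ((u - s) / w) < A / q - s := by
    refine lt_of_le_of_lt (mul_le_mul_of_nonneg_left h3 ?_) h2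
    rw [sub_nonneg, one_le_div hq]
    exact hlt'.le
  have h5 : (A / q - s) * (w / (u - s)) ≤ d / q - 1 := by
    have e : (A / q - s) * (w / (u - s)) = ((A - s * q) * (w / (u - s))) / q := by
      field_simp
    rw [e, div_le_iff₀ hq]
    have e2 : (d / q - 1) * q = d - q := by field_simp
    rw [e2]
    linarith
  have h6 : A / q - s ≤ (d / q - 1) * ((u - s) / w) := by
    have e : (A / q - s) = (A / q - s) * (w / (u - s)) * ((u - s) / w) := by
      field_simp
    rw [e]
    exact mul_le_mul_of_nonneg_right h5 (by positivity)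
  linarith

end DiamSqrt
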