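import Pool.Agent.DiamSqrt.Defs

/-! The distance function of a family and the two laws it satisfies. -/

namespace DiamSqrt

open Finset DiamEven

variable {n : ℕ}

/-- `f X` is the distance from `X` to the family `F` -/
structure IsDist (F : Finset (Finset (Fin n))) (f : Finset (Fin n) → ℕ) : Prop where
  ex : ∀ X, ∃ B ∈ F, (symmDiff X B).card = f X
  le : ∀ X, ∀ B ∈ F, f X ≤ (symmDiff X B).card

lemma exists_isDist {F : Finset (Finset (Fin n))} (hF : F.Nonempty) : ∃ f, IsDist F f := by
  classical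
  have h : ∀ X : Finset (Fin n), ∃ B ∈ F, ∀ B' ∈ F, (symmDiff X B).card ≤ (symmDiff X B').card :=
    fun X => exists_min_image F (fun B => (symmDiff X B).card) hF
  choose g hg hg' using h
  exact ⟨fun X => (symmDiff X (g X)).card, fun X => ⟨g X, hg X, rfl⟩, fun X B hB => hg' X B hB⟩

lemma IsDist.le_n {F : Finset (Finset (Fin n))} {f : Finset (Fin n) → ℕ} (h : IsDist F f)
    (X : Finset (Fin n)) : f X ≤ n := by
  obtain ⟨B, _, hB⟩ := h.ex X
  rw [← hB]
  simpa using card_le_univ (symmDiff X B)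

lemma IsDist.lip {F : Finset (Finset (Fin n))} {f : Finset (Fin n) → ℕ} (h : IsDist F f)
    (x : Fin n) (X : Finset (Fin n)) (hx : x ∉ X) :
    f (insert x X) ≤ f X + 1 ∧ f X ≤ f (insert x X) + 1 := by
  have h1 : (symmDiff (insert x X) X).card = 1 := by
    have : symmDiff (insert x X) X = {x} := by
      ext y
      simp only [mem_symmDiff, mem_insert, mem_singleton]
      by_cases hy : y = x
      · subst hy; simp [hx]
      · simp [hy]
    rw [this, card_singleton]
  constructor
  · obtain ⟨B, hB, hB2⟩ := h.ex X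
    have h2 := h.le (insert x X) B hB
    have h3 := tri (insert x X) X B
    omega
  · obtain ⟨B, hB, hB2⟩ := h.ex (insert x X)
    have h2 := h.le X B hB
    have h3 := tri X (insert x X) B
    rw [card_symmDiff_comm' X (insert x X)] at h3
    omega

/-- the two laws used: isoperimetry and the diameter condition -/
structure Law (n s k : ℕ) (f : Finset (Fin n) → ℕ) : Prop where
  hn : n = 2 * s + k
  le_n : ∀ X, f X ≤ n
  lip : ∀ x X, x ∉ X → f (insert x X) ≤ f X + 1 ∧ f X ≤ f (insert x X) + 1
  disj : ∀ X, k ≤ f X + f Xᶜ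
  iso : ∀ t : ℕ, WW t n s ≤ ∑ X ∈ (univ : Finset (Fin n)).powerset, (if f X ≤ t then (1 : ℝ) else 0)

lemma law_of_family (s k : ℕ) (hn : n = 2 * s + k) (hk : 1 ≤ k) (F : Finset (Finset (Fin n)))
    (hF : IsAntichain (· ⊆ ·) (F : Set (Finset (Fin n))))
    (hd : ∀ A ∈ F, ∀ B ∈ F, (symmDiff A B).card ≤ 2 * s) (hc : n.choose s ≤ F.card)
    (f : Finset (Fin n) → ℕ) (hf : IsDist F f) : Law n s k f := by
  refine ⟨hn, hf.le_n, hf.lip, ?_, ?_⟩
  · intro X
    obtain ⟨A, hA, hA2⟩ := hf.ex X
    obtain ⟨B, hB, hB2⟩ := hf.ex Xᶜ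
    have h1 := hd A hA B hB
    have h2 := card_symmDiff_compl X B
    have h3 := tri X A B
    omega
  · intro t
    have h := covStat (α := Fin n) t n univ (by simp) F hF (fun _ _ => subset_univ _) s 0 le_rfl
      zero_le_one (by omega) (by rw [zero_mul, add_zero]; exact_mod_cast hc)
    rw [zero_mul, add_zero] at h
    refine h.trans (le_of_eq ?_)
    unfold cov
    apply Finset.sum_congr rfl
    intro X _
    have : (∃ B ∈ F, (symmDiff X B).card ≤ t) ↔ f X ≤ t := by
      constructor
      · rintro ⟨B, hB, h1⟩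
        exact (hf.le X B hB).trans h1
      · intro h1
        obtain ⟨B, hB, h2⟩ := hf.ex X
        exact ⟨B, hB, by omega⟩
    simp only [this]

end DiamSqrt
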