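import Pool.Agent.DiamSqrt.Defs
import Pool.Agent.DiamEven.Full

/-! The relative LYM inequality. -/

namespace DiamSqrt

open Finset DiamEven

variable {α : Type*} [DecidableEq α]

private lemma lymRel_choose (m b : ℕ) (hb : b ≤ m) :
    ((m : ℝ) + 1 - b) / (m.choose b) = ((m : ℝ) + 1) / ((m + 1).choose b) := by
  have h1 : (0 : ℝ) < m.choose b := by exact_mod_cast Nat.choose_pos hb
  have h2 : (0 : ℝ) < (m + 1).choose b := by exact_mod_cast Nat.choose_pos (by omega)
  rw [div_eq_div_iff h1.ne' h2.ne']
  have h4 := Nat.choose_mul_succ_eq m b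
  have h5 : ((m.choose b : ℕ) : ℝ) * ((m : ℝ) + 1) = ((m + 1).choose b : ℝ) * ((m : ℝ) + 1 - b) := by
    have : ((m.choose b * (m + 1) : ℕ) : ℝ) = (((m + 1).choose b * (m + 1 - b) : ℕ) : ℝ) := by
      rw [h4]
    rw [Nat.cast_mul, Nat.cast_mul, Nat.cast_sub (by omega)] at this
    push_cast at this
    linarith
  linarith

theorem lymRel : ∀ (m : ℕ) (S : Finset α), S.card = m → ∀ (Q : Finset (Finset α)),
    IsAntichain (· ⊆ ·) (Q : Set (Finset α)) → (∀ B ∈ Q, B ⊆ S) → ∀ s : ℕ,
    (∀ B ∈ Q, s ≤ B.card) →
    ∑ B ∈ Q, (S.card.choose s : ℝ) / (S.card.choose B.card) ≤ (shad s Q).card := by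
  intro m
  induction m with
  | zero =>
    intro S hS Q hQ hQS s hs
    rcases Q.eq_empty_or_nonempty with rfl | ⟨B, hB⟩
    · simp
    · have hS0 : S = ∅ := card_eq_zero.1 hS
      have hB0 : ∀ B ∈ Q, B = ∅ := fun B hB => subset_empty.1 (hS0 ▸ hQS B hB)
      have hQ1 : Q = {∅} := by
        ext C
        rw [mem_singleton]
        constructor
        · exact hB0 C
        · rintro rfl
          rw [← hB0 B hB]
          exact hB
      have hs0 : s = 0 := by
        have := hs B hB
        rw [hB0 B hB, card_empty] at this
        omega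
      subst hQ1 hs0 hS0
      simp [shad]
  | succ m ih =>
    intro S hS Q hQ hQS s hs
    rcases Q.eq_empty_or_nonempty with rfl | ⟨B₀, hB₀⟩
    · simp
    by_cases hSQ : S ∈ Q
    · have hQ1 : Q = {S} := by
        ext C
        rw [mem_singleton]
        constructor
        · intro hC
          by_contra hne
          exact hQ (mem_coe.2 hC) (mem_coe.2 hSQ) hne (hQS C hC)
        · rintro rfl
          exact hSQ
      subst hQ1
      rw [sum_singleton, Nat.choose_self, Nat.cast_one, div_one]
      have : shad s {S} = S.powersetCard s := by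
        unfold shad
        rw [singleton_biUnion]
      rw [this, card_powersetCard]
    · have hlt : ∀ B ∈ Q, B.card < m + 1 := by
        intro B hB
        rw [← hS]
        refine card_lt_card (ssubset_of_subset_of_ne (hQS B hB) ?_)
        rintro rfl
        exact hSQ hB
      have hsm : s ≤ m := by
        have h1 := hs B₀ hB₀
        have h2 := hlt B₀ hB₀
        omega
      -- induction hypothesis for the non-member subfamilies
      have h1 : ∀ x ∈ S, ∑ B ∈ Q.nonMemberSubfamily x, (m.choose s : ℝ) / (m.choose B.card) ≤
          ((shad s Q).nonMemberSubfamily x).card := by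
        intro x hx
        have hcard : (S.erase x).card = m := by
          rw [card_erase_of_mem hx, hS]
          rfl
        have h2 := ih (S.erase x) hcard (Q.nonMemberSubfamily x)
          (by
            intro B hB C hC hne
            rw [mem_coe, mem_nonMemberSubfamily] at hB hC
            exact hQ (mem_coe.2 hB.1) (mem_coe.2 hC.1) hne)
          (by
            intro B hB
            rw [mem_nonMemberSubfamily] at hB
            exact subset_erase.2 ⟨hQS B hB.1, hB.2⟩) s
          (by
            intro B hB
            rw [mem_nonMemberSubfamily] at hB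
            exact hs B hB.1)
        rw [hcard] at h2
        refine h2.trans ?_
        have h3 : shad s (Q.nonMemberSubfamily x) ⊆ (shad s Q).nonMemberSubfamily x := by
          intro T hT
          rw [mem_shad] at hT
          obtain ⟨B, hB, hTB, hTs⟩ := hT
          rw [mem_nonMemberSubfamily] at hB
          rw [mem_nonMemberSubfamily, mem_shad]
          exact ⟨⟨B, hB.1, hTB, hTs⟩, fun hxT => hB.2 (hTB hxT)⟩
        exact_mod_cast card_le_card h3
      have h2 := sum_le_sum h1
      rw [sum_nonMember S Q hQS (fun b => (m.choose s : ℝ) / (m.choose b))] at h2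
      have hshS : ∀ T ∈ shad s Q, T ⊆ S := by
        intro T hT
        rw [mem_shad] at hT
        obtain ⟨B, hB, hTB, _⟩ := hT
        exact hTB.trans (hQS B hB)
      have h3 := sum_nonMember S (shad s Q) hshS (fun _ => (1 : ℝ))
      have h4 : ∑ y ∈ S, ∑ D ∈ (shad s Q).nonMemberSubfamily y, (1 : ℝ) =
          ∑ y ∈ S, (((shad s Q).nonMemberSubfamily y).card : ℝ) := by
        refine sum_congr rfl fun y _ => ?_
        rw [sum_const, nsmul_eq_mul, mul_one]
      have h5 : ∑ D ∈ shad s Q, ((S.card : ℝ) - D.card) * 1 =
          ((m : ℝ) + 1 - s) * (shad s Q).card := by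
        rw [sum_congr rfl (g := fun _ => (m : ℝ) + 1 - s)]
        · rw [sum_const, nsmul_eq_mul, mul_comm]
        · intro T hT
          rw [mem_shad] at hT
          obtain ⟨B, hB, hTB, hTs⟩ := hT
          rw [hS, hTs]
          push_cast
          ring
      rw [← h4, h3, h5] at h2
      have h6 : ∑ B ∈ Q, ((S.card : ℝ) - B.card) * ((m.choose s : ℝ) / (m.choose B.card)) =
          ((m : ℝ) + 1 - s) * ∑ B ∈ Q, (S.card.choose s : ℝ) / (S.card.choose B.card) := by
        rw [mul_sum]
        refine sum_congr rfl fun B hB => ?_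
        have hb : B.card ≤ m := by
          have := hlt B hB
          omega
        have e1 := lymRel_choose m B.card hb
        have e2 := lymRel_choose m s hsm
        have p1 : (0 : ℝ) < m.choose B.card := by exact_mod_cast Nat.choose_pos hb
        have p2 : (0 : ℝ) < m.choose s := by exact_mod_cast Nat.choose_pos hsm
        have p3 : (0 : ℝ) < (m + 1).choose B.card := by exact_mod_cast Nat.choose_pos (by omega)
        have p4 : (0 : ℝ) < (m + 1).choose s := by exact_mod_cast Nat.choose_pos (by omega)
        have pm : (0 : ℝ) < (m : ℝ) + 1 := by positivity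
        rw [hS]
        push_cast
        rw [div_eq_div_iff p1.ne' p3.ne'] at e1
        rw [div_eq_div_iff p2.ne' p4.ne'] at e2
        rw [mul_div_assoc', mul_div_assoc', div_eq_div_iff p1.ne' p3.ne']
        have : ((m : ℝ) + 1) * (((m : ℝ) + 1 - B.card) * (m.choose s) * ((m + 1).choose B.card)) =
            ((m : ℝ) + 1) * (((m : ℝ) + 1 - s) * ((m + 1).choose s) * (m.choose B.card)) := by
          have q1 : ((m : ℝ) + 1 - B.card) * ((m + 1).choose B.card) = ((m : ℝ) + 1) * m.choose B.card := e1
          have q2 : ((m : ℝ) + 1 - s) * ((m + 1).choose s) = ((m : ℝ) + 1) * m.choose s := e2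
          calc ((m : ℝ) + 1) * (((m : ℝ) + 1 - B.card) * (m.choose s) * ((m + 1).choose B.card))
              = ((m : ℝ) + 1) * (m.choose s) * (((m : ℝ) + 1 - B.card) * ((m + 1).choose B.card)) := by ring
            _ = (((m : ℝ) + 1 - s) * ((m + 1).choose s)) * (((m : ℝ) + 1) * m.choose B.card) := by
                rw [q1, q2]
            _ = _ := by ring
        exact mul_left_cancel₀ pm.ne' this
      rw [h6] at h2
      have hpos : (0 : ℝ) < (m : ℝ) + 1 - s := by
        have : (s : ℝ) ≤ m := by exact_mod_cast hsm
        linarith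
      exact le_of_mul_le_mul_left h2 hpos

end DiamSqrt
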